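import Pool.Agent.H189Z.MP.Basic

set_option autoImplicit false

/-!
# Task B-BAD2: number of biased kernels on the dyadic blocks
-/

namespace Pool.Agent.H189Z.MP

open Pool.Agent.H307R2.OP (J PB Pr2 BT4 ESStmt SVStmt BadCount kap)

open Finset

/-- task B-BAD2 -/
theorem badAtCount (hq : QRStmt) (h : BadCount) : BadAtCount := by
  classical
  intro w I i Δ m hw hI hi hm hΔ
  have hI' : (1:ℝ) ≤ I := by exact_mod_cast hI
  have hτ : (0:ℝ) < 1 / (I:ℝ) ^ 2 := by positivity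
  have hY : 2 ≤ 2 ^ i := by
    calc 2 = 2 ^ 1 := (pow_one 2).symm
      _ ≤ 2 ^ i := Nat.pow_le_pow_right (by norm_num) hi
  have h2Y : 2 * 2 ^ i = 2 ^ (i + 1) := by ring
  have hΔ' : Δ ^ 3 ≤ (2 * 2 ^ i) ^ m := by
    rw [h2Y, ← pow_mul]
    exact hΔ
  let Bc : ℕ → Finset ℕ := fun c => (Icc 1 Δ).filter
    (fun δ => Adm δ ∧ 1 / (I : ℝ) ^ 2 < |∑ p ∈ PB i c, K w p δ / p|)
  have hc : ∀ c ∈ ({1, 3, 5, 7} : Finset ℕ), ((Bc c).card : ℝ) ≤ 2 * (2 * m * (I:ℝ) ^ 4) ^ m := by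
    intro c hc0
    have h1 := h (2 ^ i) Δ m (1 / (I:ℝ) ^ 2) (PB i c) (Bc c) hY hm hΔ' hτ ?_ ?_
    · refine h1.trans (le_of_eq ?_)
      congr 2
      field_simp
    · intro p hp
      unfold PB at hp
      rw [Finset.mem_filter, Finset.mem_Ioc] at hp
      exact ⟨hp.2.1, hp.1.1, by rw [h2Y]; exact hp.1.2⟩
    · intro δ hδ
      simp only [Bc, Finset.mem_filter, Finset.mem_Icc] at hδ
      obtain ⟨⟨_, h3⟩, ⟨h4, h5⟩, h6⟩ := hδ
      refine ⟨h5, h4.1, h3, ?_⟩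
      have hc1 : c % 2 = 1 := by
        simp only [Finset.mem_insert, Finset.mem_singleton] at hc0
        omega
      obtain ⟨ε, hε, hK⟩ := hq.sgn w δ c hw h4.1 hc1
      have e1 : ∑ p ∈ PB i c, K w p δ / p = ε * ∑ p ∈ PB i c, J p δ / p := by
        rw [Finset.mul_sum]
        refine Finset.sum_congr rfl fun p hp => ?_
        rw [hK p (Finset.mem_filter.1 hp).2.2, mul_div_assoc]
      rw [e1, abs_mul] at h6
      rcases hε with rfl | rfl
      · simpa using h6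
      · simpa using h6
  have hsub : (Icc 1 Δ).filter (fun δ => Adm δ ∧ BadAt w I i δ) ⊆
      ({1, 3, 5, 7} : Finset ℕ).biUnion Bc := by
    intro δ hδ
    rw [Finset.mem_filter] at hδ
    obtain ⟨h1, h2, c, hc, h3⟩ := hδ
    rw [Finset.mem_biUnion]
    exact ⟨c, hc, by simp only [Bc, Finset.mem_filter]; exact ⟨h1, h2, h3⟩⟩
  have hcard : (((Icc 1 Δ).filter (fun δ => Adm δ ∧ BadAt w I i δ)).card : ℝ) ≤
      ∑ c ∈ ({1, 3, 5, 7} : Finset ℕ), ((Bc c).card : ℝ) := by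
    exact_mod_cast (Finset.card_le_card hsub).trans Finset.card_biUnion_le
  have hnn : (0:ℝ) ≤ (2 * m * (I:ℝ) ^ 4) ^ m := by positivity
  calc (((Icc 1 Δ).filter (fun δ => Adm δ ∧ BadAt w I i δ)).card : ℝ)
      ≤ ∑ c ∈ ({1, 3, 5, 7} : Finset ℕ), ((Bc c).card : ℝ) := hcard
    _ ≤ ∑ c ∈ ({1, 3, 5, 7} : Finset ℕ), 2 * (2 * m * (I:ℝ) ^ 4) ^ m :=
        Finset.sum_le_sum fun c hc0 => hc c hc0
    _ = 8 * (2 * m * (I:ℝ) ^ 4) ^ m := by
        rw [Finset.sum_const]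
        simp only [show (({1, 3, 5, 7} : Finset ℕ)).card = 4 from rfl, nsmul_eq_mul]
        push_cast
        ring
    _ ≤ 16 * (2 * m * (I:ℝ) ^ 4) ^ m := by linarith

end Pool.Agent.H189Z.MP
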