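import Pool.Agent.H189Z.MP.Defs
import Pool.Agent.H307R2.OP.BTOT

set_option autoImplicit false

/-!
# Odd values of the multipartition functions: the tuples that are lost (helper358)
-/

namespace Pool.Agent.H189Z.MP

open Finset Filter Topology
open Pool.Agent.H307R2.OP (PB kap)
open Pool.Agent.H307R2.OP.BT (ev_pow prod_odd large_num last_level)

namespace BT

theorem ev_exp (K c : ℝ) (hc : 0 < c) :
    ∃ y0 : ℕ, ∀ y : ℕ, y0 ≤ y → K * Real.exp (-(0.00001 * (y : ℝ))) ≤ c := by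
  have h1 : Tendsto (fun y : ℕ => Real.exp (-(0.00001 * (y : ℝ)))) atTop (𝓝 0) := by
    apply Real.tendsto_exp_neg_atTop_nhds_zero.comp
    exact (tendsto_natCast_atTop_atTop).const_mul_atTop (by norm_num)
  have h := h1.const_mul K
  rw [mul_zero] at h
  obtain ⟨y0, hy0⟩ := (h.eventually (gt_mem_nhds hc)).exists_forall_of_atTop
  exact ⟨y0, fun y hy => (hy0 y hy).le⟩

theorem two_pow_ge : ∀ k : ℕ, 15 ≤ k → 1920 * k ≤ 2 ^ k := by
  intro k hk
  induction k, hk using Nat.le_induction with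
  | base => norm_num
  | succ n hn ih =>
    rw [pow_succ]
    omega

/-! ### one kernel that is not strongly biased -/

theorem theta_cond {M : ℕ} (g : Cfg M) (j : Fin M) (δ : ℕ) (hR : g.R.card ≤ 3)
    (hκ : 15 ≤ g.κ j) (hS : 1 / (8 * (g.κ j : ℝ)) ≤ g.S j) (hst : ¬ StrongAt g.w (g.cl j) (g.κ j) δ) :
    ∑ q ∈ (g.Blk j).filter (fun q => K g.w q δ ≠ -1), (1 : ℝ) / q ≤ (1 - 1 / 80) * g.S j := by
  classical
  have hκ0 : (0 : ℝ) < g.κ j := by exact_mod_cast (by omega : 0 < g.κ j)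
  have hsub : g.Blk j ⊆ PB (g.κ j) (g.cl j) := Finset.sdiff_subset
  have hSPB : g.S j ≤ ∑ p ∈ PB (g.κ j) (g.cl j), (1 : ℝ) / p := by
    unfold Cfg.S
    exact Finset.sum_le_sum_of_subset_of_nonneg hsub (fun _ _ _ => by positivity)
  unfold StrongAt at hst
  push Not at hst
  -- the split primes lost with `R`
  have hlost : ∑ p ∈ (PB (g.κ j) (g.cl j)).filter (fun p => K g.w p δ = -1), (1 : ℝ) / p ≤
      ∑ p ∈ (g.Blk j).filter (fun p => K g.w p δ = -1), (1 : ℝ) / p + 3 / 2 ^ (g.κ j) := by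
    have h1 : (PB (g.κ j) (g.cl j)).filter (fun p => K g.w p δ = -1) ⊆
        (g.Blk j).filter (fun p => K g.w p δ = -1) ∪ (PB (g.κ j) (g.cl j) ∩ g.R) := by
      intro p hp
      rw [Finset.mem_filter] at hp
      rw [Finset.mem_union, Finset.mem_filter, Finset.mem_inter]
      by_cases hpR : p ∈ g.R
      · exact Or.inr ⟨hp.1, hpR⟩
      · exact Or.inl ⟨Finset.mem_sdiff.2 ⟨hp.1, hpR⟩, hp.2⟩
    have h2 : ∑ p ∈ PB (g.κ j) (g.cl j) ∩ g.R, (1 : ℝ) / p ≤ 3 / 2 ^ (g.κ j) := by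
      calc ∑ p ∈ PB (g.κ j) (g.cl j) ∩ g.R, (1 : ℝ) / p
          ≤ ∑ p ∈ PB (g.κ j) (g.cl j) ∩ g.R, (1 : ℝ) / 2 ^ (g.κ j) := by
            refine Finset.sum_le_sum fun p hp => ?_
            have h3 := (Finset.mem_inter.1 hp).1
            unfold PB at h3
            have h4 := (Finset.mem_Ioc.1 (Finset.mem_filter.1 h3).1).1
            have h5 : (2 : ℝ) ^ (g.κ j) ≤ p := by exact_mod_cast h4.le
            exact one_div_le_one_div_of_le (by positivity) h5
        _ = ((PB (g.κ j) (g.cl j) ∩ g.R).card : ℝ) * (1 / 2 ^ (g.κ j)) := by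
            rw [Finset.sum_const, nsmul_eq_mul]
        _ ≤ 3 * (1 / 2 ^ (g.κ j)) := by
            have : ((PB (g.κ j) (g.cl j) ∩ g.R).card : ℝ) ≤ 3 := by
              exact_mod_cast (Finset.card_le_card Finset.inter_subset_right).trans hR
            gcongr
        _ = 3 / 2 ^ (g.κ j) := by ring
    calc ∑ p ∈ (PB (g.κ j) (g.cl j)).filter (fun p => K g.w p δ = -1), (1 : ℝ) / p
        ≤ ∑ p ∈ (g.Blk j).filter (fun p => K g.w p δ = -1) ∪ (PB (g.κ j) (g.cl j) ∩ g.R), (1 : ℝ) / p :=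
          Finset.sum_le_sum_of_subset_of_nonneg h1 (fun _ _ _ => by positivity)
      _ ≤ ∑ p ∈ (g.Blk j).filter (fun p => K g.w p δ = -1), (1 : ℝ) / p +
            ∑ p ∈ PB (g.κ j) (g.cl j) ∩ g.R, (1 : ℝ) / p := by
          have := Finset.sum_union_inter (s₁ := (g.Blk j).filter (fun p => K g.w p δ = -1))
            (s₂ := PB (g.κ j) (g.cl j) ∩ g.R) (f := fun p : ℕ => (1 : ℝ) / p)
          have h0 : 0 ≤ ∑ p ∈ (g.Blk j).filter (fun p => K g.w p δ = -1) ∩ (PB (g.κ j) (g.cl j) ∩ g.R),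
              (1 : ℝ) / p := Finset.sum_nonneg (fun _ _ => by positivity)
          linarith
      _ ≤ _ := by linarith
  have hsplit : ∑ q ∈ (g.Blk j).filter (fun q => K g.w q δ = -1), (1 : ℝ) / q +
      ∑ q ∈ (g.Blk j).filter (fun q => K g.w q δ ≠ -1), (1 : ℝ) / q = g.S j := by
    unfold Cfg.S
    exact Finset.sum_filter_add_sum_filter_not _ _ _
  have hpow : (1920 : ℝ) * g.κ j ≤ 2 ^ (g.κ j) := by exact_mod_cast two_pow_ge _ hκ
  have h6 : (3 : ℝ) / 2 ^ (g.κ j) ≤ 1 / 80 * (1 / (8 * (g.κ j : ℝ))) := by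
    rw [div_mul_div_comm, div_le_div_iff₀ (by positivity) (by positivity)]
    nlinarith
  nlinarith

/-! ### parity and size of the number of a tuple -/

theorem rep_le {e w δ N : ℕ} (he : e = 1 ∨ e = 3) (hw : w % 2 = 0) (hδ : Adm δ)
    (hN : N % 2 = 1) (I : ℕ) (hNI : N ≤ 2 ^ I) (h : Rep e w δ N) : δ ∈ Icc 1 (3 * 2 ^ I) := by
  obtain ⟨s, u, hsu⟩ := h
  have h1 : 1 ≤ δ := by
    have := hδ.1.1
    omega
  rw [Finset.mem_Icc]
  refine ⟨h1, ?_⟩
  have hs : s ≠ 0 := by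
    rintro rfl
    have h5 : (w * u ^ 2) % 2 = 0 := by
      rw [Nat.mul_mod, hw, Nat.zero_mul, Nat.zero_mod]
    have : δ * 0 ^ 2 = 0 := by simp
    rw [this] at hsu
    rcases he with rfl | rfl <;> omega
  have hs2 : 1 ≤ s ^ 2 := Nat.one_le_pow _ _ (Nat.pos_of_ne_zero hs)
  calc δ ≤ δ * s ^ 2 := Nat.le_mul_of_pos_right _ hs2
    _ ≤ e * N := by rw [hsu]; exact Nat.le_add_right _ _
    _ ≤ 3 * 2 ^ I := by rcases he with rfl | rfl <;> omega

/-! ### numerical estimates -/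

theorem small_num (n x y : ℝ) (k : ℕ) (hxy : y ≤ x) (hy : 0 ≤ y)
    (hn : n ≤ (2 : ℝ) ^ (0.00001 * x)) (hk : x / 512 ≤ k) :
    n * (1 - 1 / 80) ^ k ≤ Real.exp (-(0.00001 * y)) := by
  have h1 : (1 - 1 / 80 : ℝ) ≤ Real.exp (-(1 / 80)) := by
    have := Real.one_sub_le_exp_neg (1 / 80 : ℝ)
    linarith
  have h2 : (1 - 1 / 80 : ℝ) ^ k ≤ Real.exp (-(x / 40960)) := by
    calc (1 - 1 / 80 : ℝ) ^ k ≤ Real.exp (-(1 / 80)) ^ k :=
          pow_le_pow_left₀ (by norm_num) h1 k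
      _ = Real.exp (k * (-(1 / 80))) := by rw [← Real.exp_nat_mul]
      _ ≤ Real.exp (-(x / 40960)) := by
          apply Real.exp_le_exp.2
          linarith
  have h3 : (2 : ℝ) ^ (0.00001 * x) ≤ Real.exp (0.00001 * x) := by
    rw [Real.rpow_def_of_pos (by norm_num)]
    apply Real.exp_le_exp.2
    have := Real.log_two_lt_d9
    have hx : 0 ≤ 0.00001 * x := by linarith
    nlinarith
  have h4 : 0 ≤ (1 - 1 / 80 : ℝ) ^ k := by positivity
  calc n * (1 - 1 / 80) ^ k ≤ Real.exp (0.00001 * x) * (1 - 1 / 80) ^ k := by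
        apply mul_le_mul_of_nonneg_right (hn.trans h3) h4
    _ ≤ Real.exp (0.00001 * x) * Real.exp (-(x / 40960)) := by
        apply mul_le_mul_of_nonneg_left h2 (Real.exp_pos _).le
    _ = Real.exp (0.00001 * x + -(x / 40960)) := by rw [← Real.exp_add]
    _ ≤ Real.exp (-(0.00001 * y)) := by
        apply Real.exp_le_exp.2
        linarith

/-- the tuples that come from the first values of `n` -/
theorem zero_num (M I r Rp v : ℕ) (c0 W L : ℝ) (hc0 : 0 < c0) (hI : 1 ≤ I) (hRp1 : 1 ≤ Rp)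
    (hRp : Rp ≤ 2 ^ (I / 16)) (hW : 1 / (2 : ℝ) ^ (I / 100) ≤ W)
    (hb : 32 * (2 : ℝ) ^ M * (I : ℝ) ^ 1 ≤ c0 / ((v : ℝ) + 1) ^ 2 * ((2 : ℝ) ^ (0.3 : ℝ)) ^ I)
    (hL : L ≤ (v + 1) * (2 ^ (I / 8) * (Real.sqrt (3 * 2 ^ I) / 2 ^ r + v + 1))) :
    L ≤ 2 ^ I / (Rp * I) * W * (c0 / (8 * 2 ^ M)) := by
  have hv : (0 : ℝ) < (v : ℝ) + 1 := by positivity
  have hv0 : (0 : ℝ) ≤ v := Nat.cast_nonneg v
  have h := Pool.Agent.H307R2.OP.BT.zero_num M I r Rp (c0 / ((v : ℝ) + 1) ^ 2) W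
    (L / ((v : ℝ) + 1) ^ 2) (by positivity) hI hRp1 hRp hW hb (by
      rw [div_le_iff₀ (by positivity)]
      refine hL.trans ?_
      set U := Real.sqrt (3 * 2 ^ I) / 2 ^ r with hU
      have hU0 : 0 ≤ U := by positivity
      have h1 : U + v + 1 ≤ (U + 2) * ((v : ℝ) + 1) := by nlinarith
      calc ((v : ℝ) + 1) * (2 ^ (I / 8) * (U + v + 1))
          ≤ ((v : ℝ) + 1) * (2 ^ (I / 8) * ((U + 2) * ((v : ℝ) + 1))) := by gcongr
        _ = 2 ^ (I / 8) * (U + 2) * ((v : ℝ) + 1) ^ 2 := by ring)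
  rw [div_le_iff₀ (by positivity)] at h
  refine h.trans (le_of_eq ?_)
  field_simp

end BT

open BT

open Classical in
/-- task BTOT -/
theorem badTotal (h1 : QRStmt) (h2 : TupStmt) (h3 : TupLow) (h4 : TupLarge) (h5 : TupSmall)
    (h6 : TupZero) (h7 : BadSum) (h8 : BadNum) (h9 : StrongBad) (h10 : ParStmt) :
    BadTotal := by
  intro M v hM
  obtain ⟨c1, hc1, I0, hlow⟩ := h3
  obtain ⟨c0, hc0, hc01⟩ : ∃ c0 : ℝ, 0 < c0 ∧ c1 = 2 * c0 := ⟨c1 / 2, by positivity, by ring⟩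
  obtain ⟨C5, hC5, hsmall⟩ := h5
  obtain ⟨C9, hC9⟩ := h9
  obtain ⟨y7, hy7⟩ := h7 M hM
  obtain ⟨y8, hy8⟩ := h8 M hM 0.00001 (by norm_num)
  obtain ⟨y10, hy10⟩ := h10 M hM
  obtain ⟨ya, hya⟩ := ev_pow (2 * M + 4) 2 (by norm_num) (48 * 2 ^ M) c0 hc0
  obtain ⟨yb, hyb⟩ := ev_pow 1 ((2 : ℝ) ^ (0.3 : ℝ))
    (Real.one_lt_rpow (by norm_num) (by norm_num)) (32 * 2 ^ M)
    (c0 / ((v : ℝ) + 1) ^ 2) (by positivity)
  obtain ⟨yc, hyc⟩ := ev_pow (2 * M + 4) 2 (by norm_num) 2 1 one_pos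
  obtain ⟨yd, hyd⟩ := ev_exp (8 * M * C5 * 2 ^ M) c0 hc0
  refine ⟨I0 + C9 + y7 + y8 + y10 + ya + yb + yc + yd + 15, 
    fun y hy I hI1 hI2 r w e cm km kn R hNum hRC => ?_⟩
  obtain ⟨hOk, hcard, -, hk, hS, hκ, hk2, -, hW⟩ :=
    hy10 y (by omega) I hI1 hI2 r w e cm km kn R hNum hRC.card hRC.pr hRC.le
  have hPw : Pw w := by
    rcases hNum.hw with h | h
    · exact ⟨2 * r, by rw [h, pow_mul]; norm_num⟩
    · exact ⟨2 * r + 1, by rw [h, pow_succ, pow_mul]; norm_num [mul_comm]⟩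
  have h7' := hy7 y (by omega) I hI1 hI2 w hPw
  obtain ⟨h8a, h8b⟩ := hy8 y (by omega) I hI1 hI2 w hPw
  set g := cfg M y I r w e cm km kn R with hg
  have hgI : g.I = I := rfl
  have hgr : g.r = r := rfl
  have hgw : g.w = w := rfl
  have hge : g.e = e := rfl
  have hgcl : ∀ j : Fin M, g.cl (Fin.castSucc j) = cm := fun j => if_pos j.2
  have hw2 : w % 2 = 0 := by
    have h3 : 3 ≤ r := hOk.hr
    have h4 : 4 ^ r % 2 = 0 := by
      obtain ⟨k, hk⟩ := Nat.exists_eq_add_of_le (show 1 ≤ r by omega)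
      rw [hk, pow_add, pow_one]
      omega
    rcases hNum.hw with h | h <;> omega
  have hgR : g.R = R := rfl
  have hgκ : ∀ j, g.κ j = kap M y j := fun _ => rfl
  have hgRp : g.Rp = ∏ q ∈ R, q := rfl
  set Y := y ^ (2 * M - 1) with hY
  have hy1 : 1 ≤ y := by omega
  have hyY : y ≤ Y := by
    calc y = y ^ 1 := (pow_one y).symm
      _ ≤ y ^ (2 * M - 1) := Nat.pow_le_pow_right hy1 (by omega)
  have hyI : y ≤ I := by
    calc y = y ^ 1 := (pow_one y).symm
      _ ≤ y ^ (2 * M + 4) := Nat.pow_le_pow_right hy1 (by omega)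
      _ ≤ I := hI1
  have hI : 1 ≤ I := by omega
  have hIr : (1 : ℝ) ≤ I := by exact_mod_cast hI
  have hRp1 : 1 ≤ g.Rp := by
    rw [hgRp]
    exact Finset.prod_pos fun q hq => (hRC.pr q hq).1.pos
  have hRpr : (1 : ℝ) ≤ g.Rp := by exact_mod_cast hRp1
  have hW0 : 0 < g.W := lt_of_lt_of_le (by positivity) hW
  set A : ℝ := 2 ^ I / (g.Rp * I) * g.W with hA
  have hA0 : 0 < A := by positivity
  -- all tuples
  have hT : c0 * A / 2 ^ M ≤ (g.Tup.card : ℝ) := by
    refine le_trans (le_of_eq ?_) (hlow (M + 1) g hOk (by rw [hgI]; omega) hk2)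
    rw [hA, hgI, hc01]
    ring
  -- numbers of the tuples
  have hNodd : ∀ t ∈ g.Tup, g.N t % 2 = 1 ∧ g.N t ≤ 2 ^ I := by
    intro t ht
    obtain ⟨s, hs1, hs2, -, -, -, -, -, hs8⟩ := h2 (M + 1) g hOk t ht
    rw [← hs2]
    refine ⟨prod_odd s fun q hq => ⟨(hs1 q hq).1, (hs1 q hq).2.1⟩, ?_⟩
    rw [hs2]
    exact hs8
  -- the three parts
  set La := g.Tup.filter (fun t => ∃ a u : ℕ, a ≤ v ∧ g.e * g.N t + a = g.w * u ^ 2) with hLa
  set D := (Icc 1 (3 * 2 ^ I)).filter (fun δ => Adm δ ∧ Bad w I y δ) with hD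
  let P : ℕ → Finset (Σ _ : Fin (M + 1) → Finset ℕ, ℕ) :=
    fun δ => g.Tup.filter (fun t => Rep g.e g.w δ (g.N t))
  have hsub : g.Tup.filter (fun t => (∃ δ : ℕ, Adm δ ∧ Bad w I y δ ∧ Rep e w δ (g.N t)) ∨
      ∃ a u : ℕ, a ≤ v ∧ e * g.N t + a = w * u ^ 2) ⊆ La ∪ D.biUnion P := by
    intro t ht
    rw [Finset.mem_filter] at ht
    rw [Finset.mem_union]
    rcases ht.2 with ⟨δ, hδ1, hδ2, hδ3⟩ | hu
    · right
      rw [Finset.mem_biUnion]
      obtain ⟨hN1, hN2⟩ := hNodd t ht.1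
      refine ⟨δ, ?_, Finset.mem_filter.2 ⟨ht.1, hδ3⟩⟩
      rw [hD, Finset.mem_filter]
      exact ⟨rep_le hNum.he hw2 hδ1 hN1 I hN2 hδ3, hδ1, hδ2⟩
    · left
      exact Finset.mem_filter.2 ⟨ht.1, hu⟩
  -- (a)
  have hLa1 : (La.card : ℝ) ≤ A * (c0 / (8 * 2 ^ M)) := by
    have h := h6 (M + 1) g hOk v
    rw [hA]
    refine zero_num M I g.r g.Rp v c0 g.W _ hc0 hI hRp1 (by rw [hgRp]; exact hRC.le) hW
      (hyb I (by omega)) ?_
    exact h
  -- (b1)
  have hb1 : ∑ δ ∈ D.filter (fun δ => 2 ^ (8 * Y) < δ), ((P δ).card : ℝ) ≤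
      A * (c0 / (8 * 2 ^ M)) := by
    set H := ∑ j, g.k j + g.R.card + 1 with hH
    have hH1 : H ≤ Y := by
      have e1 : H = km + kn := hcard
      have e2 := hNum.h1
      omega
    have h := large_num M I g.r g.Rp H Y y c0 g.W
      (∑ δ ∈ D.filter (fun δ => 2 ^ (8 * Y) < δ), 1 / Real.sqrt δ) hc0 hI hI2 hRp1 hW0.le hH1 hyY
      (hya y (by omega)) (by
        refine le_trans (le_of_eq ?_) h7'
        apply Finset.sum_congr _ (fun _ _ => rfl)
        rw [hD, Finset.filter_filter]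
        ext δ
        simp only [Finset.mem_filter]
        tauto)
    refine le_trans ?_ h
    rw [Finset.mul_sum]
    refine Finset.sum_le_sum fun δ hδ => ?_
    have hδ2 := (Finset.mem_filter.1 (Finset.mem_filter.1 hδ).1)
    have h9 := h4 (M + 1) g hOk δ hδ2.2.1
    have hδ0 : (0 : ℝ) < δ := by
      have := (Finset.mem_Icc.1 hδ2.1).1
      exact_mod_cast this
    refine h9.trans (le_of_eq ?_)
    rw [Real.sqrt_div (by positivity)]
    unfold Cfg.U
    rw [hgI]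
    ring
  -- (b2), (b3)
  have hb3 : ∑ δ ∈ D.filter (fun δ => ¬ 2 ^ (8 * Y) < δ), ((P δ).card : ℝ) ≤
      A * (c0 / (8 * 2 ^ M)) := by
    set D' := D.filter (fun δ => ¬ 2 ^ (8 * Y) < δ) with hD'
    let Dj : Fin M → Finset ℕ := fun j => D'.filter (fun δ => ¬ StrongAt w cm (kap M y j) δ ∧
      ((j : ℕ) + 1 < M → StrongAt w cm (kap M y ((j : ℕ) + 1)) δ))
    have hmemD : ∀ δ ∈ D', 1 ≤ δ ∧ δ ≤ 2 ^ (8 * Y) ∧ Adm δ ∧ Bad w I y δ := by
      intro δ hδ
      obtain ⟨ha, hb⟩ := Finset.mem_filter.1 hδ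
      obtain ⟨hc, hd⟩ := Finset.mem_filter.1 ha
      exact ⟨(Finset.mem_Icc.1 hc).1, not_lt.1 hb, hd.1, hd.2⟩
    have hpt : ∀ δ ∈ D', ((P δ).card : ℝ) ≤
        ∑ j : Fin M, if δ ∈ Dj j then ((P δ).card : ℝ) else 0 := by
      intro δ hδ
      obtain ⟨hδ1, hδ2, hδ3, hδ4⟩ := hmemD δ hδ
      by_cases hst : StrongAt w cm (kap M y 0) δ
      · -- killed
        obtain ⟨q, hqR, hqJ⟩ := hRC.kills δ hδ3 hδ2 hst
        have hempty : P δ = ∅ := by
          apply Finset.filter_eq_empty_iff.2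
          intro t ht
          obtain ⟨s, -, -, -, -, hs5, -, hs7, -⟩ := h2 (M + 1) g hOk t ht
          have hqs : q ∈ s := hs5 hqR
          exact h1.kill e w δ (g.N t) q hNum.he hPw (hRC.pr q hqR).1 (hRC.pr q hqR).2.1 hqJ
            (hs7 q hqs).1 (hs7 q hqs).2
        rw [hempty]
        simp
      · obtain ⟨j, hj1, hj2⟩ := last_level hM (fun i => StrongAt w cm (kap M y i) δ) hst
        have hmem : δ ∈ Dj j := Finset.mem_filter.2 ⟨hδ, hj1, hj2⟩
        calc ((P δ).card : ℝ) = (if δ ∈ Dj j then ((P δ).card : ℝ) else 0) := by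
              rw [if_pos hmem]
          _ ≤ ∑ j : Fin M, if δ ∈ Dj j then ((P δ).card : ℝ) else 0 :=
              Finset.single_le_sum
                (f := fun j : Fin M => if δ ∈ Dj j then ((P δ).card : ℝ) else 0)
                (fun i _ => by positivity) (Finset.mem_univ j)
    have hjb : ∀ j : Fin M, ∑ δ ∈ D', (if δ ∈ Dj j then ((P δ).card : ℝ) else 0) ≤
        C5 * A * Real.exp (-(0.00001 * (y : ℝ))) := by
      intro j
      have hsum : ∑ δ ∈ D', (if δ ∈ Dj j then ((P δ).card : ℝ) else 0) =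
          ∑ δ ∈ Dj j, ((P δ).card : ℝ) := by
        rw [← Finset.sum_filter]
        apply Finset.sum_congr _ (fun _ _ => rfl)
        ext δ
        simp only [Finset.mem_filter, Dj]
        tauto
      rw [hsum]
      have hPδ : ∀ δ ∈ Dj j, ((P δ).card : ℝ) ≤ C5 * A * (1 - 1 / 80) ^ (g.k (Fin.castSucc j)) := by
        intro δ hδ
        obtain ⟨ha, hb⟩ := Finset.mem_filter.1 hδ
        obtain ⟨hδ1, hδ2, hδ3, hδ4⟩ := hmemD δ ha
        have h15 : 15 ≤ g.κ (Fin.castSucc j) := by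
          have := (hκ (Fin.castSucc j)).1
          rw [hgκ]
          omega
        have hth := theta_cond g (Fin.castSucc j) δ (by rw [hgR]; exact hRC.card) h15
          (by rw [hgκ]; exact hS (Fin.castSucc j)) (by rw [hgκ, hgcl j]; exact hb.1)
        refine (hsmall (M + 1) g hOk δ hδ3 (Fin.castSucc j) (1 / 80) (by norm_num) (by norm_num)
          hth).trans (le_of_eq ?_)
        rw [hA, hgI]
        ring
      have hnum : ((Dj j).card : ℝ) ≤ (2 : ℝ) ^ (0.00001 * (y : ℝ) ^ (2 * (j : ℕ) + 1)) := by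
        by_cases hjM : (j : ℕ) + 1 < M
        · refine le_trans ?_ (h8b j hjM)
          have : Dj j ⊆ (Icc 1 (2 ^ (8 * Y))).filter
              (fun δ => Adm δ ∧ BadAt w I (kap M y ((j : ℕ) + 1)) δ) := by
            intro δ hδ
            obtain ⟨ha, hb⟩ := Finset.mem_filter.1 hδ
            obtain ⟨hδ1, hδ2, hδ3, hδ4⟩ := hmemD δ ha
            rw [Finset.mem_filter]
            refine ⟨Finset.mem_Icc.2 ⟨hδ1, hδ2⟩, hδ3, ?_⟩
            have hκ1 := hκ ⟨(j : ℕ) + 1, by omega⟩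
            simp only at hκ1
            -- the exponent is at least `y ^ 4`
            have hy4 : y ^ 2 ≤ kap M y ((j : ℕ) + 1) := by
              unfold kap
              exact Nat.pow_le_pow_right hy1 (by omega)
            have hy5 : y ≤ kap M y ((j : ℕ) + 1) / 4 := by
              rw [Nat.le_div_iff_mul_le (by norm_num)]
              refine le_trans ?_ hy4
              rw [sq]
              exact Nat.mul_le_mul_left _ (by omega)
            apply hC9 w cm I (kap M y ((j : ℕ) + 1)) δ hPw hNum.hcm (by omega) hκ1.2 _ hδ1 _ (hb.2 hjM)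
            · have hc3 := hyc y (by omega)
              rw [one_mul] at hc3
              have hc2 : 2 * y ^ (2 * M + 4) ≤ 2 ^ y := by exact_mod_cast hc3
              calc I ≤ 2 * y ^ (2 * M + 4) := hI2
                _ ≤ 2 ^ y := hc2
                _ ≤ 2 ^ (kap M y ((j : ℕ) + 1) / 4) := Nat.pow_le_pow_right (by norm_num) hy5
            · refine hδ2.trans (Nat.pow_le_pow_right (by norm_num) ?_)
              refine le_trans ?_ hI1
              rw [hY]
              have e1 : y ^ (2 * M + 4) = y ^ 5 * y ^ (2 * M - 1) := by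
                rw [← pow_add]
                congr 1
                omega
              rw [e1]
              apply Nat.mul_le_mul_right
              calc 8 ≤ y := by omega
                _ = y ^ 1 := (pow_one y).symm
                _ ≤ y ^ 5 := Nat.pow_le_pow_right hy1 (by norm_num)
          exact Nat.cast_le.2 (Finset.card_le_card this)
        · have hj : (j : ℕ) + 1 = M := by
            have := j.2
            omega
          have e1 : 2 * (j : ℕ) + 1 = 2 * M - 1 := by omega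
          rw [e1]
          refine le_trans ?_ h8a
          have : Dj j ⊆ (Icc 1 (2 ^ (8 * Y))).filter (fun δ => Adm δ ∧ Bad w I y δ) := by
            intro δ hδ
            obtain ⟨ha, hb⟩ := Finset.mem_filter.1 hδ
            obtain ⟨hδ1, hδ2, hδ3, hδ4⟩ := hmemD δ ha
            rw [Finset.mem_filter]
            exact ⟨Finset.mem_Icc.2 ⟨hδ1, hδ2⟩, hδ3, hδ4⟩
          exact Nat.cast_le.2 (Finset.card_le_card this)
      have hyx : (y : ℝ) ≤ (y : ℝ) ^ (2 * (j : ℕ) + 1) := by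
        have h : y ^ 1 ≤ y ^ (2 * (j : ℕ) + 1) := Nat.pow_le_pow_right hy1 (by omega)
        rw [pow_one] at h
        exact_mod_cast h
      have hfin := small_num ((Dj j).card : ℝ) ((y : ℝ) ^ (2 * (j : ℕ) + 1)) y (g.k (Fin.castSucc j)) hyx
        (Nat.cast_nonneg _) hnum (hk (Fin.castSucc j) j.2)
      calc ∑ δ ∈ Dj j, ((P δ).card : ℝ)
          ≤ ∑ δ ∈ Dj j, C5 * A * (1 - 1 / 80) ^ (g.k (Fin.castSucc j)) := Finset.sum_le_sum hPδ
        _ = C5 * A * (((Dj j).card : ℝ) * (1 - 1 / 80) ^ (g.k (Fin.castSucc j))) := by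
            rw [Finset.sum_const, nsmul_eq_mul]
            ring
        _ ≤ C5 * A * Real.exp (-(0.00001 * (y : ℝ))) := by gcongr
    calc ∑ δ ∈ D', ((P δ).card : ℝ)
        ≤ ∑ δ ∈ D', ∑ j : Fin M, (if δ ∈ Dj j then ((P δ).card : ℝ) else 0) :=
          Finset.sum_le_sum hpt
      _ = ∑ j : Fin M, ∑ δ ∈ D', (if δ ∈ Dj j then ((P δ).card : ℝ) else 0) :=
          Finset.sum_comm
      _ ≤ ∑ j : Fin M, C5 * A * Real.exp (-(0.00001 * (y : ℝ))) :=
          Finset.sum_le_sum fun j _ => hjb j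
      _ = M * (C5 * A * Real.exp (-(0.00001 * (y : ℝ)))) := by
          rw [Finset.sum_const, Finset.card_univ, Fintype.card_fin, nsmul_eq_mul]
      _ ≤ A * (c0 / (8 * 2 ^ M)) := by
          have hd := hyd y (by omega)
          rw [mul_div_assoc', le_div_iff₀ (by positivity)]
          calc (M : ℝ) * (C5 * A * Real.exp (-(0.00001 * (y : ℝ)))) * (8 * 2 ^ M)
              = A * (8 * M * C5 * 2 ^ M * Real.exp (-(0.00001 * (y : ℝ)))) := by ring
            _ ≤ A * c0 := by gcongr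
  -- conclusion
  have hcardle : ((g.Tup.filter (fun t => (∃ δ : ℕ, Adm δ ∧ Bad w I y δ ∧
      Rep e w δ (g.N t)) ∨ ∃ a u : ℕ, a ≤ v ∧ e * g.N t + a = w * u ^ 2)).card : ℝ) ≤
      (La.card : ℝ) + ∑ δ ∈ D, ((P δ).card : ℝ) := by
    have e1 := (Finset.card_le_card hsub).trans (Finset.card_union_le _ _)
    have e2 : (D.biUnion P).card ≤ ∑ δ ∈ D, (P δ).card := Finset.card_biUnion_le
    have e3 := e1.trans (Nat.add_le_add_left e2 _)
    exact_mod_cast e3
  have hsplit := Finset.sum_filter_add_sum_filter_not D (fun δ => 2 ^ (8 * Y) < δ)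
    (fun δ => ((P δ).card : ℝ))
  have hfin : A * (c0 / (8 * 2 ^ M)) = c0 * A / 2 ^ M / 8 := by
    field_simp
  have hA2 : 0 ≤ c0 * A / 2 ^ M := by positivity
  refine hcardle.trans ?_
  rw [hfin] at hLa1 hb1 hb3
  linarith

end Pool.Agent.H189Z.MP
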