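import Pool.Agent.H189Z.MP.Defs

set_option autoImplicit false

namespace Pool.Agent.H189Z.MP

theorem Cfg.Ok.pw {M : ℕ} {g : Cfg M} (hg : g.Ok) : Pw g.w := by
  rcases hg.hw with h | h
  · exact ⟨2 * g.r, by rw [h, pow_mul]; norm_num⟩
  · exact ⟨2 * g.r + 1, by rw [h, pow_succ, pow_mul]; norm_num; ring⟩

theorem Cfg.Ok.le_w {M : ℕ} {g : Cfg M} (hg : g.Ok) : 4 ^ g.r ≤ g.w := by
  rcases hg.hw with h | h <;> omega

theorem Cfg.Ok.e_le {M : ℕ} {g : Cfg M} (hg : g.Ok) : 1 ≤ g.e ∧ g.e ≤ 3 ∧ g.e % 2 = 1 := by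
  rcases hg.he with h | h <;> omega

theorem Cfg.Ok.w_even {M : ℕ} {g : Cfg M} (hg : g.Ok) : 2 ∣ g.w := by
  have h1 : 2 ∣ 4 ^ g.r := dvd_pow (by norm_num) (by have := hg.hr; omega)
  rcases hg.hw with h | h
  · rw [h]; exact h1
  · rw [h]; exact Dvd.intro _ rfl

theorem Pw.not_dvd {w q : ℕ} (hw : Pw w) (hq : q.Prime) (h5 : 3 ≤ q) : ¬ q ∣ w := by
  obtain ⟨ρ, rfl⟩ := hw
  intro h
  have h1 : q ∣ 2 := hq.dvd_of_dvd_pow h
  have := Nat.le_of_dvd (by norm_num) h1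
  omega

end Pool.Agent.H189Z.MP
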