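import Pool.Agent.H307R2.OP.DefsC

set_option autoImplicit false

/-!
# Odd values of the multipartition functions (MP_a3366f_nt): definitions for the analytic part

Generalisation of `Pool.Agent.H307R2.OP.DefsB/DefsC`: the equation `3 N = δ s² + 4^r u²` becomes
`e N = δ s² + w u²` with `e ∈ {1, 3}`, `w ∈ {4^r, 2 * 4^r}`; every block has its own class modulo 8.
-/

namespace Pool.Agent.H189Z.MP

open Finset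
open Pool.Agent.H307R2.OP (J PB Pr2 BT4 ESStmt SVStmt BadCount kap)

/-- the symbol `(-w δ | q)` as a real number -/
noncomputable def K (w q δ : ℕ) : ℝ := ((jacobiSym (-((w * δ : ℕ) : ℤ)) q : ℤ) : ℝ)

/-- powers of two -/
def Pw (w : ℕ) : Prop := ∃ ρ : ℕ, w = 2 ^ ρ

/-- admissible kernels -/
def Adm (δ : ℕ) : Prop := (δ % 2 = 1 ∧ δ ≠ 1) ∧ Squarefree δ

/-- the character of `δ` is biased on one of the classes of primes in `(2^i, 2^(i+1)]` -/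
def BadAt (w I i δ : ℕ) : Prop :=
  ∃ c ∈ ({1, 3, 5, 7} : Finset ℕ), 1 / (I : ℝ) ^ 2 < |∑ p ∈ PB i c, K w p δ / p|

/-- bad kernels -/
def Bad (w I i0 δ : ℕ) : Prop := ∃ i : ℕ, i0 ≤ i ∧ i ≤ I ∧ BadAt w I i δ

/-- almost all primes `≡ c (mod 8)` of the block are split -/
def StrongAt (w c i δ : ℕ) : Prop :=
  ∑ p ∈ (PB i c).filter (fun p => K w p δ = -1), (1 : ℝ) / p < 1 / 40 * ∑ p ∈ PB i c, (1 : ℝ) / p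

/-- `e N = δ s² + w u²` -/
def Rep (e w δ N : ℕ) : Prop := ∃ s u : ℕ, e * N = δ * s ^ 2 + w * u ^ 2

/-- the roots modulo `p` -/
def Om (w δ s p : ℕ) : Finset ℕ := (range p).filter (fun u => p ∣ δ * s ^ 2 + w * u ^ 2)

/-- a configuration -/
structure Cfg (M : ℕ) where
  I : ℕ
  r : ℕ
  w : ℕ
  e : ℕ
  κ : Fin M → ℕ
  k : Fin M → ℕ
  cl : Fin M → ℕ
  R : Finset ℕ
  c : ℕ

namespace Cfg

variable {M : ℕ} (g : Cfg M)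

/-- the primes of a block, without the killing primes -/
def Blk (j : Fin M) : Finset ℕ := PB (g.κ j) (g.cl j) \ g.R

/-- the mass of a block -/
noncomputable def S (j : Fin M) : ℝ := ∑ q ∈ g.Blk j, (1 : ℝ) / q

/-- the mass of the family -/
noncomputable def W : ℝ := ∏ j, (g.S j ^ g.k j / ((g.k j).factorial : ℝ))

/-- the family of the choices of small primes -/
def Fam : Finset (Fin M → Finset ℕ) :=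
  Fintype.piFinset (fun j => powersetCard (g.k j) (g.Blk j))

/-- the product of the killing primes -/
def Rp : ℕ := ∏ q ∈ g.R, q

/-- the product of the chosen small primes -/
def Q (_ : Cfg M) (A : Fin M → Finset ℕ) : ℕ := ∏ j, ∏ q ∈ A j, q

/-- the large primes -/
def Pr (A : Fin M → Finset ℕ) : Finset ℕ :=
  (Ioc (2 ^ (g.I / 2)) (2 ^ g.I / (g.Rp * g.Q A))).filter (fun p => p.Prime ∧ p % 8 = g.c)

/-- the tuples `(A, p)` -/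
def Tup : Finset (Σ _ : Fin M → Finset ℕ, ℕ) := g.Fam.sigma g.Pr

/-- the number of a tuple -/
def N (t : Σ _ : Fin M → Finset ℕ, ℕ) : ℕ := g.Rp * g.Q t.1 * t.2

/-- the bound for `u` -/
noncomputable def U : ℝ := Real.sqrt (3 * 2 ^ g.I) / 2 ^ g.r

/-- admissible configurations -/
structure Ok : Prop where
  inj : Function.Injective g.κ
  hr : 3 ≤ g.r
  hrI : 100 * g.r ≤ g.I
  hI : 800 ≤ g.I
  hR : ∀ q ∈ g.R, q.Prime ∧ 5 ≤ q ∧ (q % 8 = 3 ∨ q % 8 = 5)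
  hκ : ∀ j, 3 ≤ g.κ j
  hRQ : ∀ A ∈ g.Fam, g.Rp * g.Q A ≤ 2 ^ (g.I / 8)
  hc : g.c = 3 ∨ g.c = 5
  hcl : ∀ j, g.cl j = 3 ∨ g.cl j = 5
  hw : g.w = 4 ^ g.r ∨ g.w = 2 * 4 ^ g.r
  he : g.e = 1 ∨ g.e = 3

end Cfg

/-- the number of primes of the blocks: `km` primes of the main class in all (`t` of them killing
primes, one the large prime), `kn` primes of the other class in the last block -/
def kk (M y km kn t j : ℕ) : ℕ :=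
  if j + 1 < M then y ^ (2 * j + 1)
  else if j < M then km - 1 - t - ∑ i ∈ range (M - 1), y ^ (2 * i + 1) else kn

/-- the configuration of the main argument -/
def cfg (M y I r w e cm km kn : ℕ) (R : Finset ℕ) : Cfg (M + 1) where
  I := I
  r := r
  w := w
  e := e
  κ := fun j => kap M y j
  k := fun j => kk M y km kn R.card j
  cl := fun j => if (j : ℕ) < M then cm else 8 - cm
  R := R
  c := cm

/-- the numerical data that come from the algebraic part -/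
structure Num (M y r w e cm km kn : ℕ) : Prop where
  hw : w = 4 ^ r ∨ w = 2 * 4 ^ r
  he : e = 1 ∨ e = 3
  hcm : cm = 3 ∨ cm = 5
  h1 : km + kn ≤ y ^ (2 * M - 1)
  h2 : y ^ (2 * M - 1) ≤ 256 * km
  h3 : 2 ^ r ≤ y ^ (2 * M - 1)
  h4 : y ^ (2 * M - 1) ≤ 8 * 2 ^ r

/-- task QR -/
structure QRStmt : Prop where
  val : ∀ w q δ : ℕ, K w q δ = -1 ∨ K w q δ = 0 ∨ K w q δ = 1
  kill : ∀ e w δ N q : ℕ, (e = 1 ∨ e = 3) → Pw w → q.Prime → 5 ≤ q → K w q δ = -1 → q ∣ N →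
    ¬ q ^ 2 ∣ N → ¬ Rep e w δ N
  om_card : ∀ w δ s q : ℕ, Pw w → q.Prime → 5 ≤ q → ¬ q ∣ s →
    ((Om w δ s q).card : ℝ) = 1 + K w q δ
  om_zero : ∀ w δ s q : ℕ, Pw w → q.Prime → 5 ≤ q → q ∣ s → Om w δ s q = {0}
  sgn : ∀ w δ c : ℕ, Pw w → δ % 2 = 1 → c % 2 = 1 → ∃ ε : ℝ, (ε = 1 ∨ ε = -1) ∧
    ∀ q : ℕ, q % 8 = c → K w q δ = ε * J q δ

open Classical in
/-- task BAD, the form that is used -/
def BadAtCount : Prop := ∀ w I i Δ m : ℕ, Pw w → 1 ≤ I → 1 ≤ i → 1 ≤ m → Δ ^ 3 ≤ 2 ^ ((i + 1) * m) →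
  (((Icc 1 Δ).filter (fun δ => Adm δ ∧ BadAt w I i δ)).card : ℝ) ≤ 16 * (2 * m * (I : ℝ) ^ 4) ^ m

/-- task PC -/
structure PCStmt : Prop where
  low : ∃ x0 : ℕ, ∀ x : ℕ, x0 ≤ x → ∀ c : ℕ, c = 3 ∨ c = 5 →
    (x : ℝ) / (5 * Real.log x) ≤ (((Icc 1 x).filter (fun p => p.Prime ∧ p % 8 = c)).card : ℝ)
  block : ∃ i0 : ℕ, ∀ i : ℕ, i0 ≤ i → ∀ c : ℕ, c = 3 ∨ c = 5 →
    0.99 * (2 : ℝ) ^ i / (4 * i * Real.log 2) ≤ ((PB i c).card : ℝ)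
  mass : ∃ i0 : ℕ, ∀ i : ℕ, i0 ≤ i → ∀ c : ℕ, c = 3 ∨ c = 5 →
    1 / (6 * (i : ℝ)) ≤ ∑ p ∈ PB i c, (1 : ℝ) / p
  up : ∃ C : ℝ, 0 < C ∧ ∀ x : ℕ, 2 ≤ x →
    (((Icc 1 x).filter Nat.Prime).card : ℝ) ≤ C * x / Real.log x

/-- task STR: three independent kernels are not all strongly biased -/
def StrongStmt : Prop := ∃ C : ℕ, ∀ w c i Δ δ1 δ2 δ3 : ℕ, Pw w → (c = 3 ∨ c = 5) → C ≤ i →
  Δ ^ C ≤ 2 ^ i →
  Adm δ1 → Adm δ2 → Adm δ3 → δ1 ≤ Δ → δ2 ≤ Δ → δ3 ≤ Δ → δ1 ≠ δ2 → δ1 ≠ δ3 → δ2 ≠ δ3 →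
  ¬ IsSquare (δ1 * δ2 * δ3) →
  StrongAt w c i δ1 → StrongAt w c i δ2 → StrongAt w c i δ3 → False

/-- task KP: a small killing prime in a given class -/
def KillPrime : Prop := ∃ C : ℕ, ∀ w c δ : ℕ, Pw w → (c = 3 ∨ c = 5) → Adm δ →
  ∃ q : ℕ, q.Prime ∧ 5 ≤ q ∧ q % 8 = c ∧ K w q δ = -1 ∧ q ≤ C * δ ^ C

open Classical in
/-- task FIX: the number of `u` for a fixed choice of the small primes -/
def FixStmt : Prop := ∀ (e w δ s U D z Kk : ℕ) (A P : Finset ℕ), (e = 1 ∨ e = 3) → Pw w → 1 ≤ D →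
  (∀ q ∈ A, q.Prime ∧ 5 ≤ q) → (∀ p ∈ P, p.Prime ∧ 64 ≤ p ∧ p ≤ z ∧ p ∉ A) → z ^ Kk ≤ D →
  8 * (∑ p ∈ P, ((Om w δ s p).card : ℝ) / p) + 8 ≤ Kk → (∑ p ∈ P, (4 : ℝ) / p ^ 2) ≤ 1 →
  (((range (U + 1)).filter (fun u => ∃ p : ℕ, p.Prime ∧ z < p ∧ p ∉ A ∧
      e * ((∏ q ∈ A, q) * p) = δ * s ^ 2 + w * u ^ 2)).card : ℝ) ≤
    (∏ q ∈ A, (1 + K w q δ)) * (16 * ((U : ℝ) / (∏ q ∈ A, (q : ℝ)) + 1) *
      Real.exp (-∑ p ∈ P, ((Om w δ s p).card : ℝ) / p) + (D : ℝ) ^ 6)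

/-- task SIG: the sieving mass for a good kernel -/
def SigStmt : Prop := ∃ C : ℝ, 0 < C ∧ ∀ (I i0 i1 w δ s : ℕ) (A : Finset ℕ), 3 ≤ i0 → i0 ≤ i1 →
  i1 ≤ I → I ≤ 2 ^ i0 → Pw w → ¬ Bad w I i0 δ → 1 ≤ s → s ≤ 2 ^ I → A.card ≤ I →
  (Real.log i1 - Real.log i0 - C ≤ ∑ p ∈ Pr2 i0 i1 \ A, ((Om w δ s p).card : ℝ) / p) ∧
  (∑ p ∈ Pr2 i0 i1 \ A, ((Om w δ s p).card : ℝ) / p ≤ 2 * Real.log I + C)

/-- task TUP: the prime factors of the number of a tuple -/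
def TupStmt : Prop := ∀ (M : ℕ) (g : Cfg M), g.Ok → ∀ t ∈ g.Tup, ∃ s : Finset ℕ,
  (∀ q ∈ s, q.Prime ∧ 5 ≤ q ∧ (q % 8 = 3 ∨ q % 8 = 5)) ∧ ∏ q ∈ s, q = g.N t ∧
  s.card = ∑ j, g.k j + g.R.card + 1 ∧
  (s.filter (fun q => q % 8 = g.c)).card =
    (g.R.filter (fun q => q % 8 = g.c)).card + (∑ j, if g.cl j = g.c then g.k j else 0) + 1 ∧
  g.R ⊆ s ∧ (∀ j, t.1 j ⊆ s) ∧ (∀ q ∈ s, q ∣ g.N t ∧ ¬ q ^ 2 ∣ g.N t) ∧ g.N t ≤ 2 ^ g.I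

/-- task T1: lower bound for the number of tuples -/
def TupLow : Prop := ∃ c0 : ℝ, 0 < c0 ∧ ∃ I0 : ℕ, ∀ (M : ℕ) (g : Cfg M), g.Ok → I0 ≤ g.I →
  (∀ j, 2 * (g.k j : ℝ) ^ 2 ≤ 2 ^ (g.κ j) * g.S j) →
  c0 * (2 ^ g.I / (g.Rp * g.I)) * (g.W / 2 ^ M) ≤ (g.Tup.card : ℝ)

open Classical in
/-- task T2: tuples represented by a large kernel -/
def TupLarge : Prop := ∀ (M : ℕ) (g : Cfg M), g.Ok → ∀ δ : ℕ, Adm δ →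
  ((g.Tup.filter (fun t => Rep g.e g.w δ (g.N t))).card : ℝ) ≤
    Real.sqrt (3 * 2 ^ g.I / δ) * 2 ^ (∑ j, g.k j + g.R.card + 1) * (g.U / g.Rp) * g.W

open Classical in
/-- task T3: tuples represented by a small kernel that is not strongly biased -/
def TupSmall : Prop := ∃ C : ℝ, 0 < C ∧ ∀ (M : ℕ) (g : Cfg M), g.Ok → ∀ δ : ℕ, Adm δ →
  ∀ (j : Fin M) (θ : ℝ), 0 ≤ θ → θ ≤ 1 →
  ∑ q ∈ (g.Blk j).filter (fun q => K g.w q δ ≠ -1), (1 : ℝ) / q ≤ (1 - θ) * g.S j →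
  ((g.Tup.filter (fun t => Rep g.e g.w δ (g.N t))).card : ℝ) ≤
    C * (2 ^ g.I / (g.Rp * g.I)) * g.W * (1 - θ) ^ (g.k j)

open Classical in
/-- task T0: tuples that come from the first values of `n` -/
def TupZero : Prop := ∀ (M : ℕ) (g : Cfg M), g.Ok → ∀ v : ℕ,
  ((g.Tup.filter (fun t => ∃ a u : ℕ, a ≤ v ∧ g.e * g.N t + a = g.w * u ^ 2)).card : ℝ) ≤
    (v + 1) * (2 ^ (g.I / 8) * (g.U + v + 1))

/-- task T5: multiplicity of a good value -/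
def GoodCount : Prop := ∃ C : ℝ, 0 < C ∧ ∃ I0 : ℕ, ∀ (M : ℕ) (g : Cfg M), g.Ok → I0 ≤ g.I →
  ∀ i0 : ℕ, 6 ≤ i0 → g.I ≤ 2 ^ i0 → 4000 * i0 * (Nat.log 2 g.I + 1) ≤ g.I →
  (∀ j, i0 ≤ g.κ j ∧ g.κ j ≤ g.I) → ∑ j, g.k j + g.R.card ≤ g.I →
  ∀ δ s : ℕ, Adm δ → ¬ Bad g.w g.I i0 δ → 1 ≤ s → δ * s ^ 2 ≤ 3 * 2 ^ g.I →
  (((g.Tup ×ˢ range (2 ^ g.I + 1)).filter
      (fun x => g.e * g.N x.1 = δ * s ^ 2 + g.w * x.2 ^ 2)).card : ℝ) ≤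
    C * 2 ^ g.R.card * (g.U / g.Rp) *
      (∏ j, ((g.S j + 1 / (g.I : ℝ) ^ 2 + g.R.card / 2 ^ (g.κ j)) ^ g.k j /
        ((g.k j).factorial : ℝ))) * (i0 * (Nat.log 2 g.I + 1) / g.I)

open Classical in
/-- task F1: the large bad kernels -/
def BadSum : Prop := ∀ M : ℕ, 1 ≤ M → ∃ y0 : ℕ, ∀ y : ℕ, y0 ≤ y → ∀ I : ℕ,
  y ^ (2 * M + 4) ≤ I → I ≤ 2 * y ^ (2 * M + 4) → ∀ w : ℕ, Pw w →
  ∑ δ ∈ (Icc 1 (3 * 2 ^ I)).filter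
      (fun δ => Adm δ ∧ Bad w I y δ ∧ 2 ^ (8 * y ^ (2 * M - 1)) < δ), 1 / Real.sqrt δ ≤
    1 / (2 : ℝ) ^ (2 * y ^ (2 * M - 1))

open Classical in
/-- task F2: the number of the small bad kernels -/
def BadNum : Prop := ∀ M : ℕ, 1 ≤ M → ∀ η : ℝ, 0 < η → ∃ y0 : ℕ, ∀ y : ℕ, y0 ≤ y → ∀ I : ℕ,
  y ^ (2 * M + 4) ≤ I → I ≤ 2 * y ^ (2 * M + 4) → ∀ w : ℕ, Pw w →
  (((Icc 1 (2 ^ (8 * y ^ (2 * M - 1)))).filter (fun δ => Adm δ ∧ Bad w I y δ)).card : ℝ) ≤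
    (2 : ℝ) ^ (η * (y : ℝ) ^ (2 * M - 1)) ∧
  ∀ j : ℕ, j + 1 < M →
    (((Icc 1 (2 ^ (8 * y ^ (2 * M - 1)))).filter
      (fun δ => Adm δ ∧ BadAt w I (kap M y (j + 1)) δ)).card : ℝ) ≤
    (2 : ℝ) ^ (η * (y : ℝ) ^ (2 * j + 1))

/-- task SB: a strongly biased kernel is bad -/
def StrongBad : Prop := ∃ C : ℕ, ∀ w c I i δ : ℕ, Pw w → (c = 3 ∨ c = 5) → C ≤ i → i ≤ I →
  I ≤ 2 ^ (i / 4) → 1 ≤ δ → δ ≤ 2 ^ I → StrongAt w c i δ → BadAt w I i δ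

/-- task PAR: the numerical facts on the main configuration -/
def ParStmt : Prop := ∀ M : ℕ, 1 ≤ M → ∃ y0 : ℕ, ∀ y : ℕ, y0 ≤ y → ∀ I : ℕ,
  y ^ (2 * M + 4) ≤ I → I ≤ 2 * y ^ (2 * M + 4) → ∀ (r w e cm km kn : ℕ) (R : Finset ℕ),
  Num M y r w e cm km kn → R.card ≤ 3 →
  (∀ q ∈ R, q.Prime ∧ 5 ≤ q ∧ q % 8 = cm) → ∏ q ∈ R, q ≤ 2 ^ (I / 16) →
  (cfg M y I r w e cm km kn R).Ok ∧
  ∑ j, (cfg M y I r w e cm km kn R).k j + R.card + 1 = km + kn ∧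
  R.card + (∑ j, if (cfg M y I r w e cm km kn R).cl j = cm then
    (cfg M y I r w e cm km kn R).k j else 0) + 1 = km ∧
  (∀ j : Fin (M + 1), (j : ℕ) < M →
    (y : ℝ) ^ (2 * (j : ℕ) + 1) / 512 ≤ (cfg M y I r w e cm km kn R).k j) ∧
  (∀ j : Fin (M + 1), 1 / (8 * (kap M y j : ℝ)) ≤ (cfg M y I r w e cm km kn R).S j) ∧
  (∀ j : Fin (M + 1), y ≤ kap M y j ∧ kap M y j ≤ I) ∧
  (∀ j : Fin (M + 1), 2 * ((cfg M y I r w e cm km kn R).k j : ℝ) ^ 2 ≤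
    2 ^ (kap M y j) * (cfg M y I r w e cm km kn R).S j) ∧
  (∏ j, (((cfg M y I r w e cm km kn R).S j + 1 / (I : ℝ) ^ 2 + R.card / 2 ^ (kap M y j)) ^
      (cfg M y I r w e cm km kn R).k j /
      (((cfg M y I r w e cm km kn R).k j).factorial : ℝ)) ≤
    Real.exp (M + 1 : ℕ) * (cfg M y I r w e cm km kn R).W) ∧
  1 / (2 : ℝ) ^ (I / 100) ≤ (cfg M y I r w e cm km kn R).W

/-- the properties of the killing primes `R` -/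
structure RC (M y I w cm : ℕ) (R : Finset ℕ) : Prop where
  card : R.card ≤ 3
  pr : ∀ q ∈ R, q.Prime ∧ 5 ≤ q ∧ q % 8 = cm
  le : ∏ q ∈ R, q ≤ 2 ^ (I / 16)
  kills : ∀ δ : ℕ, Adm δ → δ ≤ 2 ^ (8 * y ^ (2 * M - 1)) → StrongAt w cm (kap M y 0) δ →
    ∃ q ∈ R, K w q δ = -1

/-- task RCH: existence of the killing primes -/
def RChoice : Prop := ∀ M : ℕ, 1 ≤ M → ∃ y0 : ℕ, ∀ y : ℕ, y0 ≤ y → ∀ I : ℕ,
  y ^ (2 * M + 4) ≤ I → I ≤ 2 * y ^ (2 * M + 4) → ∀ w cm : ℕ, Pw w → (cm = 3 ∨ cm = 5) →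
  ∃ R : Finset ℕ, RC M y I w cm R

open Classical in
/-- task BTOT: the tuples that are lost are at most half of all tuples -/
def BadTotal : Prop := ∀ M v : ℕ, 1 ≤ M → ∃ y0 : ℕ, ∀ y : ℕ, y0 ≤ y → ∀ I : ℕ,
  y ^ (2 * M + 4) ≤ I → I ≤ 2 * y ^ (2 * M + 4) → ∀ (r w e cm km kn : ℕ) (R : Finset ℕ),
  Num M y r w e cm km kn → RC M y I w cm R →
  (((cfg M y I r w e cm km kn R).Tup.filter (fun t => (∃ δ : ℕ, Adm δ ∧ Bad w I y δ ∧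
      Rep e w δ ((cfg M y I r w e cm km kn R).N t)) ∨
      ∃ a u : ℕ, a ≤ v ∧ e * (cfg M y I r w e cm km kn R).N t + a = w * u ^ 2)).card : ℝ) ≤
    ((cfg M y I r w e cm km kn R).Tup.card : ℝ) / 2

/-- what the algebraic part provides -/
def AlgIn (O : ℕ → Prop) (e v : ℕ) : Prop := ∃ r0 : ℕ, ∀ r1 : ℕ, r0 ≤ r1 →
  ∃ r w cm km kn : ℕ, r1 ≤ r ∧ r ≤ r1 + 1 ∧ (w = 4 ^ r ∨ w = 2 * 4 ^ r) ∧ (cm = 3 ∨ cm = 5) ∧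
    km + kn ≤ 2 ^ (r + 1) ∧ 2 ^ r ≤ 32 * km ∧
    ∀ s : Finset ℕ, (∀ q ∈ s, q.Prime ∧ 5 ≤ q ∧ (q % 8 = 3 ∨ q % 8 = 5)) → s.card = km + kn →
      (s.filter (fun q => q % 8 = cm)).card = km →
      ∃ n u : ℕ, O n ∧ 8 * e * n + w * u ^ 2 = e * ∏ q ∈ s, q + v ∧ ∀ z : ℕ, 8 * e * n ≠ v + z ^ 2

open Classical in
/-- the number of `n ≤ x` with the property `O` -/
noncomputable def cnt (O : ℕ → Prop) (x : ℕ) : ℕ := ((range (x + 1)).filter O).card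

/-- task MAIN: the main theorem in terms of the parameter `y` -/
def MainY : Prop := ∀ (O : ℕ → Prop) (e v : ℕ), (e = 1 ∨ e = 3) → v % 2 = 1 → AlgIn O e v →
  ∀ M : ℕ, 1 ≤ M → ∃ y0 : ℕ, ∀ y : ℕ, y0 ≤ y → ∀ I : ℕ,
  y ^ (2 * M + 4) ≤ I → I ≤ 2 * y ^ (2 * M + 4) →
  Real.sqrt (2 ^ I) * (y : ℝ) ^ (2 * M - 3 : ℤ) ≤ (cnt O (2 ^ I) : ℝ)

/-- task FINAL -/
def FinalStmt : Prop := ∀ (O : ℕ → Prop) (e v : ℕ), (e = 1 ∨ e = 3) → v % 2 = 1 → AlgIn O e v →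
  ∀ ε : ℝ, 0 < ε → ∃ x0 : ℝ, ∀ x : ℕ, x0 ≤ x →
  Real.sqrt x * Real.log x ^ (1 - ε) ≤ (cnt O x : ℝ)

end Pool.Agent.H189Z.MP
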