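import Pool.Agent.H189Z.MP.Even1

/-! Even values of the `t`-multipartition function: at least `c √x log x` of them up to `x`. -/

set_option autoImplicit false

namespace Pool.Agent.H189Z.MP

open PowerSeries Pool.Agent.H397R2.PP

theorem large_zero (u : ℕ → ZMod 2) (t ρ k m x L a : ℕ) (hk : 2 ≤ k) (hm : 3 * m + t = 2 ^ ρ)
    (hρ1 : 4 ^ k ≤ 2 ^ ρ) (hρ2 : 2 ^ ρ ≤ 2 * 4 ^ k)
    (hid : ∀ n, gsum u (2 ^ ρ) n = coeff (8 * n + m) (Db ^ m))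
    (ha : 1 ≤ a)
    (hvan : ∀ r, ¬ 3 ∣ r → coeff (3 ^ a * r) (Db ^ m) = 0)
    (hL : L = Nat.sqrt (2 * x / (3 * 2 ^ ρ))) (hcond : 10 * 3 ^ a ≤ L) :
    0.1 * 2 ^ k * Real.sqrt x ≤ (zeroSet u x).card := by
  have h := count_zero u t ρ m a x L hm hid hvan hL
  have hP3 : (3 : ℝ) ≤ 3 ^ a := by
    calc (3 : ℝ) = 3 ^ 1 := by norm_num
      _ ≤ 3 ^ a := pow_le_pow_right₀ (by norm_num) ha
  have hcR : 10 * (3 : ℝ) ^ a ≤ L := by exact_mod_cast hcond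
  set P : ℝ := 3 ^ a with hP
  have hPpos : 0 < P := by linarith
  have h4k : (4 : ℝ) ^ k = (2 ^ k) ^ 2 := by rw [← pow_mul, mul_comm, pow_mul]; norm_num
  have hk16 : (16 : ℝ) ≤ 4 ^ k := by
    calc (16 : ℝ) = 4 ^ 2 := by norm_num
      _ ≤ 4 ^ k := pow_le_pow_right₀ (by norm_num) hk
  have r1 : (4 : ℝ) ^ k ≤ 2 ^ ρ := by exact_mod_cast hρ1
  have r2 : (2 : ℝ) ^ ρ ≤ 2 * 4 ^ k := by exact_mod_cast hρ2
  have hLsq2 : 2 * x < 3 * 2 ^ ρ * ((L + 1) * (L + 1)) := by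
    have h1 : 2 * x / (3 * 2 ^ ρ) < (L + 1) * (L + 1) := by rw [hL]; exact Nat.lt_succ_sqrt _
    rw [Nat.div_lt_iff_lt_mul (by positivity)] at h1
    calc 2 * x < (L + 1) * (L + 1) * (3 * 2 ^ ρ) := h1
      _ = 3 * 2 ^ ρ * ((L + 1) * (L + 1)) := by ring
  have hLR : ((2 * x : ℕ) : ℝ) ≤ ((3 * 2 ^ ρ * ((L + 1) * (L + 1)) : ℕ) : ℝ) := by
    exact_mod_cast hLsq2.le
  push_cast at hLR
  set M : ℝ := 2 ^ ρ with hM
  set T : ℝ := 2 ^ k with hT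
  have hT0 : 0 < T := by positivity
  rw [h4k] at r1 r2 hk16
  have hM16 : (16 : ℝ) ≤ M := hk16.trans r1
  have hs := sqrt_le_of x L (2 * T) (by positivity) (by
    have h0 : (0 : ℝ) ≤ ((L : ℝ) + 1) ^ 2 := by positivity
    have h1 : M * ((L : ℝ) + 1) ^ 2 ≤ (2 * T) ^ 2 * ((L : ℝ) + 1) ^ 2 := by
      apply mul_le_mul_of_nonneg_right _ h0
      nlinarith
    nlinarith)
  have hL30 : (30 : ℝ) ≤ L := by linarith
  have hE : (0 : ℝ) ≤ (zeroSet u x).card := by positivity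
  set E : ℝ := ((zeroSet u x).card : ℝ) with hEdef
  -- multiply by P
  have h1 : 2 * M * L ^ 2 / 3 - 2 * L * P ≤ E * (2 * L + 3 + P) := by
    have h2 := mul_le_mul_of_nonneg_right h hPpos.le
    have e1 : (2 * M * L ^ 2 / (3 * P) - 2 * L) * P = 2 * M * L ^ 2 / 3 - 2 * L * P := by
      field_simp
    have e2 : E * ((2 * L + 3) / P + 1) * P = E * (2 * L + 3 + P) := by
      field_simp
    rw [e1, e2] at h2
    exact h2
  have h3 : E * (2 * L + 3 + P) ≤ E * (2.2 * L) := by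
    apply mul_le_mul_of_nonneg_left _ hE
    linarith
  have h4 : 2 * L * P ≤ 0.2 * L ^ 2 := by nlinarith
  have h5 : 0.29 * M * L * L ≤ E * L := by nlinarith
  have h6 : 0.29 * M * L ≤ E := le_of_mul_le_mul_right h5 (by linarith)
  refine le_trans ?_ h6
  have h7 : T * Real.sqrt x ≤ T * (1.2248 * (2 * T) * (L + 1)) :=
    mul_le_mul_of_nonneg_left hs hT0.le
  have h8 : T * (1.2248 * (2 * T) * (L + 1)) = 2.4496 * (T ^ 2 * (L + 1)) := by ring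
  have h9 : T ^ 2 * ((L : ℝ) + 1) ≤ M * ((31 / 30) * L) :=
    mul_le_mul r1 (by linarith) (by positivity) (by linarith)
  rw [h8] at h7
  have h10 : 0 ≤ M * L := by positivity
  nlinarith

theorem even_values (t : Nat) (h3 : ¬ 3 ∣ t) (ht : t % 2 = 1) :
    ∃ c : ℝ, 0 < c ∧ ∃ x0 : ℕ, ∀ x : ℕ, x0 ≤ x → c * Real.sqrt x * Real.log x ≤
      (((Finset.range (x + 1)).filter (fun n => PowerSeries.coeff n
        ((PowerSeries.mk fun k => (Fintype.card (Nat.Partition k) : ZMod 2)) ^ t) = 0)).card : ℝ) := by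
  classical
  obtain ⟨ε, hε1, hε⟩ : ∃ ε, ε ≤ 1 ∧ 2 ^ ε % 3 = t % 3 := by
    by_cases h : t % 3 = 1
    · exact ⟨0, by omega, by omega⟩
    · exact ⟨1, by omega, by omega⟩
  have hpow : ∀ k, 2 ^ (2 * k + ε) = 4 ^ k * 2 ^ ε := by
    intro k
    rw [pow_add, pow_mul]
    norm_num
  have hε2 : 1 ≤ 2 ^ ε ∧ 2 ^ ε ≤ 2 := by
    interval_cases ε <;> norm_num
  refine ⟨1 / 500, by norm_num,
    (10 * 3 ^ (2 ^ (t + 2 + 2) - 1)) ^ 2 * (3 * 2 ^ (2 * (t + 2) + ε)), fun x hx => ?_⟩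
  have hc0 : 10 * 3 ^ (2 ^ (t + 2 + 2) - 1) ≤ Nat.sqrt (2 * x / (3 * 2 ^ (2 * (t + 2) + ε))) := by
    rw [Nat.le_sqrt', Nat.le_div_iff_mul_le (by positivity)]
    omega
  have hex : ∃ k, t + 2 < k ∧
      ¬ (10 * 3 ^ (2 ^ (k + 2) - 1) ≤ Nat.sqrt (2 * x / (3 * 2 ^ (2 * k + ε)))) := by
    refine ⟨x + t + 3, by omega, ?_⟩
    push Not
    have h1 : 2 * x / (3 * 2 ^ (2 * (x + t + 3) + ε)) = 0 := by
      apply Nat.div_eq_of_lt
      have h2 : 2 * (x + t + 3) + ε < 2 ^ (2 * (x + t + 3) + ε) := Nat.lt_pow_self (by norm_num)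
      omega
    rw [h1]; simp
  obtain ⟨hk2, hkf⟩ := Nat.find_spec hex
  have hmin := fun j (hj : j < Nat.find hex) => Nat.find_min hex hj
  set k1 := Nat.find hex with hk1
  obtain ⟨K, hK⟩ : ∃ K, k1 = K + 1 := ⟨k1 - 1, by omega⟩
  rw [hK] at hkf hk2 hmin
  have hK2 : t + 2 ≤ K := by omega
  have hcK : 10 * 3 ^ (2 ^ (K + 2) - 1) ≤ Nat.sqrt (2 * x / (3 * 2 ^ (2 * K + ε))) := by
    rcases Nat.eq_or_lt_of_le hK2 with h | h
    · rw [← h]; exact hc0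
    · have := hmin K (by omega)
      by_contra hcon
      exact this ⟨h, hcon⟩
  have hρ1 : 4 ^ K ≤ 2 ^ (2 * K + ε) := by
    rw [hpow]
    exact Nat.le_mul_of_pos_right _ hε2.1
  have hρ2 : 2 ^ (2 * K + ε) ≤ 2 * 4 ^ K := by
    rw [hpow, mul_comm]
    exact Nat.mul_le_mul_right _ hε2.2
  have htK : K < 4 ^ K := Nat.lt_pow_self (by norm_num)
  have hmod : 2 ^ (2 * K + ε) % 3 = t % 3 := by
    have h1 : 4 ^ K % 3 = 1 := by rw [Nat.pow_mod]; simp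
    rw [hpow, Nat.mul_mod, h1, one_mul, Nat.mod_mod, hε]
  have hev : 2 ^ (2 * K + ε) % 2 = 0 := by
    obtain ⟨w, hw⟩ : ∃ w, 2 * K + ε = w + 1 := ⟨2 * K + ε - 1, by omega⟩
    rw [hw, pow_succ]
    omega
  obtain ⟨m, hm⟩ : ∃ m, 3 * m + t = 2 ^ (2 * K + ε) :=
    ⟨(2 ^ (2 * K + ε) - t) / 3, by omega⟩
  have ha : 1 ≤ 2 ^ (K + 2) - 1 := by
    have : 2 ^ 1 ≤ 2 ^ (K + 2) := Nat.pow_le_pow_right (by norm_num) (by omega)
    omega
  have hB := large_zero _ t (2 * K + ε) K m x _ (2 ^ (K + 2) - 1) (by omega) hm hρ1 hρ2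
    (fun n => multi_identity t (2 * K + ε) _ m n rfl hm) ha
    (fun r hr => multi_vanish (K + 1) m r (by omega) (by rw [pow_succ]; omega) hr) rfl hcK
  refine le_trans ?_ hB
  push Not at hkf
  rw [Nat.sqrt_lt', Nat.div_lt_iff_lt_mul (by positivity)] at hkf
  have hKp : K < 2 ^ K := Nat.lt_two_pow_self
  have hxlt : x < 2 ^ (50 * 2 ^ K) := by
    have e1 : 3 ^ (2 ^ (K + 1 + 2) - 1) ≤ 2 ^ (16 * 2 ^ K) := by
      calc 3 ^ (2 ^ (K + 1 + 2) - 1) ≤ 4 ^ (2 ^ (K + 1 + 2) - 1) :=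
            Nat.pow_le_pow_left (by norm_num) _
        _ ≤ 4 ^ (8 * 2 ^ K) := by
            apply Nat.pow_le_pow_right (by norm_num)
            have : 2 ^ (K + 1 + 2) = 8 * 2 ^ K := by ring
            omega
        _ = 2 ^ (16 * 2 ^ K) := by
            rw [show (4 : ℕ) = 2 ^ 2 by norm_num, ← pow_mul]
            congr 1
            ring
    have e2 : (10 * 3 ^ (2 ^ (K + 1 + 2) - 1)) ^ 2 * (3 * 2 ^ (2 * (K + 1) + ε)) ≤
        (2 ^ 4 * 2 ^ (16 * 2 ^ K)) ^ 2 * (2 ^ 2 * 2 ^ (2 * (K + 1) + ε)) :=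
      Nat.mul_le_mul (Nat.pow_le_pow_left (Nat.mul_le_mul (by norm_num) e1) 2)
        (Nat.mul_le_mul_right _ (by norm_num))
    have e3 : (2 ^ 4 * 2 ^ (16 * 2 ^ K)) ^ 2 * (2 ^ 2 * 2 ^ (2 * (K + 1) + ε)) ≤
        2 ^ (50 * 2 ^ K) := by
      rw [← pow_add, ← pow_add, ← pow_mul, ← pow_add]
      apply Nat.pow_le_pow_right (by norm_num)
      omega
    omega
  have hlog := log_le_of_lt_two_pow x (50 * 2 ^ K) hxlt
  push_cast at hlog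
  have hs := Real.sqrt_nonneg (x : ℝ)
  have h2K : (0 : ℝ) < 2 ^ K := by positivity
  have h1 : Real.sqrt x * Real.log x ≤ Real.sqrt x * (50 * 2 ^ K) :=
    mul_le_mul_of_nonneg_left (by nlinarith) hs
  nlinarith

end Pool.Agent.H189Z.MP
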