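import Pool.Agent.H397R2.PP.D5
import Pool.Agent.H397R2.PP.TH
import Pool.Agent.H397R2.PP.VAN

/-! Even values of the `t`-multipartition function: identity, vanishing and counting. -/

set_option autoImplicit false

namespace Pool.Agent.H189Z.MP

open PowerSeries Pool.Agent.H397R2.PP

/-- the sums of a sequence at `n - M g_j` -/
noncomputable def gsum (a : ℕ → ZMod 2) (M n : ℕ) : ZMod 2 :=
  ∑ j ∈ Finset.Icc (-(n : ℤ)) n, if M * pentagonal j ≤ n then a (n - M * pentagonal j) else 0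

/-- the zeros of a sequence up to `x` -/
noncomputable def zeroSet (a : ℕ → ZMod 2) (x : ℕ) : Finset ℕ :=
  (Finset.range (x + 1)).filter (fun n => a n = 0)

theorem gsum_of_odd (a : ℕ → ZMod 2) (M n : ℕ)
    (h : ∀ j : ℤ, M * pentagonal j ≤ n → a (n - M * pentagonal j) ≠ 0) :
    gsum a M n = ((cntS M n).card : ZMod 2) := by
  unfold gsum
  rw [← Finset.sum_filter]
  have : ∀ j ∈ (Finset.Icc (-(n : ℤ)) n).filter (fun j => M * pentagonal j ≤ n),
      a (n - M * pentagonal j) = 1 := by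
    intro j hj
    have := h j (Finset.mem_filter.mp hj).2
    revert this
    generalize a (n - M * pentagonal j) = z
    revert z
    decide
  rw [Finset.sum_congr rfl this]
  simp [cntS]

theorem multi_identity (t ρ M m n : ℕ) (hM2 : M = 2 ^ ρ) (hm : 3 * m + t = M) :
    gsum (fun k => coeff k
      ((PowerSeries.mk fun k => (Fintype.card (Nat.Partition k) : ZMod 2)) ^ t)) M n
      = coeff (8 * n + m) (Db ^ m) := by
  unfold gsum
  have hM : M ≠ 0 := by rw [hM2]; positivity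
  set F0 : (ZMod 2)⟦X⟧ := PowerSeries.mk fun n => (Fintype.card (Nat.Partition n) : ZMod 2)
    with hF0
  set f : (ZMod 2)⟦X⟧ := pentagonalSeries (ZMod 2) with hf
  have hFf : F0 * f = 1 := mk_card_mul_pentagonalSeries (ZMod 2)
  obtain ⟨F, hF⟩ : ∃ F, F = F0 ^ t := ⟨_, rfl⟩
  rw [← hF]
  -- right-hand side
  have hR : coeff (8 * n + m) (Db ^ m) = coeff n (f ^ (3 * m)) := by
    have h1 : Db ^ m = X ^ m * PowerSeries.expand 8 (by norm_num) (f ^ (3 * m)) := by
      rw [← pow_eq_expand' 8 3 (by norm_num) (by norm_num), Db, mul_pow, ← pow_mul, ← pow_mul]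
      congr 2
      ring
    rw [h1, coeff_X_pow_mul, coeff_expand_mul]
  rw [hR]
  have h2 : f ^ (3 * m) = F * PowerSeries.expand M hM f := by
    rw [← pow_eq_expand' M ρ hM hM2, ← hm, pow_add, hF, mul_comm (f ^ (3 * m)), ← mul_assoc,
      ← mul_pow, hFf, one_pow, one_mul]
  rw [h2, coeff_mul]
  rw [Finset.sum_congr rfl (g := fun p : ℕ × ℕ => ∑ j ∈ Finset.Icc (-(n : ℤ)) n,
    if p.2 = M * pentagonal j then coeff p.1 F else 0)]
  · rw [Finset.sum_comm]
    refine Finset.sum_congr rfl fun j _ => ?_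
    split_ifs with hj
    · rw [Finset.sum_eq_single (n - M * pentagonal j, M * pentagonal j)]
      · simp
      · rintro ⟨a, b⟩ hab hne
        rw [if_neg]
        intro hb
        apply hne
        rw [Finset.HasAntidiagonal.mem_antidiagonal] at hab
        simp only at hb hab
        ext <;> simp <;> omega
      · intro h
        exact absurd (Finset.HasAntidiagonal.mem_antidiagonal.mpr (Nat.sub_add_cancel hj)) h
    · symm
      apply Finset.sum_eq_zero
      rintro ⟨a, b⟩ hab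
      rw [Finset.HasAntidiagonal.mem_antidiagonal] at hab
      rw [if_neg]
      intro hb
      simp only at hb hab
      omega
  · rintro ⟨a, b⟩ hab
    rw [Finset.HasAntidiagonal.mem_antidiagonal] at hab
    simp only at hab ⊢
    rw [coeff_expand_pent M hM n b (by omega), Finset.mul_sum]
    refine Finset.sum_congr rfl fun j _ => ?_
    split_ifs <;> simp

theorem cont_lt (s : ℕ) : ∀ j, j < 4 ^ s → cont j + 2 ≤ 2 ^ (s + 1) := by
  induction s with
  | zero =>
    intro j hj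
    have : j = 0 := by omega
    rw [this, NIL.cont_zero]
    norm_num
  | succ s ih =>
    intro j hj
    obtain ⟨m, d, hd, rfl⟩ := NIL.split4 j
    rw [pow_succ] at hj
    have h1 := ih m (by omega)
    have h2 : wdig d ≤ 2 := by
      unfold wdig
      split_ifs <;> omega
    rw [NIL.cont_digit _ _ hd, pow_succ 2 (s + 1)]
    omega

theorem multi_vanish (s m r : ℕ) (hm : m % 2 = 1) (hs : m < 4 ^ s) (hr : ¬ 3 ∣ r) :
    coeff (3 ^ (2 ^ (s + 1) - 1) * r) (Db ^ m) = 0 := by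
  have H : NIL.T3H := ⟨T3.rec modular_equation, T3.init modular_equation⟩
  obtain ⟨m', rfl⟩ : ∃ m', m = 2 * m' + 1 := ⟨m / 2, by omega⟩
  have h1 := cont_lt s m' (by omega)
  have h3 : Db ^ (2 * m' + 1) ∈ NIL.WW (0 + (2 ^ (s + 1) - 1)) := NIL.WW_mem (by omega)
  have h4 := NIL.iter_WW H _ 0 h3
  have h5 : NIL.WW 0 = ⊥ := by
    unfold NIL.WW
    rw [Submodule.span_eq_bot]
    rintro φ ⟨j, hj, -⟩
    omega
  rw [h5, Submodule.mem_bot] at h4
  rw [← coeff_iterate_Tp3 (s + 1) r hr, h4]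
  simp

theorem hits_le (ρ m J a e : ℕ) :
    (((Finset.Icc (-(J : ℤ)) J).filter
      (fun j => 3 ^ a ∣ 8 * (e + 2 ^ ρ * pentagonal j) + m)).card : ℝ)
      ≤ (2 * J + 1) / 3 ^ a + 1 := by
  classical
  set S := (Finset.Icc (-(J : ℤ)) J).filter
      (fun j => 3 ^ a ∣ 8 * (e + 2 ^ ρ * pentagonal j) + m) with hS
  rcases S.eq_empty_or_nonempty with h0 | ⟨j0, hj0⟩
  · rw [h0]; simp; positivity
  have hsub : S ⊆ (Finset.Icc (-(J : ℤ)) J).filter (fun j => ((3 ^ a : ℕ) : ℤ) ∣ j - j0) := by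
    intro j hj
    rw [hS, Finset.mem_filter] at hj hj0
    rw [Finset.mem_filter]
    refine ⟨hj.1, ?_⟩
    have d1 : (((3 ^ a : ℕ) : ℕ) : ℤ) ∣ ((8 * (e + 2 ^ ρ * pentagonal j) + m : ℕ) : ℤ) :=
      Int.natCast_dvd_natCast.mpr hj.2
    have d0 : (((3 ^ a : ℕ) : ℕ) : ℤ) ∣ ((8 * (e + 2 ^ ρ * pentagonal j0) + m : ℕ) : ℤ) :=
      Int.natCast_dvd_natCast.mpr hj0.2
    have hd := dvd_sub d1 d0
    have e1 := two_mul_natCast_pentagonal j
    have e0 := two_mul_natCast_pentagonal j0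
    have h1 : ((8 * (e + 2 ^ ρ * pentagonal j) + m : ℕ) : ℤ)
        - ((8 * (e + 2 ^ ρ * pentagonal j0) + m : ℕ) : ℤ)
        = (2 ^ (ρ + 2) * (3 * (j + j0) - 1)) * (j - j0) := by
      push_cast
      linear_combination (4 * 2 ^ ρ : ℤ) * e1 - (4 * 2 ^ ρ : ℤ) * e0
    rw [h1] at hd
    refine IsCoprime.dvd_of_dvd_mul_left ?_ hd
    push_cast
    apply IsCoprime.pow_left
    apply IsCoprime.mul_right
    · apply IsCoprime.pow_right
      exact ⟨1, -1, by norm_num⟩
    · exact ⟨j + j0, -1, by ring⟩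
  have hc := Finset.card_le_card hsub
  have g1 := card_class_le J (3 ^ a) (by positivity) j0
  have hc3 : (S.card : ℝ) ≤
      (((Finset.Icc (-(J : ℤ)) J).filter (fun j => ((3 ^ a : ℕ) : ℤ) ∣ j - j0)).card : ℝ) := by
    exact_mod_cast hc
  refine hc3.trans (g1.trans ?_)
  push_cast
  exact le_rfl

/-- the set of good `r` -/
noncomputable def goodT (t M P c N l : ℕ) : Finset ℕ :=
  (Finset.range N).filter (fun r : ℕ => (r % 8 = c ∧ r % 3 ≠ 0) ∧
    ((M : ℝ) * (6 * l + 1) ^ 2 - t) / (3 * P) ≤ r ∧ (r : ℝ) < ((M : ℝ) * (6 * l + 5) ^ 2 - t) / (3 * P))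

theorem mem_goodT (t M P c N l r : ℕ) (hP : 0 < P) : r ∈ goodT t M P c N l ↔
    r < N ∧ (r % 8 = c ∧ r % 3 ≠ 0) ∧ M * (6 * l + 1) ^ 2 ≤ 3 * (P * r) + t ∧
      3 * (P * r) + t < M * (6 * l + 5) ^ 2 := by
  have hPR : (0 : ℝ) < P := by exact_mod_cast hP
  unfold goodT
  rw [Finset.mem_filter, Finset.mem_range, div_le_iff₀ (by positivity), lt_div_iff₀ (by positivity)]
  have e1 : ((M : ℝ) * (6 * l + 1) ^ 2 - t ≤ r * (3 * P)) ↔
      M * (6 * l + 1) ^ 2 ≤ 3 * (P * r) + t := by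
    rw [sub_le_iff_le_add, show (r : ℝ) * (3 * P) + t = ((3 * (P * r) + t : ℕ) : ℝ) by
      push_cast; ring, show (M : ℝ) * (6 * l + 1) ^ 2 = ((M * (6 * l + 1) ^ 2 : ℕ) : ℝ) by
      push_cast; ring, Nat.cast_le]
  have e2 : ((r : ℝ) * (3 * P) < (M : ℝ) * (6 * l + 5) ^ 2 - t) ↔
      3 * (P * r) + t < M * (6 * l + 5) ^ 2 := by
    rw [lt_sub_iff_add_lt, show (r : ℝ) * (3 * P) + t = ((3 * (P * r) + t : ℕ) : ℝ) by
      push_cast; ring, show (M : ℝ) * (6 * l + 5) ^ 2 = ((M * (6 * l + 5) ^ 2 : ℕ) : ℝ) by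
      push_cast; ring, Nat.cast_lt]
  rw [e1, e2]

theorem card_goodT (t M P c N l : ℕ) (hM : t ≤ M) (hP : 0 < P) (hc : c < 8)
    (hN : M * (6 * l + 5) ^ 2 ≤ 3 * (P * N)) :
    2 * (M : ℝ) * (2 * l + 1) / (3 * P) - 2 ≤ ((goodT t M P c N l).card : ℝ) := by
  have hPR : (0 : ℝ) < P := by exact_mod_cast hP
  have hMR : (t : ℝ) ≤ M := by exact_mod_cast hM
  have ht0 : (0 : ℝ) ≤ t := by positivity
  have hl : (0 : ℝ) ≤ l := by positivity
  have h := card_classes_ge c N hc (((M : ℝ) * (6 * l + 1) ^ 2 - t) / (3 * P))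
    (((M : ℝ) * (6 * l + 5) ^ 2 - t) / (3 * P))
    (by
      apply div_nonneg _ (by positivity)
      have h1 : (1 : ℝ) ≤ (6 * l + 1) ^ 2 := by nlinarith
      nlinarith)
    (by
      rw [div_le_iff₀ (by positivity)]
      have : ((M * (6 * l + 5) ^ 2 : ℕ) : ℝ) ≤ ((3 * (P * N) : ℕ) : ℝ) := by exact_mod_cast hN
      push_cast at this
      linarith)
  refine le_trans (le_of_eq ?_) h
  field_simp
  ring

/-- The counting argument: vanishing of the coefficients of `D^m` at `3^a r` gives many even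
partition numbers. -/
theorem count_zero (u : ℕ → ZMod 2) (t ρ m a x L : ℕ) (hm : 3 * m + t = 2 ^ ρ)
    (hid : ∀ n, gsum u (2 ^ ρ) n = coeff (8 * n + m) (Db ^ m))
    (hvan : ∀ r, ¬ 3 ∣ r → coeff (3 ^ a * r) (Db ^ m) = 0)
    (hL : L = Nat.sqrt (2 * x / (3 * 2 ^ ρ))) :
    2 * (2 : ℝ) ^ ρ * L ^ 2 / (3 * 3 ^ a) - 2 * L ≤
      ((zeroSet u x).card : ℝ) * ((2 * L + 3) / 3 ^ a + 1) := by
  classical
  set M := 2 ^ ρ with hM
  set P := 3 ^ a with hP
  have hM1 : 1 ≤ M := Nat.one_le_pow _ _ (by norm_num)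
  have hP1 : 1 ≤ P := Nat.one_le_pow _ _ (by norm_num)
  have hPodd : P % 2 = 1 := by
    rw [hP, Nat.pow_mod]; simp
  set c := (P * m) % 8 with hc
  have hLsq : 3 * M * (L * L) ≤ 2 * x := by
    have h1 : L * L ≤ 2 * x / (3 * M) := by rw [hL]; exact Nat.sqrt_le _
    calc 3 * M * (L * L) ≤ 3 * M * (2 * x / (3 * M)) := Nat.mul_le_mul_left _ h1
      _ ≤ 2 * x := Nat.mul_div_le _ _
  have hLsq2 : 2 * x < 3 * M * ((L + 1) * (L + 1)) := by
    have h1 : 2 * x / (3 * M) < (L + 1) * (L + 1) := by rw [hL]; exact Nat.lt_succ_sqrt _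
    rw [Nat.div_lt_iff_lt_mul (by positivity)] at h1
    calc 2 * x < (L + 1) * (L + 1) * (3 * M) := h1
      _ = 3 * M * ((L + 1) * (L + 1)) := by ring
  set N := M * (6 * L + 5) ^ 2 with hN
  set R := (Finset.range L).biUnion (fun l => goodT t M P c N l) with hR
  -- lower bound
  have hdisj : ((Finset.range L : Finset ℕ) : Set ℕ).PairwiseDisjoint (fun l => goodT t M P c N l) := by
    intro l _ l' _ hne
    rw [Function.onFun, Finset.disjoint_left]
    intro r h h'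
    rw [mem_goodT _ _ _ _ _ _ _ hP1] at h h'
    have key : ∀ w v : ℕ, w < v → M * (6 * v + 1) ^ 2 ≤ 3 * (P * r) + t →
        3 * (P * r) + t < M * (6 * w + 5) ^ 2 → False := by
      intro u v huv h5 h6
      have h7 : M * (6 * v + 1) ^ 2 < M * (6 * u + 5) ^ 2 := lt_of_le_of_lt h5 h6
      have h8 : (6 * v + 1) ^ 2 < (6 * u + 5) ^ 2 := lt_of_mul_lt_mul_left h7 (by omega)
      have h9 : 6 * v + 1 < 6 * u + 5 := lt_of_pow_lt_pow_left₀ 2 (by omega) h8
      omega
    rcases lt_or_gt_of_ne hne with h1 | h1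
    · exact key l l' h1 h'.2.2.1 h.2.2.2
    · exact key l' l h1 h.2.2.1 h'.2.2.2
  have hlow : 2 * (M : ℝ) * L ^ 2 / (3 * P) - 2 * L ≤ (R.card : ℝ) := by
    rw [hR, Finset.card_biUnion hdisj]
    push_cast
    have h1 : ∑ l ∈ Finset.range L, (2 * (M : ℝ) * (2 * l + 1) / (3 * P) - 2) ≤
        ∑ l ∈ Finset.range L, ((goodT t M P c N l).card : ℝ) := by
      refine Finset.sum_le_sum fun l hl => card_goodT t M P c N l (by omega) hP1 (Nat.mod_lt _ (by norm_num)) ?_
      have hl' := Finset.mem_range.mp hl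
      have : M * (6 * l + 5) ^ 2 ≤ N :=
        Nat.mul_le_mul_left _ (Nat.pow_le_pow_left (by omega) 2)
      calc M * (6 * l + 5) ^ 2 ≤ N := this
        _ ≤ P * N := Nat.le_mul_of_pos_left _ hP1
        _ ≤ 3 * (P * N) := by omega
    refine le_trans (le_of_eq ?_) h1
    have h2 : ∀ T : ℕ, ∑ l ∈ Finset.range T, (2 * (M : ℝ) * (2 * l + 1) / (3 * P) - 2) =
        2 * (M : ℝ) * T ^ 2 / (3 * P) - 2 * T := by
      intro T
      induction T with
      | zero => simp
      | succ T ih => rw [Finset.sum_range_succ, ih]; push_cast; ring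
    exact (h2 L).symm
  -- upper bound
  set H : ℕ → Finset ℤ := fun e => (Finset.Icc (-((L + 1 : ℕ) : ℤ)) ((L + 1 : ℕ) : ℤ)).filter
      (fun j => 3 ^ a ∣ 8 * (e + 2 ^ ρ * pentagonal j) + m) with hH
  have hsub : R ⊆ (zeroSet u x).biUnion
      (fun e => (H e).image (fun j => (8 * (e + 2 ^ ρ * pentagonal j) + m) / P)) := by
    intro r hr
    obtain ⟨l, hl, hrl⟩ := Finset.mem_biUnion.mp hr
    rw [mem_goodT _ _ _ _ _ _ _ hP1] at hrl
    obtain ⟨_, ⟨hr8, hr3⟩, hA, hB⟩ := hrl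
    have hlL := Finset.mem_range.mp hl
    have g1 := (mod8_aux' P m r hPodd hr8)
    have hlow' : 3 * m + t ≤ 3 * (P * r) + t := by
      have : M * 1 ≤ M * (6 * l + 1) ^ 2 :=
        Nat.mul_le_mul_left _ (Nat.one_le_pow _ _ (by omega))
      omega
    obtain ⟨n, hn⟩ : ∃ n, P * r = 8 * n + m := ⟨(P * r - m) / 8, by omega⟩
    have en : 3 * (P * r) + t = 24 * n + M := by omega
    rw [en] at hA hB
    have hcnt := cnt_odd M n l hM1 hA hB
    have hzero : gsum u M n = 0 := by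
      rw [hid n, ← hn]; exact hvan r (by omega)
    have hex : ∃ j : ℤ, M * pentagonal j ≤ n ∧
        u (n - M * pentagonal j) = 0 := by
      by_contra hcon
      push Not at hcon
      rw [gsum_of_odd u M n hcon, hcnt] at hzero
      have : ((2 * l + 1 : ℕ) : ZMod 2) = 1 :=
        (ZMod.natCast_eq_one_iff_odd).mpr (odd_two_mul_add_one l)
      rw [this] at hzero
      exact absurd hzero (by decide)
    obtain ⟨j, hj1, hj2⟩ := hex
    have hnx : n ≤ x := by
      have h1 : M * (6 * l + 5) ^ 2 ≤ M * (6 * L) ^ 2 :=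
        Nat.mul_le_mul_left _ (Nat.pow_le_pow_left (by omega) 2)
      have h2 : M * (6 * L) ^ 2 = 12 * (3 * M * (L * L)) := by ring
      omega
    have hjL : j ∈ Finset.Icc (-((L + 1 : ℕ) : ℤ)) ((L + 1 : ℕ) : ℤ) := by
      have h1 := two_mul_natCast_pentagonal j
      have h2 : (2 : ℤ) * (M * pentagonal j) < 3 * M * ((L + 1) * (L + 1)) := by
        exact_mod_cast (by omega : 2 * (M * pentagonal j) < 3 * M * ((L + 1) * (L + 1)))
      have h3 : (2 : ℤ) * pentagonal j < 3 * ((L + 1) * (L + 1)) := by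
        have hMZ : (0 : ℤ) < M := by exact_mod_cast hM1
        have : (M : ℤ) * (2 * pentagonal j) < M * (3 * ((L + 1) * (L + 1))) := by linarith
        exact lt_of_mul_lt_mul_left this hMZ.le
      rw [h1] at h3
      rw [Finset.mem_Icc]
      push_cast
      exact jbound j L h3
    refine Finset.mem_biUnion.mpr ⟨n - M * pentagonal j, ?_, Finset.mem_image.mpr ⟨j, ?_, ?_⟩⟩
    · unfold zeroSet
      rw [Finset.mem_filter, Finset.mem_range]; exact ⟨by omega, hj2⟩
    · rw [Finset.mem_filter]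
      refine ⟨hjL, r, ?_⟩
      rw [← hM, ← hP, Nat.sub_add_cancel hj1, ← hn]
    · rw [← hM, Nat.sub_add_cancel hj1, ← hn]
      exact Nat.mul_div_cancel_left _ hP1
  have h1 := (Finset.card_le_card hsub).trans Finset.card_biUnion_le
  have h2 : ∀ e ∈ zeroSet u x,
      ((((H e).image (fun j => (8 * (e + 2 ^ ρ * pentagonal j) + m) / P)).card : ℕ) : ℝ) ≤
      (2 * L + 3) / 3 ^ a + 1 := by
    intro e _
    have g1 := hits_le ρ m (L + 1) a e
    have g3 : (((H e).image (fun j => (8 * (e + 2 ^ ρ * pentagonal j) + m) / P)).card : ℝ) ≤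
        ((H e).card : ℝ) := by exact_mod_cast Finset.card_image_le
    refine g3.trans (g1.trans (le_of_eq ?_))
    push_cast; ring
  have h3 : (R.card : ℝ) ≤ ∑ e ∈ zeroSet u x,
      ((((H e).image (fun j => (8 * (e + 2 ^ ρ * pentagonal j) + m) / P)).card : ℕ) : ℝ) := by
    exact_mod_cast h1
  have h4 := h3.trans (Finset.sum_le_sum h2)
  rw [Finset.sum_const, nsmul_eq_mul] at h4
  refine le_trans (le_of_eq ?_) (hlow.trans h4)
  rw [hM, hP]; push_cast; ring

end Pool.Agent.H189Z.MP
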