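import Pool.Agent.H189Z.MP.Basic

set_option autoImplicit false

/-! task B-F1: sum over the large bad kernels -/

namespace Pool.Agent.H189Z.MP

open Pool.Agent.H307R2.OP (J PB Pr2 BT4 ESStmt SVStmt BadCount kap)

open Finset

/-- growth: `400 L ≤ y` with `L = 1 + (2M+4)(log₂ y + 1)` -/
theorem F1_log (M y : ℕ) (hy : 2 ^ (800 * (2 * M + 5) + 4) ≤ y) :
    400 * (1 + (2 * M + 4) * (Nat.log 2 y + 1)) ≤ y := by
  set k := Nat.log 2 y with hk
  have hy0 : y ≠ 0 := by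
    have : 0 < 2 ^ (800 * (2 * M + 5) + 4) := by positivity
    omega
  have h1 : 800 * (2 * M + 5) + 4 ≤ k := by
    rw [hk]
    exact (Nat.le_log_iff_pow_le (by norm_num) hy0).2 hy
  have h2 : 2 ^ k ≤ y := Nat.pow_log_le_self 2 hy0
  have h3 : ∀ k : ℕ, 4 ≤ k → k ^ 2 ≤ 2 ^ k := by
    intro k hk
    induction k, hk using Nat.le_induction with
    | base => norm_num
    | succ k hk ih =>
      rw [pow_succ 2 k]
      nlinarith
  have h4 := h3 k (by omega)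
  have h5 : 400 * (1 + (2 * M + 4) * (k + 1)) ≤ k ^ 2 := by
    have h6 : 1 + (2 * M + 4) * (k + 1) ≤ (2 * M + 5) * (k + 1) := by nlinarith
    have h7 : 400 * ((2 * M + 5) * (k + 1)) ≤ 800 * (2 * M + 5) * k := by nlinarith
    have h8 : 800 * (2 * M + 5) * k ≤ k * k := Nat.mul_le_mul_right k (by omega)
    calc 400 * (1 + (2 * M + 4) * (k + 1)) ≤ 400 * ((2 * M + 5) * (k + 1)) := by omega
      _ ≤ k * k := h7.trans h8
      _ = k ^ 2 := (sq k).symm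
  omega

open Classical in
/-- the count of the bad kernels up to `2^(e+1)` -/
theorem F1_count (h : BadAtCount) {w : ℕ} (hw : Pw w) {y I L e : ℕ} (hy : 3 ≤ y) (hyI : y ≤ I) (hIL : I ≤ 2 ^ L)
    (hL : 400 * L ≤ y) (he : e ≤ I + 1) :
    (((Icc 1 (2 ^ (e + 1))).filter (fun δ => Adm δ ∧ Bad w I y δ)).card : ℝ) ≤
      (2 : ℝ) ^ (8 * (L : ℝ) + 5 + ((e : ℝ) + 1) / 8) := by
  set m := 3 * (e + 1) / (y + 1) + 1 with hm
  have hq1 : (3 * (e + 1) / (y + 1)) * (y + 1) ≤ 3 * (e + 1) := Nat.div_mul_le_self _ _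
  have hq2 : 3 * (e + 1) ≤ (y + 1) * m := by
    have := Nat.lt_div_mul_add (a := 3 * (e + 1)) (b := y + 1) (by omega)
    rw [hm]
    nlinarith
  have hm1 : 1 ≤ m := Nat.le_add_left 1 _
  have hmI : m ≤ I + 3 := by
    have h3y : 3 ≤ y + 1 := by omega
    have h4y : 3 * (e + 1) / (y + 1) ≤ 3 * (e + 1) / 3 :=
      Nat.div_le_div_left h3y (by norm_num)
    have h2 : 3 * (e + 1) / 3 = e + 1 := by omega
    rw [h2] at h4y
    rw [hm]
    omega
  -- the inclusion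
  have hsub : (Icc 1 (2 ^ (e + 1))).filter (fun δ => Adm δ ∧ Bad w I y δ) ⊆
      (Icc y I).biUnion (fun i => (Icc 1 (2 ^ (e + 1))).filter (fun δ => Adm δ ∧ BadAt w I i δ)) := by
    intro δ hδ
    rw [mem_filter] at hδ
    obtain ⟨hδ1, hδ2, i, hi1, hi2, hi3⟩ := hδ
    rw [mem_biUnion]
    exact ⟨i, mem_Icc.2 ⟨hi1, hi2⟩, mem_filter.2 ⟨hδ1, hδ2, hi3⟩⟩
  have hterm : ∀ i ∈ Icc y I, (((Icc 1 (2 ^ (e + 1))).filter
      (fun δ => Adm δ ∧ BadAt w I i δ)).card : ℝ) ≤ 16 * (2 * m * (I : ℝ) ^ 4) ^ m := by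
    intro i hi
    rw [mem_Icc] at hi
    refine h w I i (2 ^ (e + 1)) m hw (by omega) (by omega) hm1 ?_
    rw [← pow_mul]
    apply Nat.pow_le_pow_right (by norm_num)
    calc (e + 1) * 3 = 3 * (e + 1) := by ring
      _ ≤ (y + 1) * m := hq2
      _ ≤ (i + 1) * m := Nat.mul_le_mul_right m (by omega)
  have h1 : (((Icc 1 (2 ^ (e + 1))).filter (fun δ => Adm δ ∧ Bad w I y δ)).card : ℝ) ≤
      (I + 1) * (16 * (2 * m * (I : ℝ) ^ 4) ^ m) := by
    have h2 : (((Icc 1 (2 ^ (e + 1))).filter (fun δ => Adm δ ∧ Bad w I y δ)).card : ℝ) ≤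
        ∑ i ∈ Icc y I, (((Icc 1 (2 ^ (e + 1))).filter (fun δ => Adm δ ∧ BadAt w I i δ)).card : ℝ) := by
      have := (card_le_card hsub).trans card_biUnion_le
      exact_mod_cast this
    refine h2.trans ((sum_le_sum hterm).trans ?_)
    rw [sum_const, nsmul_eq_mul]
    refine mul_le_mul_of_nonneg_right ?_ (by positivity)
    rw [Nat.card_Icc]
    have : I + 1 - y ≤ I + 1 := Nat.sub_le _ _
    exact_mod_cast this
  have hI3 : 3 ≤ I := by omega
  -- `2 m I⁴ ≤ 2^(7L)`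
  have h3 : 2 * m * I ^ 4 ≤ 2 ^ (7 * L) := by
    have h4 : 2 * m ≤ I ^ 3 := by
      have : 2 * (I + 3) ≤ I ^ 3 := by
        have h9 : 9 ≤ I ^ 2 := by nlinarith
        have h10 : I ^ 3 = I ^ 2 * I := by ring
        nlinarith
      omega
    calc 2 * m * I ^ 4 ≤ I ^ 3 * I ^ 4 := Nat.mul_le_mul_right _ h4
      _ = I ^ 7 := by ring
      _ ≤ (2 ^ L) ^ 7 := Nat.pow_le_pow_left hIL 7
      _ = 2 ^ (7 * L) := by rw [← pow_mul]; ring_nf
  have h5 : (2 * m * (I : ℝ) ^ 4) ^ m ≤ (2 : ℝ) ^ (7 * L * m) := by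
    have h6 : (2 * m * (I : ℝ) ^ 4) ≤ (2 : ℝ) ^ (7 * L) := by exact_mod_cast h3
    calc (2 * m * (I : ℝ) ^ 4) ^ m ≤ ((2 : ℝ) ^ (7 * L)) ^ m :=
          pow_le_pow_left₀ (by positivity) h6 m
      _ = (2 : ℝ) ^ (7 * L * m) := by rw [← pow_mul]
  -- exponent
  have h7 : 8 * (7 * L * m) ≤ 56 * L + (e + 1) := by
    set q := 3 * (e + 1) / (y + 1) with hq
    have h8 : 168 * L * q ≤ q * (y + 1) := by
      rw [mul_comm]
      exact Nat.mul_le_mul_left q (by omega)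
    have h9 : 56 * L * q ≤ e + 1 := by
      have : 168 * L * q = 3 * (56 * L * q) := by ring
      omega
    rw [hm]
    have : 8 * (7 * L * (q + 1)) = 56 * L * q + 56 * L := by ring
    omega
  have h7' : ((7 * L * m : ℕ) : ℝ) ≤ 7 * (L : ℝ) + ((e : ℝ) + 1) / 8 := by
    have : ((8 * (7 * L * m) : ℕ) : ℝ) ≤ ((56 * L + (e + 1) : ℕ) : ℝ) := by exact_mod_cast h7
    push_cast at this ⊢
    linarith
  have h10 : ((I : ℝ) + 1) ≤ (2 : ℝ) ^ ((L : ℝ) + 1) := by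
    have h11 : I + 1 ≤ 2 ^ (L + 1) := by
      have : 2 ^ (L + 1) = 2 ^ L + 2 ^ L := by ring
      have h12 : 1 ≤ 2 ^ L := Nat.one_le_two_pow
      omega
    have h13 : ((I + 1 : ℕ) : ℝ) ≤ ((2 ^ (L + 1) : ℕ) : ℝ) := by exact_mod_cast h11
    push_cast at h13
    have e1 : (2 : ℝ) ^ ((L : ℝ) + 1) = (2 : ℝ) ^ (L + 1) := by
      rw [← Nat.cast_succ, Real.rpow_natCast]
    rw [e1]
    exact h13
  calc (((Icc 1 (2 ^ (e + 1))).filter (fun δ => Adm δ ∧ Bad w I y δ)).card : ℝ)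
      ≤ (I + 1) * (16 * (2 * m * (I : ℝ) ^ 4) ^ m) := h1
    _ ≤ (2 : ℝ) ^ ((L : ℝ) + 1) * ((2 : ℝ) ^ (4 : ℝ) * (2 : ℝ) ^ (7 * (L : ℝ) + ((e : ℝ) + 1) / 8)) := by
        refine mul_le_mul h10 ?_ (by positivity) (by positivity)
        have h14 : (2 : ℝ) ^ (4 : ℝ) = 16 := by norm_num
        rw [h14]
        refine mul_le_mul_of_nonneg_left (h5.trans ?_) (by norm_num)
        rw [← Real.rpow_natCast]
        exact Real.rpow_le_rpow_of_exponent_le (by norm_num) h7'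
    _ = (2 : ℝ) ^ (8 * (L : ℝ) + 5 + ((e : ℝ) + 1) / 8) := by
        rw [← Real.rpow_add (by norm_num), ← Real.rpow_add (by norm_num)]
        congr 1
        ring

/-- task B-F1 -/
theorem badSum (h : BadAtCount) : BadSum := by
  classical
  intro M hM
  refine ⟨2 ^ (800 * (2 * M + 5) + 4), fun y hy I hI1 hI2 w hw => ?_⟩
  have hlog := F1_log M y hy
  set L := 1 + (2 * M + 4) * (Nat.log 2 y + 1) with hL
  have hL1 : 1 ≤ L := by omega
  have hy3 : 400 ≤ y := by omega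
  have hyI : y ≤ I := le_trans (Nat.le_self_pow (by omega) y) hI1
  have hIL : I ≤ 2 ^ L := by
    refine hI2.trans ?_
    have hLp : 2 ^ L = 2 * (2 ^ (Nat.log 2 y + 1)) ^ (2 * M + 4) := by
      rw [hL, pow_add, pow_one, mul_comm (2 * M + 4), pow_mul]
    rw [hLp]
    refine Nat.mul_le_mul_left 2 (Nat.pow_le_pow_left ?_ _)
    exact (Nat.lt_pow_succ_log_self (by norm_num) y).le
  set Z := y ^ (2 * M - 1) with hZ
  have hZy : y ≤ Z := Nat.le_self_pow (by omega) y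
  set T := (Icc 1 (3 * 2 ^ I)).filter
      (fun δ => Adm δ ∧ Bad w I y δ ∧ 2 ^ (8 * Z) < δ) with hT
  -- the dyadic class
  set g : ℕ → ℕ := fun δ => Nat.clog 2 δ - 1 with hg
  have hgT : ∀ δ ∈ T, 2 ^ (g δ) < δ ∧ δ ≤ 2 ^ (g δ + 1) := by
    intro δ hδ
    rw [hT, mem_filter] at hδ
    have h1 : 1 < δ := by
      have : 1 ≤ 2 ^ (8 * Z) := Nat.one_le_two_pow
      omega
    have h2 : 0 < Nat.clog 2 δ := Nat.clog_pos (by norm_num) h1
    constructor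
    · exact Nat.pow_pred_clog_lt_self (by norm_num) h1
    · have : g δ + 1 = Nat.clog 2 δ := by
        simp only [hg]
        omega
      rw [this]
      exact Nat.le_pow_clog (by norm_num) δ
  have hmaps : ∀ δ ∈ T, g δ ∈ Icc (8 * Z) (I + 1) := by
    intro δ hδ
    have h1 := hgT δ hδ
    rw [hT, mem_filter, mem_Icc] at hδ
    rw [mem_Icc]
    constructor
    · have : 2 ^ (8 * Z) < 2 ^ (g δ + 1) := lt_of_lt_of_le hδ.2.2.2 h1.2
      have := (Nat.pow_lt_pow_iff_right (by norm_num)).1 this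
      omega
    · have h2 : 2 ^ (g δ) < 2 ^ (I + 2) := by
        refine lt_of_lt_of_le h1.1 (hδ.1.2.trans ?_)
        have : 2 ^ (I + 2) = 4 * 2 ^ I := by ring
        have : 0 < 2 ^ I := by positivity
        omega
      have := (Nat.pow_lt_pow_iff_right (by norm_num)).1 h2
      omega
  have hfib := sum_fiberwise_of_maps_to (s := T) (t := Icc (8 * Z) (I + 1)) (g := g) hmaps
    (fun δ => 1 / Real.sqrt (δ : ℝ))
  rw [← hfib]
  have hinner : ∀ e ∈ Icc (8 * Z) (I + 1), ∑ δ ∈ T.filter (fun δ => g δ = e), 1 / Real.sqrt (δ : ℝ) ≤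
      (2 : ℝ) ^ (8 * (L : ℝ) + 6 - 3 * (Z : ℝ)) := by
    intro e he
    rw [mem_Icc] at he
    have h1 : ∀ δ ∈ T.filter (fun δ => g δ = e), 1 / Real.sqrt (δ : ℝ) ≤
        (2 : ℝ) ^ (-(e : ℝ) / 2) := by
      intro δ hδ
      rw [mem_filter] at hδ
      have h2 := (hgT δ hδ.1).1
      rw [hδ.2] at h2
      have h3 : (2 : ℝ) ^ (e : ℝ) ≤ (δ : ℝ) := by
        rw [Real.rpow_natCast]
        exact_mod_cast h2.le
      have h4 : (2 : ℝ) ^ ((e : ℝ) / 2) ≤ Real.sqrt δ := by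
        apply Real.le_sqrt_of_sq_le
        rw [← Real.rpow_natCast, ← Real.rpow_mul (by norm_num)]
        convert h3 using 2
        push_cast
        ring
      have h5 : (2 : ℝ) ^ (-(e : ℝ) / 2) = 1 / (2 : ℝ) ^ ((e : ℝ) / 2) := by
        rw [neg_div, Real.rpow_neg (by norm_num), one_div]
      rw [h5]
      exact one_div_le_one_div_of_le (by positivity) h4
    refine (sum_le_sum h1).trans ?_
    rw [sum_const, nsmul_eq_mul]
    have h6 : T.filter (fun δ => g δ = e) ⊆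
        (Icc 1 (2 ^ (e + 1))).filter (fun δ => Adm δ ∧ Bad w I y δ) := by
      intro δ hδ
      rw [mem_filter] at hδ
      have h2 := (hgT δ hδ.1).2
      rw [hδ.2] at h2
      have h3 := hδ.1
      rw [hT, mem_filter, mem_Icc] at h3
      exact mem_filter.2 ⟨mem_Icc.2 ⟨h3.1.1, h2⟩, h3.2.1, h3.2.2.1⟩
    have h7 : ((T.filter (fun δ => g δ = e)).card : ℝ) ≤
        (2 : ℝ) ^ (8 * (L : ℝ) + 5 + ((e : ℝ) + 1) / 8) := by
      refine le_trans ?_ (F1_count h hw (by omega) hyI hIL hlog he.2)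
      exact_mod_cast card_le_card h6
    calc ((T.filter (fun δ => g δ = e)).card : ℝ) * (2 : ℝ) ^ (-(e : ℝ) / 2)
        ≤ (2 : ℝ) ^ (8 * (L : ℝ) + 5 + ((e : ℝ) + 1) / 8) * (2 : ℝ) ^ (-(e : ℝ) / 2) :=
          mul_le_mul_of_nonneg_right h7 (by positivity)
      _ = (2 : ℝ) ^ (8 * (L : ℝ) + 5 + ((e : ℝ) + 1) / 8 + -(e : ℝ) / 2) := by
          rw [← Real.rpow_add (by norm_num)]
      _ ≤ (2 : ℝ) ^ (8 * (L : ℝ) + 6 - 3 * (Z : ℝ)) := by
          apply Real.rpow_le_rpow_of_exponent_le (by norm_num)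
          have : ((8 * Z : ℕ) : ℝ) ≤ (e : ℝ) := by exact_mod_cast he.1
          push_cast at this
          linarith
  refine (sum_le_sum hinner).trans ?_
  rw [sum_const, nsmul_eq_mul, Nat.card_Icc]
  have hc : ((I + 1 + 1 - 8 * Z : ℕ) : ℝ) ≤ (2 : ℝ) ^ ((L : ℝ) + 1) := by
    have h11 : I + 1 + 1 - 8 * Z ≤ 2 ^ (L + 1) := by
      have h1 : 2 ^ (L + 1) = 2 ^ L + 2 ^ L := by ring
      have h12 : 2 ≤ 2 ^ L := by
        calc 2 = 2 ^ 1 := rfl
          _ ≤ 2 ^ L := Nat.pow_le_pow_right (by norm_num) hL1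
      omega
    have h13 : ((I + 1 + 1 - 8 * Z : ℕ) : ℝ) ≤ ((2 ^ (L + 1) : ℕ) : ℝ) := by exact_mod_cast h11
    have e1 : (2 : ℝ) ^ ((L : ℝ) + 1) = (2 : ℝ) ^ (L + 1) := by
      rw [← Nat.cast_succ, Real.rpow_natCast]
    rw [e1]
    refine h13.trans (le_of_eq ?_)
    push_cast
    rfl
  calc ((I + 1 + 1 - 8 * Z : ℕ) : ℝ) * (2 : ℝ) ^ (8 * (L : ℝ) + 6 - 3 * (Z : ℝ))
      ≤ (2 : ℝ) ^ ((L : ℝ) + 1) * (2 : ℝ) ^ (8 * (L : ℝ) + 6 - 3 * (Z : ℝ)) :=
        mul_le_mul_of_nonneg_right hc (by positivity)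
    _ = (2 : ℝ) ^ ((L : ℝ) + 1 + (8 * (L : ℝ) + 6 - 3 * (Z : ℝ))) := by
        rw [← Real.rpow_add (by norm_num)]
    _ ≤ (2 : ℝ) ^ (-((2 * Z : ℕ) : ℝ)) := by
        apply Real.rpow_le_rpow_of_exponent_le (by norm_num)
        have h1 : ((400 * L : ℕ) : ℝ) ≤ (y : ℝ) := by exact_mod_cast hlog
        have h2 : (y : ℝ) ≤ (Z : ℝ) := by exact_mod_cast hZy
        have h3 : (1 : ℝ) ≤ (L : ℝ) := by exact_mod_cast hL1
        push_cast at h1 ⊢
        linarith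
    _ = 1 / (2 : ℝ) ^ (2 * Z) := by
        rw [Real.rpow_neg (by norm_num), Real.rpow_natCast, one_div]

end Pool.Agent.H189Z.MP
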