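import Pool.Agent.H189Z.MP.Basic

set_option autoImplicit false

/-!
# Odd values of the partition function: the number of small bad kernels (task B-F2)
-/

namespace Pool.Agent.H189Z.MP

open Pool.Agent.H307R2.OP (J PB Pr2 BT4 ESStmt SVStmt BadCount kap)

open Finset

theorem f2_pow {I m : ℕ} (hI : 2 ≤ I) (hm : m ≤ I) :
    16 * (2 * (m : ℝ) * (I : ℝ) ^ 4) ^ m ≤ (2 : ℝ) ^ (4 + 6 * (m : ℝ) * Real.logb 2 I) := by
  have hI0 : (2 : ℝ) ≤ I := by exact_mod_cast hI
  have hm' : (m : ℝ) ≤ I := by exact_mod_cast hm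
  have hIpos : (0 : ℝ) < I := by linarith
  have h1 : (2 : ℝ) * m * (I : ℝ) ^ 4 ≤ (I : ℝ) ^ 6 := by
    have h2 : (2 : ℝ) * m ≤ (I : ℝ) * I := mul_le_mul hI0 hm' (Nat.cast_nonneg _) hIpos.le
    calc (2 : ℝ) * m * (I : ℝ) ^ 4 ≤ (I : ℝ) * I * (I : ℝ) ^ 4 :=
          mul_le_mul_of_nonneg_right h2 (by positivity)
      _ = _ := by ring
  have h3 : (2 : ℝ) ^ (4 + 6 * (m : ℝ) * Real.logb 2 I) = 16 * ((I : ℝ) ^ 6) ^ m := by
    have h4 : (2 : ℝ) ^ (Real.logb 2 I) = I :=
      Real.rpow_logb (by norm_num) (by norm_num) hIpos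
    have h5 : 6 * (m : ℝ) * Real.logb 2 I = Real.logb 2 I * ((6 * m : ℕ) : ℝ) := by
      push_cast; ring
    rw [Real.rpow_add (by norm_num), h5, Real.rpow_mul (by norm_num), h4, Real.rpow_natCast,
      pow_mul]
    norm_num
  rw [h3]
  have h6 : (0 : ℝ) ≤ 2 * m * (I : ℝ) ^ 4 := by positivity
  gcongr

theorem f2_large (M : ℕ) {η : ℝ} (hη : 0 < η) : ∃ y0 : ℕ, ∀ y : ℕ, y0 ≤ y →
    288 * (1 + (2 * M + 4) * Real.logb 2 y) ≤ η * y := by
  have h1 := Real.isLittleO_log_id_atTop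
  have hc : 0 < η * Real.log 2 / (576 * (2 * M + 4)) := by
    have := Real.log_pos (by norm_num : (1 : ℝ) < 2)
    positivity
  have h2 := (Asymptotics.isLittleO_iff.1 h1 hc)
  obtain ⟨x0, hx0⟩ := Filter.eventually_atTop.1 h2
  obtain ⟨n0, hn0⟩ := exists_nat_ge (max x0 (576 / η))
  refine ⟨n0 + 1, fun y hy => ?_⟩
  have hy1 : (1 : ℝ) ≤ y := by exact_mod_cast (by omega : 1 ≤ y)
  have hyn : (n0 : ℝ) ≤ y := by exact_mod_cast (by omega : n0 ≤ y)
  have h3 := hx0 y ((le_max_left _ _).trans (hn0.trans hyn))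
  have h4 : 576 / η ≤ y := (le_max_right _ _).trans (hn0.trans hyn)
  rw [div_le_iff₀ hη] at h4
  simp only [id, Real.norm_eq_abs] at h3
  rw [abs_of_nonneg (Real.log_nonneg hy1), abs_of_nonneg (by linarith : (0 : ℝ) ≤ y)] at h3
  have hl2 := Real.log_pos (by norm_num : (1 : ℝ) < 2)
  have h5 : (2 * M + 4) * Real.logb 2 y ≤ η * y / 576 := by
    unfold Real.logb
    have h6 : (0 : ℝ) < 2 * M + 4 := by positivity
    have h7 : (2 * (M : ℝ) + 4) * Real.log y ≤ η * Real.log 2 / 576 * y := by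
      calc (2 * (M : ℝ) + 4) * Real.log y ≤
            (2 * M + 4) * (η * Real.log 2 / (576 * (2 * M + 4)) * y) :=
            mul_le_mul_of_nonneg_left h3 h6.le
        _ = η * Real.log 2 / 576 * y := by field_simp
    rw [← mul_div_assoc, div_le_iff₀ hl2]
    linarith
  linarith

theorem f2_log {M y I : ℕ} (hy : 1 ≤ y) (hI : 1 ≤ I) (hI2 : I ≤ 2 * y ^ (2 * M + 4)) :
    Real.logb 2 I ≤ 1 + (2 * M + 4) * Real.logb 2 y := by
  have hy0 : (0 : ℝ) < y := by exact_mod_cast hy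
  have h1 : (I : ℝ) ≤ 2 * (y : ℝ) ^ (2 * M + 4) := by exact_mod_cast hI2
  have h2 : Real.logb 2 I ≤ Real.logb 2 (2 * (y : ℝ) ^ (2 * M + 4)) :=
    Real.logb_le_logb_of_le (by norm_num) (by exact_mod_cast hI) h1
  rw [Real.logb_mul (by norm_num) (by positivity), Real.logb_self_eq_one (by norm_num),
    Real.logb_pow] at h2
  push_cast at h2
  exact h2

/-- task B-F2 -/
theorem badNum (h : BadAtCount) : BadNum := by
  classical
  intro M hM η hη
  obtain ⟨y1, hy1⟩ := f2_large M hη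
  refine ⟨max 3 y1, fun y hy I hI1 hI2 w hw => ?_⟩
  have hy3 : 3 ≤ y := (le_max_left _ _).trans hy
  have hyy : y1 ≤ y := (le_max_right _ _).trans hy
  have hbig := hy1 y hyy
  have hyI : y ≤ I := by
    calc y = y ^ 1 := (pow_one y).symm
      _ ≤ y ^ (2 * M + 4) := Nat.pow_le_pow_right (by omega) (by omega)
      _ ≤ I := hI1
  have hlog := f2_log (by omega) (by omega) hI2
  have hell : 288 * Real.logb 2 I ≤ η * y := by linarith
  have hell1 : 1 ≤ Real.logb 2 I := by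
    have h1 : Real.logb 2 2 ≤ Real.logb 2 I :=
      Real.logb_le_logb_of_le (by norm_num) (by norm_num) (by exact_mod_cast (by omega : 2 ≤ I))
    rwa [Real.logb_self_eq_one (by norm_num)] at h1
  have h24 : ∀ e : ℕ, e ≤ 2 * M → 24 * y ^ e ≤ I := by
    intro e he
    calc 24 * y ^ e ≤ y ^ 4 * y ^ e := by
          apply Nat.mul_le_mul_right
          calc 24 ≤ 3 ^ 4 := by norm_num
            _ ≤ y ^ 4 := Nat.pow_le_pow_left hy3 4
      _ = y ^ (4 + e) := (pow_add _ _ _).symm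
      _ ≤ y ^ (2 * M + 4) := Nat.pow_le_pow_right (by omega) (by omega)
      _ ≤ I := hI1
  have hypos : (0 : ℝ) < y := by exact_mod_cast (by omega : 0 < y)
  constructor
  · -- first part
    set m : ℕ := 24 * y ^ (2 * M - 2) with hm
    have hm1 : 1 ≤ m := by
      have : 0 < y ^ (2 * M - 2) := Nat.pow_pos (by omega)
      omega
    have hmI : m ≤ I := h24 _ (by omega)
    have hcount : ∀ i ∈ Icc y I,
        (((Icc 1 (2 ^ (8 * y ^ (2 * M - 1)))).filter (fun δ => Adm δ ∧ BadAt w I i δ)).card : ℝ) ≤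
          16 * (2 * m * (I : ℝ) ^ 4) ^ m := by
      intro i hi
      rw [Finset.mem_Icc] at hi
      refine h w I i _ m hw (by omega) (by omega) hm1 ?_
      rw [← pow_mul]
      refine Nat.pow_le_pow_right (by norm_num) ?_
      calc 8 * y ^ (2 * M - 1) * 3 = y * (24 * y ^ (2 * M - 2)) := by
            have : y ^ (2 * M - 1) = y * y ^ (2 * M - 2) := by
              rw [← pow_succ']; congr 1; omega
            rw [this]; ring
        _ ≤ (i + 1) * m := Nat.mul_le_mul_right _ (by omega)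
    have hsub : (Icc 1 (2 ^ (8 * y ^ (2 * M - 1)))).filter (fun δ => Adm δ ∧ Bad w I y δ) ⊆
        (Icc y I).biUnion (fun i =>
          (Icc 1 (2 ^ (8 * y ^ (2 * M - 1)))).filter (fun δ => Adm δ ∧ BadAt w I i δ)) := by
      intro δ hδ
      rw [Finset.mem_filter] at hδ
      obtain ⟨h1, h2, i, hi1, hi2, hi3⟩ := hδ
      rw [Finset.mem_biUnion]
      exact ⟨i, Finset.mem_Icc.2 ⟨hi1, hi2⟩, Finset.mem_filter.2 ⟨h1, h2, hi3⟩⟩
    have hcard : (((Icc 1 (2 ^ (8 * y ^ (2 * M - 1)))).filter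
        (fun δ => Adm δ ∧ Bad w I y δ)).card : ℝ) ≤ I * (16 * (2 * m * (I : ℝ) ^ 4) ^ m) := by
      calc (((Icc 1 (2 ^ (8 * y ^ (2 * M - 1)))).filter
            (fun δ => Adm δ ∧ Bad w I y δ)).card : ℝ) ≤
            ∑ i ∈ Icc y I, (((Icc 1 (2 ^ (8 * y ^ (2 * M - 1)))).filter
              (fun δ => Adm δ ∧ BadAt w I i δ)).card : ℝ) := by
              exact_mod_cast (Finset.card_le_card hsub).trans Finset.card_biUnion_le
        _ ≤ ∑ i ∈ Icc y I, 16 * (2 * m * (I : ℝ) ^ 4) ^ m := Finset.sum_le_sum hcount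
        _ = ((Icc y I).card : ℝ) * (16 * (2 * m * (I : ℝ) ^ 4) ^ m) := by
            rw [Finset.sum_const, nsmul_eq_mul]
        _ ≤ I * (16 * (2 * m * (I : ℝ) ^ 4) ^ m) := by
            have : ((Icc y I).card : ℝ) ≤ I := by
              rw [Nat.card_Icc]
              exact_mod_cast (by omega : I + 1 - y ≤ I)
            gcongr
    refine hcard.trans ?_
    have hI' : (I : ℝ) = (2 : ℝ) ^ (Real.logb 2 I) :=
      (Real.rpow_logb (by norm_num) (by norm_num)
        (by exact_mod_cast (by omega : 0 < I))).symm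
    calc (I : ℝ) * (16 * (2 * m * (I : ℝ) ^ 4) ^ m) ≤
          (2 : ℝ) ^ (Real.logb 2 I) * (2 : ℝ) ^ (4 + 6 * (m : ℝ) * Real.logb 2 I) := by
          rw [← hI']
          exact mul_le_mul_of_nonneg_left (f2_pow (by omega) hmI) (Nat.cast_nonneg _)
      _ = (2 : ℝ) ^ (Real.logb 2 I + (4 + 6 * (m : ℝ) * Real.logb 2 I)) :=
          (Real.rpow_add (by norm_num) _ _).symm
      _ ≤ (2 : ℝ) ^ (η * (y : ℝ) ^ (2 * M - 1)) := by
          refine Real.rpow_le_rpow_of_exponent_le (by norm_num) ?_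
          have hmr : (1 : ℝ) ≤ m := by exact_mod_cast hm1
          have hmy : (m : ℝ) = 24 * (y : ℝ) ^ (2 * M - 2) := by rw [hm]; push_cast; ring
          have e1 : Real.logb 2 I + (4 + 6 * (m : ℝ) * Real.logb 2 I) ≤
              12 * (m : ℝ) * Real.logb 2 I := by nlinarith
          have e2 : (y : ℝ) ^ (2 * M - 1) = y * (y : ℝ) ^ (2 * M - 2) := by
            rw [← pow_succ']; congr 1; omega
          have e3 : (0 : ℝ) < (y : ℝ) ^ (2 * M - 2) := by positivity
          calc Real.logb 2 I + (4 + 6 * (m : ℝ) * Real.logb 2 I) ≤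
                12 * (m : ℝ) * Real.logb 2 I := e1
            _ = (288 * Real.logb 2 I) * (y : ℝ) ^ (2 * M - 2) := by rw [hmy]; ring
            _ ≤ (η * y) * (y : ℝ) ^ (2 * M - 2) := mul_le_mul_of_nonneg_right hell e3.le
            _ = η * (y : ℝ) ^ (2 * M - 1) := by rw [e2]; ring
  · -- second part
    intro j hj
    set m : ℕ := 24 * y ^ (2 * j - 1) with hm
    have hm1 : 1 ≤ m := by
      have : 0 < y ^ (2 * j - 1) := Nat.pow_pos (by omega)
      omega
    have hmI : m ≤ I := h24 _ (by omega)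
    have hk : kap M y (j + 1) = y ^ (2 * M - 2 * j) := by
      unfold kap; congr 1; omega
    have hk1 : 1 ≤ kap M y (j + 1) := by
      rw [hk]; exact Nat.one_le_pow _ _ (by omega)
    have hb := h w I (kap M y (j + 1)) (2 ^ (8 * y ^ (2 * M - 1))) m hw (by omega) hk1 hm1 (by
      rw [← pow_mul]
      refine Nat.pow_le_pow_right (by norm_num) ?_
      calc 8 * y ^ (2 * M - 1) * 3 = 24 * y ^ (2 * M - 1) := by ring
        _ ≤ 24 * y ^ ((2 * M - 2 * j) + (2 * j - 1)) :=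
            Nat.mul_le_mul_left _ (Nat.pow_le_pow_right (by omega) (by omega))
        _ = y ^ (2 * M - 2 * j) * m := by rw [pow_add, hm]; ring
        _ ≤ (kap M y (j + 1) + 1) * m := Nat.mul_le_mul_right _ (by rw [hk]; omega))
    refine hb.trans ((f2_pow (by omega) hmI).trans ?_)
    refine Real.rpow_le_rpow_of_exponent_le (by norm_num) ?_
    have hmr : (1 : ℝ) ≤ m := by exact_mod_cast hm1
    have hmy : (m : ℝ) ≤ 24 * (y : ℝ) ^ (2 * j) := by
      rw [hm]; push_cast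
      have : (y : ℝ) ^ (2 * j - 1) ≤ (y : ℝ) ^ (2 * j) :=
        pow_le_pow_right₀ (by exact_mod_cast (by omega : 1 ≤ y)) (by omega)
      linarith
    have e1 : 4 + 6 * (m : ℝ) * Real.logb 2 I ≤ 12 * (m : ℝ) * Real.logb 2 I := by nlinarith
    have e3 : (0 : ℝ) < (y : ℝ) ^ (2 * j) := by positivity
    calc 4 + 6 * (m : ℝ) * Real.logb 2 I ≤ 12 * (m : ℝ) * Real.logb 2 I := e1
      _ ≤ 12 * (24 * (y : ℝ) ^ (2 * j)) * Real.logb 2 I := by
          have : (0 : ℝ) ≤ Real.logb 2 I := by linarith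
          gcongr
      _ = (288 * Real.logb 2 I) * (y : ℝ) ^ (2 * j) := by ring
      _ ≤ (η * y) * (y : ℝ) ^ (2 * j) := mul_le_mul_of_nonneg_right hell e3.le
      _ = η * (y : ℝ) ^ (2 * j + 1) := by rw [pow_succ]; ring

end Pool.Agent.H189Z.MP
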