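import Pool.Agent.H189Z.MP.Basic

set_option autoImplicit false

/-!
# Task B-FIX: the number of `u` for a fixed choice of the small primes
-/

namespace Pool.Agent.H189Z.MP

open Pool.Agent.H307R2.OP (J PB Pr2 BT4 ESStmt SVStmt BadCount kap)

open Finset

/-- a prime outside `A` does not divide the product of `A` -/
theorem fix_not_dvd {A : Finset ℕ} (hA : ∀ q ∈ A, q.Prime) {p : ℕ} (hp : p.Prime) (hpA : p ∉ A) :
    ¬ p ∣ ∏ q ∈ A, q := by
  intro h
  obtain ⟨q, hq, hpq⟩ := (hp.prime.dvd_finsetProd_iff _).mp h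
  have := (Nat.prime_dvd_prime_iff_eq hp (hA q hq)).mp hpq
  exact hpA (this ▸ hq)

theorem fix_mod {m d : ℕ} (w s u : ℕ) :
    (m ∣ d * s ^ 2 + w * (u % m) ^ 2) ↔ (m ∣ d * s ^ 2 + w * u ^ 2) := by
  have h : d * s ^ 2 + w * (u % m) ^ 2 ≡ d * s ^ 2 + w * u ^ 2 [MOD m] :=
    Nat.ModEq.add_left _ (Nat.ModEq.mul_left _ ((Nat.mod_modEq u m).pow 2))
  exact h.dvd_iff (dvd_refl m)

/-- the number of classes modulo the product -/
theorem fix_classes (w δ s : ℕ) (A : Finset ℕ) (hA : ∀ q ∈ A, q.Prime) :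
    ((range (∏ q ∈ A, q)).filter (fun a => (∏ q ∈ A, q) ∣ δ * s ^ 2 + w * a ^ 2)).card ≤
      ∏ q ∈ A, (Om w δ s q).card := by
  rw [← Finset.card_pi]
  refine card_le_card_of_injOn (fun a q _ => a % q) ?_ ?_
  · intro a ha
    rw [mem_coe, mem_filter, mem_range] at ha
    rw [mem_coe, mem_pi]
    intro q hq
    unfold Om
    rw [mem_filter, mem_range]
    refine ⟨Nat.mod_lt _ (hA q hq).pos, ?_⟩
    exact (fix_mod w s a).mpr ((dvd_prod_of_mem _ hq).trans ha.2)
  · intro a ha b hb hab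
    rw [mem_coe, mem_filter, mem_range] at ha hb
    have h1 : ∀ q ∈ A, a % q = b % q := fun q hq => congrFun (congrFun hab q) hq
    have h2 : ((∏ q ∈ A, q : ℕ) : ℤ) ∣ (b : ℤ) - a := by
      push_cast
      refine Finset.prod_dvd_of_coprime ?_ ?_
      · intro q hq q' hq' hne
        change IsCoprime (q : ℤ) (q' : ℤ)
        rw [Nat.isCoprime_iff_coprime]
        exact (Nat.coprime_primes (hA q hq) (hA q' hq')).mpr hne
      · intro q hq
        exact (Nat.modEq_iff_dvd).mp (h1 q hq)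
    have h3 : a ≡ b [MOD ∏ q ∈ A, q] := (Nat.modEq_iff_dvd).mpr h2
    rw [Nat.ModEq, Nat.mod_eq_of_lt ha.1, Nat.mod_eq_of_lt hb.1] at h3
    exact h3

open Classical in
theorem fix (h1 : QRStmt) (h2 : SVStmt) : FixStmt := by
  intro e w δ s U D z Kk A P hee hδ hD hA hP hzK hK hsum
  have he3 : 0 < e ∧ e ≤ 3 := by omega
  have hAp : ∀ q ∈ A, q.Prime := fun q hq => (hA q hq).1
  have hm1 : 1 ≤ ∏ q ∈ A, q := Finset.prod_pos fun q hq => (hAp q hq).pos
  set m : ℕ := ∏ q ∈ A, q with hm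
  have hmR : (∏ q ∈ A, (q : ℝ)) = (m : ℝ) := by rw [hm]; push_cast; rfl
  rw [hmR]
  set X : Finset ℕ := (range (U + 1)).filter (fun u => ∃ p : ℕ, p.Prime ∧ z < p ∧ p ∉ A ∧
      e * (m * p) = δ * s ^ 2 + w * u ^ 2) with hX
  set B : ℝ := 16 * ((U : ℝ) / (m : ℝ) + 1) *
      Real.exp (-∑ p ∈ P, ((Om w δ s p).card : ℝ) / p) + (D : ℝ) ^ 6 with hB
  have hB0 : 0 ≤ B := by positivity
  have hJ : ∀ q, 0 ≤ 1 + K w q δ := by
    intro q
    rcases h1.val w q δ with h | h | h <;> rw [h] <;> norm_num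
  have hJ2 : ∀ q, 1 + K w q δ ≤ 2 := by
    intro q
    rcases h1.val w q δ with h | h | h <;> rw [h] <;> norm_num
  have hprod0 : 0 ≤ ∏ q ∈ A, (1 + K w q δ) := prod_nonneg fun q _ => hJ q
  change (X.card : ℝ) ≤ (∏ q ∈ A, (1 + K w q δ)) * B
  by_cases hs : ∃ q ∈ A, q ∣ s
  · obtain ⟨q, hq, hqs⟩ := hs
    have hqp := hAp q hq
    have hq5 := (hA q hq).2
    have hXe : X = ∅ := by
      rw [hX, filter_eq_empty_iff]
      rintro u - ⟨p, hp, -, hpA, he⟩
      have hqm : q ∣ m := dvd_prod_of_mem _ hq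
      have d1 : q ∣ δ * s ^ 2 := (dvd_pow hqs two_ne_zero).mul_left _
      have d2 : q ∣ δ * s ^ 2 + w * u ^ 2 := by
        rw [← he]; exact (hqm.mul_right p).mul_left e
      have d3 : q ∣ w * u ^ 2 := (Nat.dvd_add_right d1).mp d2
      have d4 : q ∣ u := by
        rcases hqp.dvd_mul.mp d3 with h | h
        · exact absurd h (hδ.not_dvd hqp (by omega))
        · exact hqp.dvd_of_dvd_pow h
      have d5 : q ^ 2 ∣ e * (m * p) := by
        rw [he]
        exact dvd_add ((pow_dvd_pow_of_dvd hqs 2).mul_left _)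
          ((pow_dvd_pow_of_dvd d4 2).mul_left _)
      have hm' : m = q * ∏ q' ∈ A.erase q, q' := by
        rw [hm, mul_prod_erase A (fun q => q) hq]
      have d6 : q ∣ e * ((∏ q' ∈ A.erase q, q') * p) := by
        have : q * q ∣ q * (e * ((∏ q' ∈ A.erase q, q') * p)) := by
          rw [← sq]
          convert d5 using 1
          rw [hm']; ring
        exact Nat.dvd_of_mul_dvd_mul_left hqp.pos this
      rcases hqp.dvd_mul.mp d6 with h | h
      · have := Nat.le_of_dvd he3.1 h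
        omega
      · rcases hqp.dvd_mul.mp h with h | h
        · exact fix_not_dvd (fun q' hq' => hAp q' (mem_of_mem_erase hq')) hqp
            (notMem_erase q A) h
        · have := (Nat.prime_dvd_prime_iff_eq hqp hp).mp h
          exact hpA (this ▸ hq)
    rw [hXe, card_empty, Nat.cast_zero]
    exact mul_nonneg hprod0 hB0
  · push Not at hs
    set C : Finset ℕ := (range m).filter (fun a => m ∣ δ * s ^ 2 + w * a ^ 2) with hC
    have hCc : (C.card : ℝ) ≤ ∏ q ∈ A, (1 + K w q δ) := by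
      have h3 := fix_classes w δ s A hAp
      have h4 : (C.card : ℝ) ≤ ((∏ q ∈ A, (Om w δ s q).card : ℕ) : ℝ) := by
        exact_mod_cast h3
      refine h4.trans (le_of_eq ?_)
      push_cast
      exact prod_congr rfl fun q hq => h1.om_card w δ s q hδ (hAp q hq) (hA q hq).2 (hs q hq)
    set Xa : ℕ → Finset ℕ := fun a => (range (U + 1)).filter
      (fun u => u % m = a % m ∧ ∀ p ∈ P, u % p ∉ Om w δ s p) with hXa
    have hsub : X ⊆ C.biUnion Xa := by
      intro u hu
      rw [hX, mem_filter] at hu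
      obtain ⟨huU, p, hp, hzp, hpA, he⟩ := hu
      rw [mem_biUnion]
      refine ⟨u % m, ?_, ?_⟩
      · rw [hC, mem_filter, mem_range]
        refine ⟨Nat.mod_lt _ hm1, (fix_mod w s u).mpr ?_⟩
        rw [← he]
        exact (Dvd.intro p rfl).mul_left e
      · rw [hXa, mem_filter]
        refine ⟨huU, (Nat.mod_mod _ _).symm, ?_⟩
        intro p0 hp0 hmem
        obtain ⟨hp0p, hp064, hp0z, hp0A⟩ := hP p0 hp0
        unfold Om at hmem
        rw [mem_filter] at hmem
        have h3 := (fix_mod w s u).mp hmem.2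
        rw [← he] at h3
        rcases hp0p.dvd_mul.mp h3 with h | h
        · have := Nat.le_of_dvd he3.1 h
          omega
        · rcases hp0p.dvd_mul.mp h with h | h
          · exact fix_not_dvd hAp hp0p hp0A h
          · have := (Nat.prime_dvd_prime_iff_eq hp0p hp).mp h
            omega
    have hXab : ∀ a ∈ C, ((Xa a).card : ℝ) ≤ B := by
      intro a _
      refine h2 m a U D z Kk P (Om w δ s) hm1 hD ?_ ?_ hzK hK hsum
      · intro p hp
        obtain ⟨h3, h4, h5, h6⟩ := hP p hp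
        exact ⟨h3, h4, h5, (Nat.Prime.coprime_iff_not_dvd h3).mpr (fix_not_dvd hAp h3 h6)⟩
      · intro p hp
        obtain ⟨h3, h4, h5, h6⟩ := hP p hp
        refine ⟨?_, ?_⟩
        · by_cases hps : p ∣ s
          · rw [h1.om_zero w δ s p hδ h3 (by omega) hps]
            simp
          · have h7 := h1.om_card w δ s p hδ h3 (by omega) hps
            have h8 : ((Om w δ s p).card : ℝ) ≤ 2 := by rw [h7]; exact hJ2 p
            exact_mod_cast h8
        · intro x hx
          unfold Om at hx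
          rw [mem_filter, mem_range] at hx
          exact hx.1
    have h3 : (X.card : ℝ) ≤ ∑ a ∈ C, ((Xa a).card : ℝ) := by
      have := (card_le_card hsub).trans card_biUnion_le
      exact_mod_cast this
    refine h3.trans ((sum_le_card_nsmul _ _ B hXab).trans ?_)
    rw [nsmul_eq_mul]
    exact mul_le_mul_of_nonneg_right hCc hB0

end Pool.Agent.H189Z.MP
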