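import Pool.Agent.H189Z.MP.Defs
import Pool.Agent.H307R2.OP.STR

set_option autoImplicit false

/-!
# Task KP4 (helper457): a small prime `q ≡ c (mod 8)` with `(-w δ | q) = -1`

Take any such prime `l` (Dirichlet) and a small element `α ≡ 1 (mod 24 δ)` of the ring
`ℤ[√ψ, √E]` in a prime above `l`; the norm of `α` is `l n` with a small `n ≡ ± 3 (mod 8)`.
-/

namespace Pool.Agent.H189Z.MP

namespace KP

/-- the relative norm to the field of `√ψ`, first coordinate -/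
def nA (ψ E x0 x1 x2 x3 : ℤ) : ℤ := x0 ^ 2 + ψ * x1 ^ 2 - E * (x2 ^ 2 + ψ * x3 ^ 2)

/-- the relative norm to the field of `√ψ`, second coordinate -/
def nB (E x0 x1 x2 x3 : ℤ) : ℤ := 2 * (x0 * x1 - E * x2 * x3)

/-- the norm form -/
def nN (ψ E x0 x1 x2 x3 : ℤ) : ℤ := nA ψ E x0 x1 x2 x3 ^ 2 - ψ * nB E x0 x1 x2 x3 ^ 2

lemma nN_other (ψ E x0 x1 x2 x3 : ℤ) :
    nN ψ E x0 x1 x2 x3 = nA E ψ x0 x2 x1 x3 ^ 2 - E * nB ψ x0 x2 x1 x3 ^ 2 := by
  unfold nN nA nB; ring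

lemma aniso {ψ E : ℤ} (hψ : ψ < 0) (hE : E < 0) (hns : ∀ a n : ℤ, a ^ 2 = ψ * E * n ^ 2 → n = 0)
    {x0 x1 x2 x3 : ℤ} (h : nN ψ E x0 x1 x2 x3 = 0) : x0 = 0 ∧ x1 = 0 ∧ x2 = 0 ∧ x3 = 0 := by
  unfold nN at h
  have hB2 : 0 ≤ -ψ * nB E x0 x1 x2 x3 ^ 2 := mul_nonneg (by omega) (sq_nonneg _)
  have hA : nA ψ E x0 x1 x2 x3 = 0 := by
    have : nA ψ E x0 x1 x2 x3 ^ 2 = 0 := le_antisymm (by linarith) (sq_nonneg _)
    exact pow_eq_zero_iff (two_ne_zero) |>.1 this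
  have hB : nB E x0 x1 x2 x3 = 0 := by
    rw [hA] at h
    have h1 : ψ * nB E x0 x1 x2 x3 ^ 2 = 0 := by linarith
    rcases mul_eq_zero.1 h1 with h2 | h2
    · omega
    · exact pow_eq_zero_iff (two_ne_zero) |>.1 h2
  unfold nA at hA
  unfold nB at hB
  have e1 : (x0 * x2 - ψ * x1 * x3) ^ 2 + ψ * (x1 * x2 - x0 * x3) ^ 2 =
      E * (x2 ^ 2 - ψ * x3 ^ 2) ^ 2 := by
    linear_combination (x2 ^ 2 + ψ * x3 ^ 2) * hA - 2 * ψ * x2 * x3 * hB
  have e2 : 2 * ((x0 * x2 - ψ * x1 * x3) * (x1 * x2 - x0 * x3)) = 0 := by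
    linear_combination (x2 ^ 2 + ψ * x3 ^ 2) * hB - 2 * x2 * x3 * hA
  have hn : x2 ^ 2 - ψ * x3 ^ 2 = 0 := by
    have e3 : (x0 * x2 - ψ * x1 * x3) * (x1 * x2 - x0 * x3) = 0 := by linarith
    rcases mul_eq_zero.1 e3 with h1 | h1
    · refine hns (ψ * (x1 * x2 - x0 * x3)) _ ?_
      rw [h1] at e1
      linear_combination ψ * e1
    · rw [h1] at e1
      have h2 : 0 ≤ -E * (x2 ^ 2 - ψ * x3 ^ 2) ^ 2 := mul_nonneg (by omega) (sq_nonneg _)
      have h3 : E * (x2 ^ 2 - ψ * x3 ^ 2) ^ 2 = 0 := by nlinarith [sq_nonneg (x0 * x2 - ψ * x1 * x3)]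
      rcases mul_eq_zero.1 h3 with h4 | h4
      · omega
      · exact pow_eq_zero_iff (two_ne_zero) |>.1 h4
  have h3 : 0 ≤ -ψ * x3 ^ 2 := mul_nonneg (by omega) (sq_nonneg _)
  have hx2 : x2 = 0 := by
    have : x2 ^ 2 = 0 := le_antisymm (by linarith) (sq_nonneg _)
    exact pow_eq_zero_iff (two_ne_zero) |>.1 this
  have hx3 : x3 = 0 := by
    rw [hx2] at hn
    have h1 : ψ * x3 ^ 2 = 0 := by linarith
    rcases mul_eq_zero.1 h1 with h2 | h2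
    · omega
    · exact pow_eq_zero_iff (two_ne_zero) |>.1 h2
  rw [hx2, hx3] at hA hB
  have h4 : x0 * x1 = 0 := by linarith
  have h5 : x0 ^ 2 + ψ * x1 ^ 2 = 0 := by linarith
  rcases mul_eq_zero.1 h4 with h6 | h6
  · rw [h6] at h5
    have h1 : ψ * x1 ^ 2 = 0 := by linarith
    rcases mul_eq_zero.1 h1 with h2 | h2
    · omega
    · exact ⟨h6, pow_eq_zero_iff (two_ne_zero) |>.1 h2, hx2, hx3⟩
  · rw [h6] at h5
    have h1 : x0 ^ 2 = 0 := by linarith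
    exact ⟨pow_eq_zero_iff (two_ne_zero) |>.1 h1, h6, hx2, hx3⟩

/-- pigeonhole -/
lemma small (l : ℕ) (hl : 0 < l) (r s : ZMod l) : ∃ (T : ℕ) (b0 b1 b2 b3 : ℤ), T ^ 4 ≤ l ∧
    |b0| ≤ T ∧ |b1| ≤ T ∧ |b2| ≤ T ∧ |b3| ≤ T ∧ ¬ (b0 = 0 ∧ b1 = 0 ∧ b2 = 0 ∧ b3 = 0) ∧
    (b0 : ZMod l) + b1 * r + b2 * s + b3 * (r * s) = 0 := by
  have : NeZero l := ⟨hl.ne'⟩
  set T := Nat.sqrt (Nat.sqrt l) with hT
  have h1 : Nat.sqrt l * Nat.sqrt l ≤ l := Nat.sqrt_le l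
  have h2 : T * T ≤ Nat.sqrt l := Nat.sqrt_le _
  have h3 : l < (Nat.sqrt l + 1) * (Nat.sqrt l + 1) := Nat.lt_succ_sqrt l
  have h4 : Nat.sqrt l < (T + 1) * (T + 1) := Nat.lt_succ_sqrt _
  have h5 : T ^ 4 ≤ l := by
    calc T ^ 4 = (T * T) * (T * T) := by ring
      _ ≤ Nat.sqrt l * Nat.sqrt l := Nat.mul_le_mul h2 h2
      _ ≤ l := h1
  have h6 : l < (T + 1) * ((T + 1) * ((T + 1) * (T + 1))) := by
    calc l < (Nat.sqrt l + 1) * (Nat.sqrt l + 1) := h3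
      _ ≤ ((T + 1) * (T + 1)) * ((T + 1) * (T + 1)) := Nat.mul_le_mul h4 h4
      _ = _ := by ring
  obtain ⟨x, y, hxy, he⟩ := Fintype.exists_ne_map_eq_of_card_lt
    (fun x : Fin (T + 1) × Fin (T + 1) × Fin (T + 1) × Fin (T + 1) =>
      ((x.1 : ℕ) : ZMod l) + ((x.2.1 : ℕ) : ZMod l) * r + ((x.2.2.1 : ℕ) : ZMod l) * s +
        ((x.2.2.2 : ℕ) : ZMod l) * (r * s)) (by
      simp only [ZMod.card, Fintype.card_prod, Fintype.card_fin]
      exact h6)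
  have hab : ∀ a b : Fin (T + 1), |((a : ℕ) : ℤ) - ((b : ℕ) : ℤ)| ≤ T := fun a b => by
    have := a.2
    have := b.2
    rw [abs_le]
    constructor <;> omega
  refine ⟨T, ((x.1 : ℕ) : ℤ) - ((y.1 : ℕ) : ℤ), ((x.2.1 : ℕ) : ℤ) - ((y.2.1 : ℕ) : ℤ),
    ((x.2.2.1 : ℕ) : ℤ) - ((y.2.2.1 : ℕ) : ℤ), ((x.2.2.2 : ℕ) : ℤ) - ((y.2.2.2 : ℕ) : ℤ), h5,
    hab _ _, hab _ _, hab _ _, hab _ _, ?_, ?_⟩
  · rintro ⟨g0, g1, g2, g3⟩
    apply hxy
    refine Prod.ext (Fin.ext (by omega)) (Prod.ext (Fin.ext (by omega))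
      (Prod.ext (Fin.ext (by omega)) (Fin.ext (by omega))))
  · push_cast
    linear_combination he

lemma abs_mul_le {a b A B : ℤ} (ha : |a| ≤ A) (hb : |b| ≤ B) : |a * b| ≤ A * B := by
  rw [abs_mul]
  exact mul_le_mul ha hb (abs_nonneg _) ((abs_nonneg _).trans ha)

lemma abs4 {a b c d A B C D : ℤ} (ha : |a| ≤ A) (hb : |b| ≤ B) (hc : |c| ≤ C) (hd : |d| ≤ D) :
    |a + b + c + d| ≤ A + B + C + D := by
  rw [abs_le] at *
  constructor <;> linarith [ha.1, ha.2, hb.1, hb.2, hc.1, hc.2, hd.1, hd.2]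

lemma cancel {N a B : ℤ} (hN : 0 < N) (h : |N * a| ≤ N * B) : |a| ≤ B := by
  rw [abs_mul, abs_of_pos hN] at h
  exact le_of_mul_le_mul_left h hN

/-- the small element in the coset -/
lemma core {ψ E : ℤ} (Q : ℤ) (hψ : ψ < 0) (hE : E < 0) (hψQ : |ψ| ≤ Q) (hEQ : |E| ≤ Q)
    (hns : ∀ a n : ℤ, a ^ 2 = ψ * E * n ^ 2 → n = 0) (l M : ℕ) (hl : 0 < l) (hM : 0 < M)
    (hc : Nat.Coprime l M) (r s : ZMod l) (hr : (ψ : ZMod l) = r * r) (hs : (E : ZMod l) = s * s) :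
    ∃ (T : ℕ) (a0 a1 a2 a3 : ℤ), T ^ 4 ≤ l ∧
      |a0| ≤ 4 * Q ^ 2 * M * T ∧ |a1| ≤ 4 * Q ^ 2 * M * T ∧ |a2| ≤ 4 * Q ^ 2 * M * T ∧
      |a3| ≤ 4 * Q ^ 2 * M * T ∧ (l : ℤ) ∣ nN ψ E a0 a1 a2 a3 ∧ (M : ℤ) ∣ nN ψ E a0 a1 a2 a3 - 1 := by
  obtain ⟨T, b0, b1, b2, b3, hT, h0, h1, h2, h3, hne, hφ⟩ := small l hl r s
  have hQ : 1 ≤ Q := by
    have := abs_of_neg hψ
    omega
  obtain ⟨t, t', ht⟩ : IsCoprime (l : ℤ) (M : ℤ) := Nat.isCoprime_iff_coprime.2 hc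
  set A := nA ψ E b0 b1 b2 b3 with hA
  set B := nB E b0 b1 b2 b3 with hB
  set N := nN ψ E b0 b1 b2 b3 with hN
  have hN0 : 0 < N := by
    have h4 : N ≠ 0 := fun h => hne (aniso hψ hE hns h)
    have h5 : 0 ≤ N := by
      rw [hN]; unfold nN
      have : 0 ≤ -ψ * nB E b0 b1 b2 b3 ^ 2 := mul_nonneg (by omega) (sq_nonneg _)
      nlinarith [sq_nonneg (nA ψ E b0 b1 b2 b3)]
    omega
  have hM' : (0 : ℤ) < M := by exact_mod_cast hM
  set D : ℤ := M * N with hD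
  have hD0 : 0 < D := mul_pos hM' hN0
  set g : ℤ := t * l with hg
  set c0 : ℤ := g * (b0 * A - ψ * b1 * B) with hc0
  set c1 : ℤ := g * (b1 * A - b0 * B) with hc1
  set c2 : ℤ := g * (-b2 * A + ψ * b3 * B) with hc2
  set c3 : ℤ := g * (-b3 * A + b2 * B) with hc3
  have hdiv : ∀ c : ℤ, ∃ e p : ℤ, c = D * e + p ∧ |p| ≤ D := fun c =>
    ⟨c / D, c % D, (Int.mul_ediv_add_emod c D).symm, by
      rw [abs_of_nonneg (Int.emod_nonneg c hD0.ne')]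
      exact (Int.emod_lt_of_pos c hD0).le⟩
  obtain ⟨e0, p0, g0, q0⟩ := hdiv c0
  obtain ⟨e1, p1, g1, q1⟩ := hdiv c1
  obtain ⟨e2, p2, g2, q2⟩ := hdiv c2
  obtain ⟨e3, p3, g3, q3⟩ := hdiv c3
  have hp0 : p0 = c0 - D * e0 := by linarith
  have hp1 : p1 = c1 - D * e1 := by linarith
  have hp2 : p2 = c2 - D * e2 := by linarith
  have hp3 : p3 = c3 - D * e3 := by linarith
  have hNe : N = A ^ 2 - ψ * B ^ 2 := rfl
  have hAe : A = b0 ^ 2 + ψ * b1 ^ 2 - E * (b2 ^ 2 + ψ * b3 ^ 2) := rfl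
  have hBe : B = 2 * (b0 * b1 - E * b2 * b3) := rfl
  have hT0 : (0 : ℤ) ≤ T := Int.natCast_nonneg T
  have hTD : (0 : ℤ) ≤ T * D := mul_nonneg hT0 hD0.le
  have hQ2 : Q ≤ Q ^ 2 := by nlinarith
  have k1 : (T : ℤ) * D ≤ Q ^ 2 * (T * D) := by nlinarith
  have k2 : Q * ((T : ℤ) * D) ≤ Q ^ 2 * (T * D) := mul_le_mul_of_nonneg_right hQ2 hTD
  have k3 : N * (4 * Q ^ 2 * M * T) = 4 * (Q ^ 2 * (T * D)) := by rw [hD]; ring
  refine ⟨T, g - M * (b0 * e0 + ψ * b1 * e1 + E * b2 * e2 + ψ * E * b3 * e3),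
    -(M * (b0 * e1 + b1 * e0 + E * (b2 * e3 + b3 * e2))),
    -(M * (b0 * e2 + b2 * e0 + ψ * (b1 * e3 + b3 * e1))),
    -(M * (b0 * e3 + b3 * e0 + b1 * e2 + b2 * e1)), hT, ?_, ?_, ?_, ?_, ?_, ?_⟩
  · refine cancel hN0 ?_
    have e : N * (g - M * (b0 * e0 + ψ * b1 * e1 + E * b2 * e2 + ψ * E * b3 * e3)) =
        b0 * p0 + ψ * (b1 * p1) + E * (b2 * p2) + ψ * (E * (b3 * p3)) := by
      rw [hp0, hp1, hp2, hp3, hc0, hc1, hc2, hc3, hD]
      linear_combination g * hNe + g * A * hAe - g * ψ * B * hBe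
    rw [e, k3]
    refine (abs4 (abs_mul_le h0 q0) (abs_mul_le hψQ (abs_mul_le h1 q1))
      (abs_mul_le hEQ (abs_mul_le h2 q2)) (abs_mul_le hψQ (abs_mul_le hEQ (abs_mul_le h3 q3)))).trans ?_
    nlinarith
  · refine cancel hN0 ?_
    have e : N * (-(M * (b0 * e1 + b1 * e0 + E * (b2 * e3 + b3 * e2)))) =
        b0 * p1 + b1 * p0 + E * (b2 * p3) + E * (b3 * p2) := by
      rw [hp0, hp1, hp2, hp3, hc0, hc1, hc2, hc3, hD]
      linear_combination g * A * hBe - g * B * hAe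
    rw [e, k3]
    refine (abs4 (abs_mul_le h0 q1) (abs_mul_le h1 q0)
      (abs_mul_le hEQ (abs_mul_le h2 q3)) (abs_mul_le hEQ (abs_mul_le h3 q2))).trans ?_
    nlinarith
  · refine cancel hN0 ?_
    have e : N * (-(M * (b0 * e2 + b2 * e0 + ψ * (b1 * e3 + b3 * e1)))) =
        b0 * p2 + b2 * p0 + ψ * (b1 * p3) + ψ * (b3 * p1) := by
      rw [hp0, hp1, hp2, hp3, hc0, hc1, hc2, hc3, hD]
      ring
    rw [e, k3]
    refine (abs4 (abs_mul_le h0 q2) (abs_mul_le h2 q0)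
      (abs_mul_le hψQ (abs_mul_le h1 q3)) (abs_mul_le hψQ (abs_mul_le h3 q1))).trans ?_
    nlinarith
  · refine cancel hN0 ?_
    have e : N * (-(M * (b0 * e3 + b3 * e0 + b1 * e2 + b2 * e1))) =
        b0 * p3 + b3 * p0 + b1 * p2 + b2 * p1 := by
      rw [hp0, hp1, hp2, hp3, hc0, hc1, hc2, hc3, hD]
      ring
    rw [e, k3]
    refine (abs4 (abs_mul_le h0 q3) (abs_mul_le h3 q0)
      (abs_mul_le h1 q2) (abs_mul_le h2 q1)).trans ?_
    nlinarith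
  · rw [← ZMod.intCast_zmod_eq_zero_iff_dvd]
    have hg0 : (g : ZMod l) = 0 := by rw [hg]; push_cast; simp
    have key : ∀ x0 x1 x2 x3 : ℤ, (x0 : ZMod l) + x1 * r + x2 * s + x3 * (r * s) = 0 →
        ((nN ψ E x0 x1 x2 x3 : ℤ) : ZMod l) = 0 := by
      intro x0 x1 x2 x3 hx
      unfold nN nA nB
      push_cast
      rw [hr, hs]
      linear_combination ((x0 : ZMod l) - x1 * r + x2 * s - x3 * (r * s)) *
        ((x0 : ZMod l) + x1 * r - x2 * s - x3 * (r * s)) *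
        ((x0 : ZMod l) - x1 * r - x2 * s + x3 * (r * s)) * hx
    apply key
    push_cast
    rw [hg0, hr, hs]
    linear_combination (-(M : ZMod l) * ((e0 : ZMod l) + e1 * r + e2 * s + e3 * (r * s))) * hφ
  · rw [← ZMod.intCast_zmod_eq_zero_iff_dvd]
    have hg1 : (g : ZMod M) = 1 := by
      have : g = 1 - t' * M := by rw [hg]; linarith
      rw [this]; push_cast; simp
    unfold nN nA nB
    push_cast
    rw [hg1, ZMod.natCast_self]
    ring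

/-- size of the norm -/
lemma nN_le {ψ E Q S x0 x1 x2 x3 : ℤ} (hQ : 1 ≤ Q) (hψQ : |ψ| ≤ Q) (hEQ : |E| ≤ Q)
    (h0 : |x0| ≤ S) (h1 : |x1| ≤ S) (h2 : |x2| ≤ S) (h3 : |x3| ≤ S) :
    nN ψ E x0 x1 x2 x3 ≤ 32 * Q ^ 4 * S ^ 4 := by
  have hS : 0 ≤ S := (abs_nonneg _).trans h0
  have hSS : 0 ≤ S * S := mul_nonneg hS hS
  have hnE : |(-E)| ≤ Q := by rwa [abs_neg]
  have hQ2 : Q ≤ Q ^ 2 := by nlinarith
  have k1 : S * S ≤ Q ^ 2 * (S * S) := by nlinarith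
  have k2 : Q * (S * S) ≤ Q ^ 2 * (S * S) := mul_le_mul_of_nonneg_right hQ2 hSS
  have hA : |nA ψ E x0 x1 x2 x3| ≤ 4 * (Q ^ 2 * (S * S)) := by
    have e : nA ψ E x0 x1 x2 x3 = x0 * x0 + ψ * (x1 * x1) + (-E) * (x2 * x2) +
        (-E) * (ψ * (x3 * x3)) := by unfold nA; ring
    rw [e]
    refine (abs4 (abs_mul_le h0 h0) (abs_mul_le hψQ (abs_mul_le h1 h1))
      (abs_mul_le hnE (abs_mul_le h2 h2)) (abs_mul_le hnE (abs_mul_le hψQ (abs_mul_le h3 h3)))).trans ?_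
    nlinarith
  have hB : |nB E x0 x1 x2 x3| ≤ 4 * (Q * (S * S)) := by
    have e : nB E x0 x1 x2 x3 = x0 * x1 + x0 * x1 + (-E) * (x2 * x3) + (-E) * (x2 * x3) := by
      unfold nB; ring
    rw [e]
    refine (abs4 (abs_mul_le h0 h1) (abs_mul_le h0 h1)
      (abs_mul_le hnE (abs_mul_le h2 h3)) (abs_mul_le hnE (abs_mul_le h2 h3))).trans ?_
    nlinarith
  have hnψ : |(-ψ)| ≤ Q := by rwa [abs_neg]
  have g1 := abs_mul_le hA hA
  have g2 := abs_mul_le hnψ (abs_mul_le hB hB)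
  have e : nN ψ E x0 x1 x2 x3 = nA ψ E x0 x1 x2 x3 * nA ψ E x0 x1 x2 x3 +
      (-ψ) * (nB E x0 x1 x2 x3 * nB E x0 x1 x2 x3) := by unfold nN; ring
  rw [e]
  have g3 := (le_abs_self _).trans g1
  have g4 := (le_abs_self _).trans g2
  have g5 : Q ^ 3 * S ^ 4 ≤ Q ^ 4 * S ^ 4 :=
    mul_le_mul_of_nonneg_right (pow_le_pow_right₀ hQ (by norm_num)) (by positivity)
  have g6 : 4 * (Q ^ 2 * (S * S)) * (4 * (Q ^ 2 * (S * S))) = 16 * (Q ^ 4 * S ^ 4) := by ring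
  have g7 : Q * (4 * (Q * (S * S)) * (4 * (Q * (S * S)))) = 16 * (Q ^ 3 * S ^ 4) := by ring
  linarith

/-- an inert prime divides a norm to an even power -/
lemma even_val (q : ℕ) (hq : q.Prime) (a : ℤ) (ha : ¬ IsSquare (a : ZMod q)) :
    ∀ N : ℕ, N ≠ 0 → ∀ A B : ℤ, (N : ℤ) = A ^ 2 - a * B ^ 2 → Even (N.factorization q) := by
  have : Fact q.Prime := ⟨hq⟩
  intro N
  induction N using Nat.strong_induction_on with
  | _ N ih =>
  intro hN A B h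
  by_cases hd : q ∣ N
  · have h0 : (A : ZMod q) ^ 2 - a * (B : ZMod q) ^ 2 = 0 := by
      have h1 : (((N : ℤ)) : ZMod q) = 0 := by
        rw [Int.cast_natCast]; exact (ZMod.natCast_eq_zero_iff N q).2 hd
      rw [h] at h1
      push_cast at h1
      exact h1
    have hB : (B : ZMod q) = 0 := by
      by_contra hB
      apply ha
      refine ⟨(A : ZMod q) / B, ?_⟩
      field_simp
      linear_combination -h0
    have hA : (A : ZMod q) = 0 := by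
      rw [hB] at h0
      have : (A : ZMod q) ^ 2 = 0 := by linear_combination h0
      exact pow_eq_zero_iff (two_ne_zero) |>.1 this
    obtain ⟨A1, rfl⟩ := (ZMod.intCast_zmod_eq_zero_iff_dvd A q).1 hA
    obtain ⟨B1, rfl⟩ := (ZMod.intCast_zmod_eq_zero_iff_dvd B q).1 hB
    have h2 : ((q ^ 2 : ℕ) : ℤ) ∣ (N : ℤ) := ⟨A1 ^ 2 - a * B1 ^ 2, by rw [h]; push_cast; ring⟩
    obtain ⟨N1, rfl⟩ := Int.natCast_dvd_natCast.1 h2
    have hN1 : N1 ≠ 0 := by rintro rfl; simp at hN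
    have hq0 : (q : ℤ) ≠ 0 := by exact_mod_cast hq.ne_zero
    have h3 : (N1 : ℤ) = A1 ^ 2 - a * B1 ^ 2 := by
      have h4 : (q : ℤ) ^ 2 * (N1 : ℤ) = (q : ℤ) ^ 2 * (A1 ^ 2 - a * B1 ^ 2) := by
        push_cast at h
        linear_combination h
      exact mul_left_cancel₀ (pow_ne_zero 2 hq0) h4
    have hlt : N1 < q ^ 2 * N1 := by
      have h5 : 1 < q ^ 2 := Nat.one_lt_pow (by norm_num) hq.one_lt
      have h6 : 0 < N1 := Nat.pos_of_ne_zero hN1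
      nlinarith
    have h7 := ih N1 hlt hN1 A1 B1 h3
    rw [Nat.factorization_mul (pow_ne_zero 2 hq.ne_zero) hN1, Finsupp.add_apply,
      hq.factorization_pow, Finsupp.single_eq_same]
    exact (even_two).add h7
  · rw [Nat.factorization_eq_zero_of_not_dvd hd]
    exact Even.zero

/-- a number `≡ ± 3 (mod 8)` has a prime factor `≡ ± 3 (mod 8)` of odd multiplicity -/
lemma odd_factor (n : ℕ) (hn : n % 8 = 3 ∨ n % 8 = 5) :
    ∃ q : ℕ, q.Prime ∧ q ∣ n ∧ (q % 8 = 3 ∨ q % 8 = 5) ∧ ¬ Even (n.factorization q) := by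
  by_contra hcon
  push Not at hcon
  have hn0 : n ≠ 0 := by omega
  have h1 : ZMod.χ₈ (n : ZMod 8) = -1 := by
    rw [ZMod.χ₈_nat_eq_if_mod_eight]
    rcases hn with h | h <;> simp [h, show n % 2 = 1 by omega]
  have h2 : ZMod.χ₈ (n : ZMod 8) = 1 := by
    conv_lhs => rw [← Nat.prod_factorization_pow_eq_self hn0]
    rw [Finsupp.prod, Nat.cast_prod, map_prod]
    refine Finset.prod_eq_one fun q hq => ?_
    rw [Nat.support_factorization] at hq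
    have hp := Nat.prime_of_mem_primeFactors hq
    have hd := Nat.dvd_of_mem_primeFactors hq
    have ho : q % 2 = 1 := by
      rcases hp.eq_two_or_odd with rfl | h
      · omega
      · exact h
    rw [Nat.cast_pow, map_pow, ZMod.χ₈_nat_eq_if_mod_eight]
    by_cases h35 : q % 8 = 3 ∨ q % 8 = 5
    · have he := hcon q hp hd h35
      rw [if_neg (by omega), if_neg (by omega)]
      exact he.neg_one_pow
    · rw [if_neg (by omega), if_pos (by omega), one_pow]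
  rw [h1] at h2
  norm_num at h2

lemma nonsq {δ : ℕ} (hδ : Adm δ) (j : ℕ) (a n : ℤ) (h : a ^ 2 = ((2 ^ j * δ : ℕ) : ℤ) * n ^ 2) :
    n = 0 := by
  by_contra hn
  obtain ⟨p, hp, hpd⟩ := Nat.exists_prime_and_dvd hδ.1.2
  have hδ0 : δ ≠ 0 := by have := hδ.1.1; omega
  have h1 : a.natAbs ^ 2 = (2 ^ j * δ) * n.natAbs ^ 2 := by
    have := congrArg Int.natAbs h
    rwa [Int.natAbs_mul, Int.natAbs_pow, Int.natAbs_pow, Int.natAbs_natCast] at this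
  have hn' : n.natAbs ≠ 0 := Int.natAbs_ne_zero.2 hn
  have hp2 : ¬ p ∣ 2 ^ j := fun hd => by
    have h2 := (Nat.prime_dvd_prime_iff_eq hp Nat.prime_two).1 (hp.dvd_of_dvd_pow hd)
    subst h2
    have := hδ.1.1
    omega
  have h3 := congrArg (fun x => x.factorization p) h1
  rw [Nat.factorization_mul (by positivity) (pow_ne_zero 2 hn'),
    Nat.factorization_mul (by positivity) hδ0, Nat.factorization_pow, Nat.factorization_pow n.natAbs] at h3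
  simp only [Finsupp.add_apply, Finsupp.smul_apply, smul_eq_mul] at h3
  rw [Nat.factorization_eq_zero_of_not_dvd hp2] at h3
  have h4 : δ.factorization p ≤ 1 := hδ.2.natFactorization_le_one p
  have h5 : 1 ≤ δ.factorization p := (hp.dvd_iff_one_le_factorization hδ0).1 hpd
  omega

/-- reduction of the power of two -/
lemma red (ρ δ q : ℕ) (hq : q % 2 = 1) :
    jacobiSym (-((2 ^ ρ * δ : ℕ) : ℤ)) q = jacobiSym (-((2 ^ (ρ % 2) * δ : ℕ) : ℤ)) q := by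
  have e : (-((2 ^ ρ * δ : ℕ) : ℤ)) = ((2 : ℤ) ^ (ρ / 2)) ^ 2 * (-((2 ^ (ρ % 2) * δ : ℕ) : ℤ)) := by
    conv_lhs => rw [← Nat.div_add_mod ρ 2]
    push_cast
    ring
  rw [e, jacobiSym.mul_left, jacobiSym.sq_one', one_mul]
  have h1 : Nat.Coprime (2 ^ (ρ / 2)) q :=
    Nat.Coprime.pow_left _ (Nat.coprime_two_left.2 (Nat.odd_iff.2 hq))
  have h2 : ((2 : ℤ) ^ (ρ / 2)) = ((2 ^ (ρ / 2) : ℕ) : ℤ) := by push_cast; rfl
  rw [h2, Int.gcd_natCast_natCast]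
  exact h1

/-- some prime with the required symbols -/
lemma exists_big {δ : ℕ} (hδ : Adm δ) (e c : ℕ) (he : e ≤ 1) (hc : c = 3 ∨ c = 5) :
    ∃ l : ℕ, l.Prime ∧ 24 * δ < l ∧ l % 8 = c ∧ jacobiSym (-((2 ^ e * δ : ℕ) : ℤ)) l = -1 := by
  have hodd := hδ.1.1
  have hδ0 : δ ≠ 0 := by omega
  have : NeZero (8 * δ) := ⟨by omega⟩
  have hns : ¬ IsSquare δ := by
    rintro ⟨r, hr⟩
    have := hδ.2 r (by rw [hr])
    rw [Nat.isUnit_iff] at this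
    rw [this] at hr
    exact hδ.1.2 hr
  obtain ⟨u, hu1, hu2⟩ := Pool.Agent.H307R2.OP.STR.exists_c (m := 8 * δ) (D := δ)
    (Nat.dvd_mul_right 8 δ) (Nat.dvd_mul_left δ 8) hodd hns
  unfold Pool.Agent.H307R2.OP.STR.chi at hu2
  set u0 := (u : ZMod (8 * δ)).val with hu0
  have huc : Nat.Coprime u0 (8 * δ) := ZMod.val_coe_unit_coprime u
  have huo : Odd u0 := Nat.odd_iff.2 (by omega)
  have hJu : jacobiSym (-((2 ^ e * δ : ℕ) : ℤ)) u0 = -1 := by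
    have e1 : (-((2 ^ e * δ : ℕ) : ℤ)) = (-1) * ((2 : ℤ) ^ e * (δ : ℤ)) := by push_cast; ring
    rw [e1, jacobiSym.mul_left, jacobiSym.mul_left, jacobiSym.pow_left, jacobiSym.at_neg_one huo,
      jacobiSym.at_two huo, ZMod.χ₄_nat_one_mod_four (by omega), ZMod.χ₈_nat_eq_if_mod_eight,
      if_neg (by omega), if_pos (by omega), one_pow, one_mul, one_mul,
      ← jacobiSym.quadratic_reciprocity_one_mod_four (by omega) (Nat.odd_iff.2 hodd)]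
    exact hu2
  have h8δ : Nat.Coprime 8 δ := by
    have : Nat.Coprime (2 ^ 3) δ :=
      Nat.Coprime.pow_left _ (Nat.coprime_two_left.2 (Nat.odd_iff.2 hodd))
    simpa using this
  obtain ⟨a1, ha1, ha2⟩ := Nat.chineseRemainder h8δ c 1
  have ha8 : a1 % 8 = c := by
    unfold Nat.ModEq at ha1
    omega
  have hac : Nat.Coprime a1 (8 * δ) := by
    refine Nat.Coprime.mul_right ?_ ?_
    · have : Nat.Coprime a1 (2 ^ 3) :=
        Nat.Coprime.pow_right _ (Nat.coprime_two_right.2 (Nat.odd_iff.2 (by omega)))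
      simpa using this
    · have := ha2.gcd_eq
      simpa [Nat.Coprime] using this
  have hdv : 4 * (2 ^ e * δ) ∣ 8 * δ := by
    interval_cases e
    · exact ⟨2, by ring⟩
    · exact ⟨1, by ring⟩
  have hga : Int.gcd (-((2 ^ e * δ : ℕ) : ℤ)) (a1 : ℤ) = 1 := by
    rw [Int.neg_gcd, Int.gcd_natCast_natCast]
    exact (Nat.Coprime.coprime_dvd_right ((Nat.dvd_mul_left _ 4).trans hdv) hac).symm
  obtain ⟨a, hac', ha8', hJa⟩ : ∃ a : ℕ, Nat.Coprime a (8 * δ) ∧ a % 8 = c ∧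
      jacobiSym (-((2 ^ e * δ : ℕ) : ℤ)) a = -1 := by
    rcases jacobiSym.eq_one_or_neg_one hga with h | h
    · refine ⟨a1 * u0, Nat.Coprime.mul_left hac huc, ?_, ?_⟩
      · rw [Nat.mul_mod, ha8, hu1]; omega
      · rw [jacobiSym.mul_right' _ (by omega) (by omega), h, hJu, one_mul]
    · exact ⟨a1, hac, ha8, h⟩
  obtain ⟨l, hl1, hl2, hl3⟩ := Nat.forall_exists_prime_gt_and_modEq (24 * δ) (q := 8 * δ) (a := a)
    (by omega) hac'
  have hl8 : l % 8 = c := by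
    have := (hl3.of_dvd (Nat.dvd_mul_right 8 δ))
    unfold Nat.ModEq at this
    omega
  refine ⟨l, hl2, hl1, hl8, ?_⟩
  rw [jacobiSym.mod_right _ (Nat.odd_iff.2 (by omega : l % 2 = 1)), ← hJa,
    jacobiSym.mod_right _ (Nat.odd_iff.2 (by omega : a % 2 = 1)), Int.natAbs_neg, Int.natAbs_natCast]
  congr 1
  exact hl3.of_dvd hdv

lemma two_sym {q : ℕ} (h : q % 8 = 3 ∨ q % 8 = 5) : jacobiSym 2 q = -1 := by
  rw [jacobiSym.at_two (Nat.odd_iff.2 (by omega)), ZMod.χ₈_nat_eq_if_mod_eight, if_neg (by omega),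
    if_neg (by omega)]

lemma psi_sq {q c : ℕ} (hq : q.Prime) (h : q % 8 = 3 ∨ q % 8 = 5) (hc : c = 3 ∨ c = 5) :
    IsSquare (((if c = 5 then -1 else -2 : ℤ)) : ZMod q) ↔ q % 8 = c := by
  have : Fact q.Prime := ⟨hq⟩
  rcases hc with rfl | rfl
  · rw [if_neg (by norm_num)]
    push_cast
    rw [ZMod.exists_sq_eq_neg_two_iff (by omega)]
    omega
  · rw [if_pos rfl]
    push_cast
    rw [ZMod.exists_sq_eq_neg_one_iff]
    omega

lemma main {δ : ℕ} (hδ : Adm δ) (e c : ℕ) (he : e ≤ 1) (hc : c = 3 ∨ c = 5) :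
    ∃ q : ℕ, q.Prime ∧ 5 ≤ q ∧ q % 8 = c ∧ jacobiSym (-((2 ^ e * δ : ℕ) : ℤ)) q = -1 ∧
      q ≤ 10 ^ 20 * δ ^ 16 := by
  obtain ⟨l, hl, hlb, hl8, hlJ⟩ := exists_big hδ e c he hc
  have hodd := hδ.1.1
  have hδ1 : 1 ≤ δ := by omega
  have hδ1' : (1 : ℤ) ≤ δ := by exact_mod_cast hδ1
  have : Fact l.Prime := ⟨hl⟩
  set ψ : ℤ := if c = 5 then -1 else -2 with hψ
  set D : ℤ := -((2 ^ e * δ : ℕ) : ℤ) with hD
  have hψv : ψ = -1 ∨ ψ = -2 := by rw [hψ]; split_ifs <;> simp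
  have hDv : D = -δ ∨ D = -(2 * δ) := by
    rw [hD]
    interval_cases e <;> simp
  have hl35 : l % 8 = 3 ∨ l % 8 = 5 := by omega
  obtain ⟨r, hr⟩ := (psi_sq hl hl35 hc).2 hl8
  obtain ⟨s, hs⟩ : IsSquare (((2 * D : ℤ)) : ZMod l) := by
    apply ZMod.isSquare_of_jacobiSym_eq_one
    rw [jacobiSym.mul_left, two_sym hl35, hlJ]; norm_num
  have hns : ∀ a n : ℤ, a ^ 2 = ψ * (2 * D) * n ^ 2 → n = 0 := by
    intro a n h
    rcases hψv with h1 | h1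
    · refine nonsq hδ (e + 1) a n ?_
      rw [h, h1, hD]; push_cast; ring
    · refine nonsq hδ (e + 2) a n ?_
      rw [h, h1, hD]; push_cast; ring
  have hcop : Nat.Coprime l (24 * δ) :=
    (Nat.coprime_of_lt_prime (by omega) hlb hl)
  have hψQ : |ψ| ≤ 4 * (δ : ℤ) := by rw [abs_le]; constructor <;> omega
  have hEQ : |2 * D| ≤ 4 * (δ : ℤ) := by rw [abs_le]; constructor <;> omega
  obtain ⟨T, a0, a1, a2, a3, hT, h0, h1, h2, h3, hdv, hM⟩ := core (ψ := ψ) (E := 2 * D) (4 * δ)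
    (by omega) (by omega) hψQ hEQ hns l (24 * δ) hl.pos (by omega) hcop r s hr hs
  have hle := nN_le (by omega) hψQ hEQ h0 h1 h2 h3
  set N := nN ψ (2 * D) a0 a1 a2 a3 with hN
  have hN0 : 0 ≤ N := by
    rw [hN]; unfold nN
    have : 0 ≤ -ψ * nB (2 * D) a0 a1 a2 a3 ^ 2 := mul_nonneg (by omega) (sq_nonneg _)
    nlinarith [sq_nonneg (nA ψ (2 * D) a0 a1 a2 a3)]
  obtain ⟨n', hn'⟩ := hdv
  have hl0 : (0 : ℤ) < l := by exact_mod_cast hl.pos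
  have hn0 : 0 ≤ n' := by
    rw [hn'] at hN0
    exact le_of_mul_le_mul_left (by simpa using hN0) hl0
  obtain ⟨n, rfl⟩ := Int.eq_ofNat_of_zero_le hn0
  have hnle : n ≤ 10 ^ 20 * δ ^ 16 := by
    have g1 : ((T : ℤ)) ^ 4 ≤ l := by exact_mod_cast hT
    have g2 : 32 * (4 * (δ : ℤ)) ^ 4 * (4 * (4 * (δ : ℤ)) ^ 2 * ((24 * δ : ℕ) : ℤ) * T) ^ 4 =
        (32 * 4 ^ 4 * 1536 ^ 4) * (δ : ℤ) ^ 16 * (T : ℤ) ^ 4 := by push_cast; ring
    have g3 : (32 * 4 ^ 4 * 1536 ^ 4) * (δ : ℤ) ^ 16 * (T : ℤ) ^ 4 ≤ 10 ^ 20 * (δ : ℤ) ^ 16 * l :=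
      mul_le_mul (mul_le_mul_of_nonneg_right (by norm_num) (by positivity)) g1 (by positivity)
        (by positivity)
    have g4 : (l : ℤ) * n ≤ l * (10 ^ 20 * (δ : ℤ) ^ 16) := by
      rw [← hn']
      linarith
    have g5 := le_of_mul_le_mul_left g4 hl0
    exact_mod_cast g5
  have hmod : l * n ≡ 1 [MOD 24 * δ] := by
    rw [Nat.modEq_iff_dvd, ← dvd_neg]
    push_cast at hM ⊢
    rw [neg_sub, ← hn']
    exact hM
  have hcn : Nat.Coprime (l * n) (24 * δ) := by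
    have := hmod.gcd_eq
    simpa [Nat.Coprime] using this
  have h8 : (l * n) % 8 = 1 := by
    have := hmod.of_dvd (show 8 ∣ 24 * δ from ⟨3 * δ, by ring⟩)
    unfold Nat.ModEq at this
    omega
  have hn35 : n % 8 = 3 ∨ n % 8 = 5 := by
    rw [Nat.mul_mod] at h8
    have : n % 8 < 8 := Nat.mod_lt _ (by norm_num)
    rcases hl35 with h | h <;> rw [h] at h8 <;> omega
  have hnne : n ≠ 0 := by omega
  obtain ⟨q, hq, hqn, hq35, hqo⟩ := odd_factor n hn35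
  have hqle : q ≤ 10 ^ 20 * δ ^ 16 := (Nat.le_of_dvd (Nat.pos_of_ne_zero hnne) hqn).trans hnle
  by_cases hql : q = l
  · subst hql
    exact ⟨q, hq, by omega, hl8, hlJ, hqle⟩
  have hfac : (l * n).factorization q = n.factorization q := by
    rw [Nat.factorization_mul hl.ne_zero hnne, Finsupp.add_apply, hl.factorization,
      Finsupp.single_eq_of_ne hql, zero_add]
  have hln : l * n ≠ 0 := Nat.mul_ne_zero hl.ne_zero hnne
  have hs1 : IsSquare ((ψ : ℤ) : ZMod q) := by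
    by_contra hcon
    apply hqo
    rw [← hfac]
    exact even_val q hq ψ hcon _ hln _ _ (by push_cast; rw [← hn']; rfl)
  have hs2 : IsSquare (((2 * D : ℤ)) : ZMod q) := by
    by_contra hcon
    apply hqo
    rw [← hfac]
    exact even_val q hq (2 * D) hcon _ hln _ _ (by push_cast; rw [← hn', hN, nN_other])
  have hqc : Nat.Coprime q (24 * δ) :=
    Nat.Coprime.coprime_dvd_left (hqn.trans (Nat.dvd_mul_left n l)) hcn
  have hq3 : q ≠ 3 := by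
    rintro rfl
    have := Nat.Coprime.coprime_dvd_right (show 3 ∣ 24 * δ from ⟨8 * δ, by ring⟩) hqc
    norm_num at this
  have : Fact q.Prime := ⟨hq⟩
  refine ⟨q, hq, by omega, (psi_sq hq hq35 hc).1 hs1, ?_, hqle⟩
  have hg : Int.gcd D (q : ℤ) = 1 := by
    rw [hD, Int.neg_gcd, Int.gcd_natCast_natCast]
    refine (Nat.Coprime.coprime_dvd_right ?_ hqc).symm
    interval_cases e
    · exact ⟨24, by ring⟩
    · exact ⟨12, by ring⟩
  rcases jacobiSym.eq_one_or_neg_one hg with h | h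
  · exfalso
    have h5 : jacobiSym (2 * D) q = -1 := by
      rw [jacobiSym.mul_left, two_sym hq35, h]; norm_num
    exact (ZMod.nonsquare_iff_jacobiSym_eq_neg_one.1 h5) hs2
  · exact h

end KP

/-- task KP -/
theorem killPrime : KillPrime := by
  refine ⟨10 ^ 20, fun w c δ hw hc hδ => ?_⟩
  obtain ⟨ρ, rfl⟩ := hw
  obtain ⟨q, hq, h5, h8, hJ, hle⟩ := KP.main hδ (ρ % 2) c (by omega) hc
  refine ⟨q, hq, h5, h8, ?_, hle.trans ?_⟩
  · unfold K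
    rw [KP.red ρ δ q (by omega), hJ]
    norm_num
  · have := hδ.1.1
    exact Nat.mul_le_mul_left _ (Nat.pow_le_pow_right (by omega) (by norm_num))

end Pool.Agent.H189Z.MP
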