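import Pool.Agent.H189Z.MP.Defs
import Pool.Agent.H307R2.OP.FIN

set_option autoImplicit false

/-! Task MAIN: the main theorem in terms of the parameter `y`, and the passage from `y` to `x`. -/

namespace Pool.Agent.H189Z.MP

open Finset
open Pool.Agent.H307R2.OP (fin_two kap)

namespace MAINaux

/-- the squarefree kernel of an odd number that is not a square -/
theorem kernel (a : ℕ) (ha : a % 2 = 1) (hsq : ∀ z : ℕ, a ≠ z ^ 2) :
    ∃ δ s : ℕ, δ * s ^ 2 = a ∧ Adm δ ∧ 1 ≤ s := by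
  obtain ⟨d, b, hab, hd⟩ := Nat.sq_mul_squarefree a
  refine ⟨d, b, by rw [mul_comm]; exact hab, ⟨⟨?_, ?_⟩, hd⟩, ?_⟩
  · have h1 : Odd (b ^ 2 * d) := by rw [hab]; exact Nat.odd_iff.2 ha
    exact Nat.odd_iff.1 (Nat.odd_mul.1 h1).2
  · rintro rfl
    exact hsq b (by rw [← hab, mul_one])
  · rcases Nat.eq_zero_or_pos b with h | h
    · subst h
      simp at hab
      omega
    · exact h

/-- growth: `Nat.log 2 I + 1 ≤ c y` -/
theorem log_small (M : ℕ) (c : ℝ) (hc : 0 < c) : ∃ y0 : ℕ, ∀ y : ℕ, y0 ≤ y → ∀ I : ℕ,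
    I ≤ 2 * y ^ (2 * M + 4) → ((Nat.log 2 I + 1 : ℕ) : ℝ) ≤ c * y := by
  have h1 : ∀ᶠ x : ℝ in Filter.atTop, ‖Real.log x‖ ≤ (c * Real.log 2 / (2 * (2 * M + 4))) * ‖x‖ := by
    have := (Real.isLittleO_log_id_atTop).def
      (show (0:ℝ) < c * Real.log 2 / (2 * (2 * M + 4)) by positivity)
    simpa using this
  have h2 := (tendsto_natCast_atTop_atTop (R := ℝ)).eventually h1
  have h3 : ∀ᶠ y : ℕ in Filter.atTop, (2 / c * 2 : ℝ) ≤ y :=
    (tendsto_natCast_atTop_atTop (R := ℝ)).eventually (Filter.eventually_ge_atTop _)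
  obtain ⟨y0, hy0⟩ := Filter.eventually_atTop.1 (h2.and h3)
  refine ⟨max y0 1, fun y hy I hI => ?_⟩
  have hy1 : 1 ≤ y := le_trans (le_max_right _ _) hy
  obtain ⟨ha, hb⟩ := hy0 y (le_trans (le_max_left _ _) hy)
  have hyR : (1 : ℝ) ≤ y := by exact_mod_cast hy1
  have hlog2 : 0 < Real.log 2 := Real.log_pos (by norm_num)
  rw [Real.norm_of_nonneg (Real.log_nonneg hyR), Real.norm_of_nonneg (by positivity)] at ha
  have h5 : Nat.log 2 I ≤ Nat.log 2 (2 * y ^ (2 * M + 4)) := Nat.log_mono_right hI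
  have h6 : ((Nat.log 2 (2 * y ^ (2 * M + 4)) : ℕ) : ℝ) * Real.log 2 ≤
      Real.log 2 + (2 * M + 4) * Real.log y := by
    have h7 : (2:ℕ) ^ Nat.log 2 (2 * y ^ (2 * M + 4)) ≤ 2 * y ^ (2 * M + 4) :=
      Nat.pow_log_le_self 2 (by positivity)
    have h8 : ((2:ℝ)) ^ Nat.log 2 (2 * y ^ (2 * M + 4)) ≤ 2 * (y:ℝ) ^ (2 * M + 4) := by
      exact_mod_cast h7
    have h9 := Real.log_le_log (by positivity) h8
    rw [Real.log_pow, Real.log_mul (by norm_num) (by positivity), Real.log_pow] at h9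
    push_cast at h9
    linarith
  have h10 : (2 * (M:ℝ) + 4) * Real.log y ≤ c * Real.log 2 / 2 * y := by
    calc (2 * (M:ℝ) + 4) * Real.log y ≤ (2 * (M:ℝ) + 4) * (c * Real.log 2 / (2 * (2 * M + 4)) * y) :=
          mul_le_mul_of_nonneg_left ha (by positivity)
      _ = c * Real.log 2 / 2 * y := by field_simp
  have h11 : ((Nat.log 2 I : ℕ) : ℝ) ≤ 1 + c / 2 * y := by
    have h12 : ((Nat.log 2 I : ℕ) : ℝ) * Real.log 2 ≤ (1 + c / 2 * y) * Real.log 2 := by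
      calc ((Nat.log 2 I : ℕ) : ℝ) * Real.log 2
          ≤ ((Nat.log 2 (2 * y ^ (2 * M + 4)) : ℕ) : ℝ) * Real.log 2 :=
            mul_le_mul_of_nonneg_right (by exact_mod_cast h5) hlog2.le
        _ ≤ Real.log 2 + c * Real.log 2 / 2 * y := by linarith
        _ = (1 + c / 2 * y) * Real.log 2 := by ring
    exact le_of_mul_le_mul_right h12 hlog2
  have h13 : (2:ℝ) ≤ c / 2 * y := by
    have := mul_le_mul_of_nonneg_left hb (show 0 ≤ c / 2 by positivity)
    calc (2:ℝ) = c / 2 * (2 / c * 2) := by field_simp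
      _ ≤ _ := this
  push_cast
  linarith

/-- polynomial versus exponential growth -/
theorem poly_exp (M : ℕ) : ∃ y0 : ℕ, ∀ y : ℕ, y0 ≤ y → 2 * y ^ (2 * M + 4) ≤ 2 ^ y := by
  have h := tendsto_pow_const_div_const_pow_of_one_lt (2 * M + 4) (r := (2:ℝ)) (by norm_num)
  have h2 : ∀ᶠ n : ℕ in Filter.atTop, (n:ℝ) ^ (2 * M + 4) / 2 ^ n < 1 / 2 :=
    h.eventually (gt_mem_nhds (by norm_num))
  obtain ⟨y0, hy0⟩ := Filter.eventually_atTop.1 h2
  refine ⟨y0, fun y hy => ?_⟩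
  have := hy0 y hy
  rw [div_lt_iff₀ (by positivity)] at this
  have h3 : (2:ℝ) * (y:ℝ) ^ (2 * M + 4) ≤ 2 ^ y := by linarith
  exact_mod_cast h3

open Classical in
/-- the counting step -/
theorem stepA (O : ℕ → Prop) (v : ℕ) (hv : v % 2 = 1) {M : ℕ} (g : Cfg M) (hok : g.Ok) (y : ℕ)
    (hvI : v ≤ 2 ^ g.I)
    (key : ∀ t ∈ g.Tup, ∃ n u : ℕ, O n ∧ 8 * g.e * n + g.w * u ^ 2 = g.e * g.N t + v ∧
      (∀ z : ℕ, 8 * g.e * n ≠ v + z ^ 2) ∧ g.N t ≤ 2 ^ g.I)
    (Bd : ℝ) (hBd : 0 ≤ Bd)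
    (hB : ∀ δ s : ℕ, Adm δ → ¬ Bad g.w g.I y δ → 1 ≤ s → δ * s ^ 2 ≤ 3 * 2 ^ g.I →
      (((g.Tup ×ˢ range (2 ^ g.I + 1)).filter
        (fun x => g.e * g.N x.1 = δ * s ^ 2 + g.w * x.2 ^ 2)).card : ℝ) ≤ Bd)
    (hlost : ((g.Tup.filter (fun t => (∃ δ : ℕ, Adm δ ∧ Bad g.w g.I y δ ∧
      Rep g.e g.w δ (g.N t)) ∨ ∃ a u : ℕ, a ≤ v ∧ g.e * g.N t + a = g.w * u ^ 2)).card : ℝ) ≤
        (g.Tup.card : ℝ) / 2) :
    (g.Tup.card : ℝ) / 2 ≤ (cnt O (2 ^ g.I) : ℝ) * Bd := by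
  choose! n u hodd heq hnsq hN using key
  have h4r : 64 ≤ g.w := by
    have : 64 ≤ 4 ^ g.r := by
      calc 64 = 4 ^ 3 := by norm_num
        _ ≤ 4 ^ g.r := Nat.pow_le_pow_right (by norm_num) hok.hr
    rcases hok.hw with h | h <;> omega
  have heN : ∀ t ∈ g.Tup, g.e * g.N t ≤ 3 * 2 ^ g.I := by
    intro t ht
    have e2 := hN t ht
    rcases hok.he with h | h <;> rw [h] <;> omega
  have hu : ∀ t ∈ g.Tup, u t ≤ 2 ^ g.I := by
    intro t ht
    have e1 := heq t ht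
    have e2 := heN t ht
    have e3 : 64 * (u t) ^ 2 ≤ g.w * (u t) ^ 2 := Nat.mul_le_mul_right _ h4r
    have e4 : u t ≤ (u t) ^ 2 := Nat.le_self_pow (by norm_num) _
    have e6 : 0 ≤ 8 * g.e * n t := Nat.zero_le _
    omega
  have hn : ∀ t ∈ g.Tup, n t ≤ 2 ^ g.I := by
    intro t ht
    have e1 := heq t ht
    have e2 := heN t ht
    have e6 : 0 ≤ g.w * (u t) ^ 2 := Nat.zero_le _
    have e7 : 8 * n t ≤ 8 * g.e * n t := by
      rcases hok.he with h | h <;> rw [h] <;> omega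
    omega
  set P : (Σ _ : Fin M → Finset ℕ, ℕ) → Prop := fun t => (∃ δ : ℕ, Adm δ ∧ Bad g.w g.I y δ ∧
      Rep g.e g.w δ (g.N t)) ∨ ∃ a u : ℕ, a ≤ v ∧ g.e * g.N t + a = g.w * u ^ 2 with hP
  have hsum : (g.Tup.filter P).card + (g.Tup.filter (fun t => ¬ P t)).card = g.Tup.card :=
    Finset.card_filter_add_card_filter_not P
  set Good := g.Tup.filter (fun t => ¬ P t) with hGood
  have hgood : (g.Tup.card : ℝ) / 2 ≤ (Good.card : ℝ) := by
    have : ((g.Tup.filter P).card : ℝ) + (Good.card : ℝ) = (g.Tup.card : ℝ) := by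
      exact_mod_cast hsum
    linarith
  refine hgood.trans ?_
  rw [Finset.card_eq_sum_card_image n Good]
  push_cast
  have himg : Good.image n ⊆ (range (2 ^ g.I + 1)).filter O := by
    intro b hb
    obtain ⟨t, ht, rfl⟩ := Finset.mem_image.1 hb
    have ht' := (Finset.mem_filter.1 ht).1
    rw [Finset.mem_filter, Finset.mem_range]
    exact ⟨Nat.lt_succ_of_le (hn t ht'), hodd t ht'⟩
  have hcardimg : ((Good.image n).card : ℝ) ≤ (cnt O (2 ^ g.I) : ℝ) := by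
    have := Finset.card_le_card himg
    unfold cnt
    exact_mod_cast this
  have hfib : ∀ b ∈ Good.image n, ((Good.filter (fun t => n t = b)).card : ℝ) ≤ Bd := by
    intro b hb
    obtain ⟨t, ht, htb⟩ := Finset.mem_image.1 hb
    obtain ⟨ht', hnp⟩ := Finset.mem_filter.1 ht
    simp only [hP, not_or, not_exists, not_and] at hnp
    obtain ⟨hnp1, hnp2⟩ := hnp
    have e1 := heq t ht'
    have e2 := heN t ht'
    have e3 := hnsq t ht'
    rw [htb] at e1 e3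
    have hb1 : v < 8 * g.e * b := by
      by_contra h
      exact hnp2 (v - 8 * g.e * b) (u t) (by omega) (by omega)
    have hodd' : (8 * g.e * b - v) % 2 = 1 := by
      have : 8 * g.e * b = 2 * (4 * g.e * b) := by ring
      omega
    obtain ⟨δ, s, hδs, hadm, hs⟩ := kernel (8 * g.e * b - v) hodd'
      (fun z hz => e3 z (by omega))
    have hrep : g.e * g.N t = δ * s ^ 2 + g.w * (u t) ^ 2 := by
      rw [hδs]; omega
    have hnb : ¬ Bad g.w g.I y δ := fun hbad => hnp1 δ hadm hbad ⟨s, u t, hrep⟩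
    have hle : δ * s ^ 2 ≤ 3 * 2 ^ g.I := by
      have e6 : 0 ≤ g.w * (u t) ^ 2 := Nat.zero_le _
      omega
    refine le_trans ?_ (hB δ s hadm hnb hs hle)
    have : (Good.filter (fun t => n t = b)).card ≤
        ((g.Tup ×ˢ range (2 ^ g.I + 1)).filter
          (fun x => g.e * g.N x.1 = δ * s ^ 2 + g.w * x.2 ^ 2)).card := by
      refine Finset.card_le_card_of_injOn (fun t => (t, u t)) ?_ ?_
      · intro t' ht2
        simp only [Finset.coe_filter, Set.mem_ofPred_eq] at ht2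
        obtain ⟨ht3, ht4⟩ := ht2
        have ht5 := (Finset.mem_filter.1 ht3).1
        have e7 := heq t' ht5
        rw [ht4] at e7
        simp only [Finset.coe_filter, Set.mem_ofPred_eq, Finset.mem_product, Finset.mem_range]
        refine ⟨⟨ht5, Nat.lt_succ_of_le (hu t' ht5)⟩, ?_⟩
        rw [hδs]; omega
      · intro a _ b _ hab
        exact (Prod.mk.inj hab).1
    exact_mod_cast this
  calc ∑ b ∈ Good.image n, ((Good.filter (fun t => n t = b)).card : ℝ)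
      ≤ ∑ b ∈ Good.image n, Bd := Finset.sum_le_sum hfib
    _ = ((Good.image n).card : ℝ) * Bd := by rw [Finset.sum_const, nsmul_eq_mul]
    _ ≤ (cnt O (2 ^ g.I) : ℝ) * Bd := mul_le_mul_of_nonneg_right hcardimg hBd

/-- the final computation -/
theorem stepB (c0 C I Rp U eM W y L R2 T O pr Mp s2 sI rt : ℝ) (hc0 : 0 < c0) (hC : 0 < C)
    (hI : 0 < I) (hRp : 0 < Rp) (heM : 0 < eM) (hW : 0 < W) (hy : 0 < y) (hL : 0 < L)
    (hR2 : R2 ≤ 8) (hR20 : 0 ≤ R2) (hO : 0 ≤ O) (hpr : pr ≤ eM * W) (hMp : 0 < Mp)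
    (hsI : 0 < sI) (hs2 : 0 < s2) (hrt : 0 < rt)
    (hU : U = s2 * sI / rt)
    (hT : c0 * (sI ^ 2 / (Rp * I)) * (W / Mp) ≤ T)
    (hTO : T / 2 ≤ O * (C * R2 * (U / Rp) * pr * (y * L / I)))
    : c0 * sI * rt / (16 * Mp * C * eM * s2 * y * L) ≤ O := by
  have hUpos : 0 < U := by rw [hU]; positivity
  have h1 : O * (C * R2 * (U / Rp) * pr * (y * L / I)) ≤
      O * (C * 8 * (U / Rp) * (eM * W) * (y * L / I)) := by
    apply mul_le_mul_of_nonneg_left _ hO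
    have e1 : C * R2 * (U / Rp) * pr ≤ C * 8 * (U / Rp) * (eM * W) := by
      calc C * R2 * (U / Rp) * pr ≤ C * R2 * (U / Rp) * (eM * W) :=
            mul_le_mul_of_nonneg_left hpr (by positivity)
        _ ≤ C * 8 * (U / Rp) * (eM * W) := by
            have : C * R2 ≤ C * 8 := mul_le_mul_of_nonneg_left hR2 hC.le
            have h2 : C * R2 * (U / Rp) ≤ C * 8 * (U / Rp) :=
              mul_le_mul_of_nonneg_right this (by positivity)
            exact mul_le_mul_of_nonneg_right h2 (by positivity)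
    exact mul_le_mul_of_nonneg_right e1 (by positivity)
  have h2 : c0 * (sI ^ 2 / (Rp * I)) * (W / Mp) / 2 ≤
      O * (C * 8 * (U / Rp) * (eM * W) * (y * L / I)) := by linarith
  rw [hU] at h2
  have h3 : c0 * (sI ^ 2 / (Rp * I)) * (W / Mp) / 2 =
      (c0 * sI * rt / (16 * Mp * C * eM * s2 * y * L)) *
        (C * 8 * (s2 * sI / rt / Rp) * (eM * W) * (y * L / I)) := by
    field_simp
    ring
  rw [h3] at h2
  exact le_of_mul_le_mul_right h2 (by positivity)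

end MAINaux

open MAINaux in
/-- task MAIN -/
theorem mainY (h1 : TupStmt) (h2 : TupLow) (h3 : GoodCount) (h4 : ParStmt) (h5 : RChoice)
    (h6 : BadTotal) : MainY := by
  intro O e v he hv halg M hM
  obtain ⟨r0, halg⟩ := halg
  obtain ⟨c0, hc0, I1, h2'⟩ := h2
  obtain ⟨C, hC, I2, h3'⟩ := h3
  obtain ⟨y4, h4'⟩ := h4 M hM
  obtain ⟨y5, h5'⟩ := h5 M hM
  obtain ⟨y6, h6'⟩ := h6 M v hM
  obtain ⟨y7, h7'⟩ := poly_exp M
  have hs3 : (0:ℝ) < Real.sqrt 3 := Real.sqrt_pos.2 (by norm_num)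
  obtain ⟨y8, h8'⟩ := log_small M
    (c0 / (128 * 2 ^ (M + 1) * C * Real.exp (M + 1 : ℕ) * Real.sqrt 3)) (by positivity)
  refine ⟨y4 + y5 + y6 + y7 + y8 + I1 + I2 + 2 ^ (r0 + 2) + v + 20, fun y hy I hI1 hI2 => ?_⟩
  have hp0 : 0 ≤ 2 ^ (r0 + 2) := Nat.zero_le _
  have hy20 : 20 ≤ y := by omega
  have hyI : y ≤ y ^ (2 * M + 4) := Nat.le_self_pow (by omega) _
  have hyY : y ≤ y ^ (2 * M - 1) := Nat.le_self_pow (by omega) _
  have hlog : r0 + 2 ≤ Nat.log 2 (y ^ (2 * M - 1)) :=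
    Nat.le_log_of_pow_le (by norm_num) (by omega)
  obtain ⟨r1, hr1⟩ : ∃ r1, Nat.log 2 (y ^ (2 * M - 1)) = r1 + 2 :=
    ⟨Nat.log 2 (y ^ (2 * M - 1)) - 2, by omega⟩
  have hY1 : 2 ^ (r1 + 2) ≤ y ^ (2 * M - 1) := by
    rw [← hr1]; exact Nat.pow_log_le_self 2 (by omega)
  have hY2 : y ^ (2 * M - 1) < 2 ^ (r1 + 3) := by
    have := Nat.lt_pow_succ_log_self (b := 2) (by norm_num) (y ^ (2 * M - 1))
    rwa [hr1] at this
  obtain ⟨r, w, cm, km, kn, hra, hrb, hw, hcm, hk1, hk2, halg'⟩ := halg r1 (by omega)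
  have hpa : 2 ^ r1 ≤ 2 ^ r := Nat.pow_le_pow_right (by norm_num) hra
  have hpb : 2 ^ (r + 1) ≤ 2 ^ (r1 + 2) := Nat.pow_le_pow_right (by norm_num) (by omega)
  have hpc : 2 ^ (r1 + 3) = 8 * 2 ^ r1 := by ring
  have hpd : 2 ^ (r + 1) = 2 * 2 ^ r := by ring
  have hNum : Num M y r w e cm km kn :=
    ⟨hw, he, hcm, by omega, by omega, by omega, by omega⟩
  have hPw : Pw w := by
    rcases hw with h | h
    · exact ⟨2 * r, by rw [h, pow_mul]; norm_num⟩
    · exact ⟨2 * r + 1, by rw [h, pow_succ, pow_mul]; norm_num; ring⟩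
  obtain ⟨R, hRC⟩ := h5' y (by omega) I hI1 hI2 w cm hPw hcm
  obtain ⟨hok, hcard, hcl, hk, hS, hκ, h2k, hprod, hW⟩ :=
    h4' y (by omega) I hI1 hI2 r w e cm km kn R hNum hRC.card hRC.pr hRC.le
  set g : Cfg (M + 1) := cfg M y I r w e cm km kn R with hg
  have hWpos : 0 < g.W := lt_of_lt_of_le (by positivity) hW
  have hIpow : I ≤ 2 ^ y := hI2.trans (h7' y (by omega))
  have hL : Nat.log 2 I ≤ y := by
    have := Nat.log_mono_right (b := 2) hIpow
    rwa [Nat.log_pow (by norm_num)] at this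
  have hIbig : 4000 * y * (Nat.log 2 I + 1) ≤ I := by
    have e1 : 4000 * y * (Nat.log 2 I + 1) ≤ 4000 * y * (2 * y) :=
      Nat.mul_le_mul_left _ (by omega)
    have e2 : y ^ 6 ≤ y ^ (2 * M + 4) := Nat.pow_le_pow_right (by omega) (by omega)
    have e3 : 20 ^ 4 ≤ y ^ 4 := Nat.pow_le_pow_left hy20 4
    have e4 : 8000 * y ^ 2 ≤ y ^ 6 := by
      calc 8000 * y ^ 2 ≤ y ^ 4 * y ^ 2 := Nat.mul_le_mul_right _ (by omega)
        _ = y ^ 6 := by ring
    calc 4000 * y * (Nat.log 2 I + 1) ≤ 4000 * y * (2 * y) := e1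
      _ = 8000 * y ^ 2 := by ring
      _ ≤ I := by omega
  have hksum : ∑ j, g.k j + g.R.card ≤ I := by
    have e1 : y ^ (2 * M - 1) ≤ y ^ (2 * M + 4) := Nat.pow_le_pow_right (by omega) (by omega)
    have e2 : g.R.card = R.card := rfl
    rw [e2]
    omega
  have hvI : v ≤ 2 ^ g.I := by
    have e1 : I < 2 ^ I := Nat.lt_two_pow_self
    show v ≤ 2 ^ I
    omega
  have key : ∀ t ∈ g.Tup, ∃ n u : ℕ, O n ∧ 8 * g.e * n + g.w * u ^ 2 = g.e * g.N t + v ∧
      (∀ z : ℕ, 8 * g.e * n ≠ v + z ^ 2) ∧ g.N t ≤ 2 ^ g.I := by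
    intro t ht
    obtain ⟨s, hs1, hs2, hs3, hs4, -, -, -, hs8⟩ := h1 (M + 1) g hok t ht
    have hRf : g.R.filter (fun q => q % 8 = g.c) = R :=
      Finset.filter_true_of_mem (fun q hq => (hRC.pr q hq).2.2)
    rw [hRf] at hs4
    obtain ⟨n, u, hn, hu, hz⟩ := halg' s hs1 (hs3.trans hcard) (hs4.trans hcl)
    rw [hs2] at hu
    exact ⟨n, u, hn, hu, hz, hs8⟩
  have hTlow := h2' (M + 1) g hok (show I1 ≤ I by omega) h2k
  have hA := stepA O v hv g hok y hvI key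
    (C * 2 ^ g.R.card * (g.U / g.Rp) *
      (∏ j, ((g.S j + 1 / (I : ℝ) ^ 2 + g.R.card / 2 ^ (g.κ j)) ^ g.k j /
        ((g.k j).factorial : ℝ))) * (y * (Nat.log 2 I + 1) / I))
    (by
      have hSnn : ∀ j, 0 ≤ g.S j := fun j => by
        unfold Cfg.S
        exact Finset.sum_nonneg (fun q _ => by positivity)
      have hU : 0 ≤ g.U := by unfold Cfg.U; positivity
      have hp : 0 ≤ (∏ j, ((g.S j + 1 / (I : ℝ) ^ 2 + g.R.card / 2 ^ (g.κ j)) ^ g.k j /
        ((g.k j).factorial : ℝ))) := by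
        refine Finset.prod_nonneg (fun j _ => ?_)
        have := hSnn j
        positivity
      positivity)
    (fun δ s h1 h2 h3 h4 => h3' (M + 1) g hok (show I2 ≤ I by omega) y (by omega)
      hIpow hIbig hκ hksum δ s h1 h2 h3 h4)
    (h6' y (by omega) I hI1 hI2 r w e cm km kn R hNum hRC)
  have hyR : (0:ℝ) < y := by exact_mod_cast (by omega : 0 < y)
  have hIR : (0:ℝ) < I := by
    have : 0 < I := by omega
    exact_mod_cast this
  have hRp : (0:ℝ) < (g.Rp : ℝ) := by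
    have : 0 < g.Rp := Finset.prod_pos (fun q hq => (hRC.pr q hq).1.pos)
    exact_mod_cast this
  have hB := stepB c0 C I (g.Rp) (g.U) (Real.exp (M + 1 : ℕ))
    (g.W) y (Nat.log 2 I + 1) (2 ^ g.R.card)
    (g.Tup.card) (cnt O (2 ^ I))
    (∏ j, ((g.S j + 1 / (I : ℝ) ^ 2 + g.R.card / 2 ^ (g.κ j)) ^ g.k j /
        ((g.k j).factorial : ℝ))) (2 ^ (M + 1)) (Real.sqrt 3) (Real.sqrt (2 ^ I))
    (2 ^ r) hc0 hC hIR hRp (Real.exp_pos _) hWpos hyR (by positivity)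
    (by
      have : R.card ≤ 3 := hRC.card
      calc (2:ℝ) ^ g.R.card ≤ 2 ^ 3 :=
            pow_le_pow_right₀ (by norm_num) this
        _ = 8 := by norm_num)
    (by positivity) (by positivity) hprod (by positivity) (by positivity) hs3 (by positivity)
    (by
      unfold Cfg.U
      rw [Real.sqrt_mul (by norm_num)]
      rfl)
    (by
      rw [Real.sq_sqrt (by positivity)]
      exact hTlow)
    hA
  refine le_trans ?_ hB
  have h8 := h8' y (by omega) I hI2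
  rw [Nat.cast_add, Nat.cast_one] at h8
  have hr2' : (y:ℝ) ^ (2 * M - 1) ≤ 8 * 2 ^ r := by exact_mod_cast hNum.h4
  have hzp : (y : ℝ) ^ (2 * M - 3 : ℤ) = (y:ℝ) ^ (2 * M - 1) / (y:ℝ) ^ 2 := by
    have e1 : (2 * M - 3 : ℤ) = ((2 * M - 1 : ℕ) : ℤ) - ((2 : ℕ) : ℤ) := by
      have : 1 ≤ 2 * M := by omega
      push_cast [this]
      ring
    rw [e1, zpow_sub₀ hyR.ne', zpow_natCast, zpow_natCast]
  rw [hzp]
  have hsI : 0 < Real.sqrt (2 ^ I) := Real.sqrt_pos.2 (by positivity)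
  have hLpos : (0:ℝ) < (Nat.log 2 I : ℝ) + 1 := by positivity
  have hexp : 0 < Real.exp (M + 1 : ℕ) := Real.exp_pos _
  generalize Real.exp (M + 1 : ℕ) = eM at h8 hexp ⊢
  rw [div_mul_eq_mul_div, le_div_iff₀ (by positivity)] at h8
  rw [← mul_div_assoc, div_le_div_iff₀ (by positivity) (by positivity)]
  calc Real.sqrt (2 ^ I) * (y:ℝ) ^ (2 * M - 1) *
        (16 * 2 ^ (M + 1) * C * eM * Real.sqrt 3 * y * ((Nat.log 2 I : ℝ) + 1))
      = Real.sqrt (2 ^ I) * ((y:ℝ) ^ (2 * M - 1) / 8) * y *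
        (((Nat.log 2 I : ℝ) + 1) * (128 * 2 ^ (M + 1) * C * eM * Real.sqrt 3)) := by ring
    _ ≤ Real.sqrt (2 ^ I) * 2 ^ r * y * (c0 * y) := by
        apply mul_le_mul _ h8 (by positivity) (by positivity)
        apply mul_le_mul_of_nonneg_right _ hyR.le
        exact mul_le_mul_of_nonneg_left (by linarith) hsI.le
    _ = c0 * Real.sqrt (2 ^ I) * 2 ^ r * (y:ℝ) ^ 2 := by ring

theorem cnt_mono (O : ℕ → Prop) {a b : ℕ} (hab : a ≤ b) : cnt O a ≤ cnt O b := by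
  classical
  unfold cnt
  apply Finset.card_le_card
  apply Finset.filter_subset_filter
  exact Finset.range_subset_range.2 (by omega)

/-- task FINAL -/
theorem final (h : MainY) : FinalStmt := by
  intro O e v he hv halg ε hε
  -- choice of M
  obtain ⟨n0, hn0⟩ := exists_nat_gt (7 / ε)
  set M : ℕ := max 2 n0 with hM
  have hM2 : 2 ≤ M := le_max_left _ _
  have hMn : (n0 : ℝ) ≤ M := by exact_mod_cast le_max_right 2 n0
  set D : ℕ := 2 * M + 4 with hD
  have hDr : (D : ℝ) = 2 * M + 4 := by rw [hD]; push_cast; ring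
  have hD0 : (0 : ℝ) < D := by rw [hDr]; positivity
  have hD7 : (7 : ℝ) < D := by
    have : (2 : ℝ) ≤ M := by exact_mod_cast hM2
    rw [hDr]; linarith
  set δ : ℝ := 7 / D with hδ
  have hδpos : 0 < δ := by rw [hδ]; positivity
  have hδ1 : δ < 1 := by rw [hδ, div_lt_one hD0]; exact hD7
  have hδε : δ < ε := by
    rw [hδ, div_lt_iff₀ hD0]
    have h1 : 7 < M * ε := by
      rw [← div_lt_iff₀ hε]; linarith
    have hM0 : (0 : ℝ) ≤ M := Nat.cast_nonneg _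
    rw [hDr]
    nlinarith
  obtain ⟨y0, hy0⟩ := h O e v he hv halg M (by omega)
  set B : ℕ := max (max (y0 ^ D) ((2 * D) ^ D)) 2 with hB
  set X : ℝ := (8 : ℝ) ^ (1 / (ε - δ)) with hX
  have hX0 : 0 < X := by rw [hX]; positivity
  refine ⟨max ((2 : ℝ) ^ B) (Real.exp X), fun x hx => ?_⟩
  have hx1 : 2 ^ B ≤ x := by
    have := (le_max_left _ _).trans hx
    exact_mod_cast this
  have hx2 : Real.exp X ≤ x := (le_max_right _ _).trans hx
  have hxpos : 0 < x := lt_of_lt_of_le (by positivity) hx1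
  have hxpos' : (0 : ℝ) < x := by exact_mod_cast hxpos
  set I : ℕ := Nat.log 2 x with hI
  have hIB : B ≤ I := Nat.le_log_of_pow_le (by norm_num) hx1
  have hI2 : 2 ≤ I := (le_max_right _ _).trans hIB
  have hIy0 : y0 ^ D ≤ I := ((le_max_left _ _).trans (le_max_left _ _)).trans hIB
  have hID : (2 * D) ^ D ≤ I := ((le_max_right _ _).trans (le_max_left _ _)).trans hIB
  have hxI : 2 ^ I ≤ x := Nat.pow_log_le_self 2 (by omega)
  have hxI' : x < 2 ^ (I + 1) := Nat.lt_pow_succ_log_self (by norm_num) x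
  -- choice of y
  set y : ℕ := Nat.findGreatest (fun y => y ^ D ≤ I) I with hy
  have hD1 : D ≠ 0 := by omega
  have hyD : y ^ D ≤ I :=
    Nat.findGreatest_spec (P := fun y => y ^ D ≤ I) (m := 0) (Nat.zero_le _)
      (by simp [hD1])
  have hge : ∀ z : ℕ, z ^ D ≤ I → z ≤ y := by
    intro z hz
    refine Nat.le_findGreatest ?_ hz
    exact (Nat.le_self_pow hD1 z).trans hz
  have hyy0 : y0 ≤ y := hge _ hIy0
  have hy2D : 2 * D ≤ y := hge _ hID
  have hlt : I < (y + 1) ^ D := by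
    by_contra hcon
    push Not at hcon
    have := hge _ hcon
    omega
  have hI2y : I ≤ 2 * y ^ D := by
    have h1 : (I : ℝ) < ((y : ℝ) + 1) ^ D := by exact_mod_cast hlt
    have h2 := fin_two (D := D) (y := y) (by omega) hy2D
    have h3 : (I : ℝ) ≤ 2 * (y : ℝ) ^ D := by linarith
    exact_mod_cast h3
  have hmain := hy0 y hyy0 I hyD hI2y
  have hmono : (cnt O (2 ^ I) : ℝ) ≤ cnt O x := by
    exact_mod_cast cnt_mono O hxI
  refine le_trans ?_ (hmain.trans hmono)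
  -- real estimates
  set L : ℝ := Real.log x with hL
  have hLX : X ≤ L := by
    rw [hL]
    have := Real.log_le_log (Real.exp_pos X) hx2
    rwa [Real.log_exp] at this
  have hL0 : 0 < L := by linarith
  have hLI : L ≤ 2 * I := by
    have h1 : L ≤ Real.log ((2 : ℝ) ^ (I + 1)) := by
      rw [hL]
      refine Real.log_le_log hxpos' ?_
      exact_mod_cast hxI'.le
    rw [Real.log_pow] at h1
    have h2 : Real.log 2 ≤ 1 := by linarith [Real.log_two_lt_d9]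
    have h3 : ((I + 1 : ℕ) : ℝ) ≤ 2 * I := by
      have : (2 : ℝ) ≤ I := by exact_mod_cast hI2
      push_cast; linarith
    have h4 : (0 : ℝ) ≤ ((I + 1 : ℕ) : ℝ) := Nat.cast_nonneg _
    nlinarith
  have hyL : L / 4 ≤ (y : ℝ) ^ D := by
    have h1 : (I : ℝ) ≤ 2 * (y : ℝ) ^ D := by exact_mod_cast hI2y
    linarith
  have hy0' : (0 : ℝ) < y := by exact_mod_cast (by omega : 0 < y)
  have hpow : (L / 4) ^ (1 - δ) ≤ (y : ℝ) ^ (2 * (M : ℤ) - 3) := by
    have h1 : (y : ℝ) ^ (2 * (M : ℤ) - 3) = ((y : ℝ) ^ D) ^ (1 - δ) := by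
      rw [← Real.rpow_natCast (y : ℝ) D, ← Real.rpow_mul hy0'.le, ← Real.rpow_intCast]
      congr 1
      rw [hδ]
      push_cast
      field_simp
      rw [hDr]
      ring
    rw [h1]
    exact Real.rpow_le_rpow (by positivity) hyL (by linarith)
  have hsqrt : Real.sqrt x / Real.sqrt 2 ≤ Real.sqrt (2 ^ I) := by
    rw [← Real.sqrt_div hxpos'.le]
    apply Real.sqrt_le_sqrt
    have : (x : ℝ) ≤ 2 ^ (I + 1) := by exact_mod_cast hxI'.le
    rw [pow_succ] at this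
    linarith
  have hL8 : 8 * L ^ (1 - ε) ≤ L ^ (1 - δ) := by
    have h1 : L ^ (1 - δ) = L ^ (ε - δ) * L ^ (1 - ε) := by
      rw [← Real.rpow_add hL0]; congr 1; ring
    rw [h1]
    refine mul_le_mul_of_nonneg_right ?_ (by positivity)
    have h2 : X ^ (ε - δ) = 8 := by
      rw [hX, ← Real.rpow_mul (by norm_num)]
      have : 1 / (ε - δ) * (ε - δ) = 1 := by
        have : ε - δ ≠ 0 := by linarith
        field_simp
      rw [this, Real.rpow_one]
    rw [← h2]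
    exact Real.rpow_le_rpow hX0.le hLX (by linarith)
  have h4 : L ^ (1 - δ) ≤ 4 * (L / 4) ^ (1 - δ) := by
    rw [Real.div_rpow hL0.le (by norm_num)]
    have h5 : (4 : ℝ) ^ (1 - δ) ≤ 4 := by
      calc (4 : ℝ) ^ (1 - δ) ≤ (4 : ℝ) ^ (1 : ℝ) :=
            Real.rpow_le_rpow_of_exponent_le (by norm_num) (by linarith)
        _ = 4 := Real.rpow_one 4
    have h6 : (0 : ℝ) < (4 : ℝ) ^ (1 - δ) := by positivity
    have h7 : (0 : ℝ) < L ^ (1 - δ) := by positivity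
    rw [← mul_div_assoc, le_div_iff₀ h6]
    nlinarith
  have h8 : 2 * L ^ (1 - ε) ≤ (L / 4) ^ (1 - δ) := by linarith
  have hs2 : Real.sqrt 2 ≤ 2 := by
    rw [Real.sqrt_le_left (by norm_num)]; norm_num
  have hs0 : 0 < Real.sqrt 2 := Real.sqrt_pos.2 (by norm_num)
  calc Real.sqrt x * L ^ (1 - ε) = Real.sqrt x / Real.sqrt 2 * (Real.sqrt 2 * L ^ (1 - ε)) := by
        field_simp
    _ ≤ Real.sqrt x / Real.sqrt 2 * (2 * L ^ (1 - ε)) := by gcongr
    _ ≤ Real.sqrt (2 ^ I) * (L / 4) ^ (1 - δ) := by gcongr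
    _ ≤ Real.sqrt (2 ^ I) * (y : ℝ) ^ (2 * (M : ℤ) - 3) := by gcongr

end Pool.Agent.H189Z.MP
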