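import Pool.Agent.H189Z.MP.Basic

set_option autoImplicit false

/-!
# Task QR: quadratic residues and the forms `δ s² + w u²`
-/

namespace Pool.Agent.H189Z.MP

open Pool.Agent.H307R2.OP (J PB Pr2 BT4 ESStmt SVStmt BadCount kap)

open Finset

namespace QRAux

theorem om_zero (w δ s q : ℕ) (hw : Pw w) (hq : q.Prime) (h5 : 5 ≤ q) (hs : q ∣ s) :
    Om w δ s q = {0} := by
  ext u
  simp only [Om, mem_filter, mem_range, mem_singleton]
  constructor
  · rintro ⟨hu, hd⟩
    have h1 : q ∣ δ * s ^ 2 := (dvd_pow hs two_ne_zero).mul_left δ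
    have h2 : q ∣ w * u ^ 2 := (Nat.dvd_add_right h1).mp hd
    rcases hq.dvd_mul.mp h2 with h | h
    · exact absurd h (hw.not_dvd hq (by omega))
    · have h3 : q ∣ u := hq.dvd_of_dvd_pow h
      by_contra hne
      have := Nat.le_of_dvd (Nat.pos_of_ne_zero hne) h3
      omega
  · rintro rfl
    refine ⟨hq.pos, ?_⟩
    simpa using (dvd_pow hs two_ne_zero).mul_left δ

theorem om_card (w δ s q : ℕ) (hw : Pw w) (hq : q.Prime) (h5 : 5 ≤ q) (hs : ¬ q ∣ s) :
    (((Om w δ s q).card : ℤ)) = 1 + jacobiSym (-((w * δ : ℕ) : ℤ)) q := by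
  haveI := Fact.mk hq
  have h1 := legendreSym.card_sqrts q (by omega : q ≠ 2) (-((w * δ : ℕ) : ℤ))
  rw [jacobiSym.legendreSym.to_jacobiSym] at h1
  rw [add_comm, ← h1]
  have hs0 : (s : ZMod q) ≠ 0 := by
    rw [Ne, ZMod.natCast_eq_zero_iff]; exact hs
  have hw0 : (w : ZMod q) ≠ 0 := by
    rw [Ne, ZMod.natCast_eq_zero_iff]; exact hw.not_dvd hq (by omega)
  have hmem : ∀ u : ℕ, (q ∣ δ * s ^ 2 + w * u ^ 2) ↔
      ((δ : ZMod q) * s ^ 2 + w * u ^ 2 = 0) := by
    intro u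
    rw [← ZMod.natCast_eq_zero_iff]
    push_cast
    rfl
  congr 1
  refine Finset.card_bij (fun u _ => (w : ZMod q) * u * (s : ZMod q)⁻¹) ?_ ?_ ?_
  · intro u hu
    simp only [Om, mem_filter, mem_range] at hu
    have h := (hmem u).mp hu.2
    simp only [Set.mem_toFinset, Set.mem_ofPred_eq]
    have h' : w * (u : ZMod q) ^ 2 = -((δ : ZMod q) * s ^ 2) := by
      linear_combination h
    push_cast
    have h3 : ((w : ZMod q) * u * (s : ZMod q)⁻¹) ^ 2 = w * (w * (u : ZMod q) ^ 2) * ((s : ZMod q)⁻¹) ^ 2 := by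
      ring
    rw [h3, h']
    field_simp
  · intro u hu v hv huv
    simp only [Om, mem_filter, mem_range] at hu hv
    have h : (u : ZMod q) = v := by
      have h2 := mul_right_cancel₀ (inv_ne_zero hs0) huv
      exact mul_left_cancel₀ hw0 h2
    rw [ZMod.natCast_eq_natCast_iff'] at h
    rwa [Nat.mod_eq_of_lt hu.1, Nat.mod_eq_of_lt hv.1] at h
  · intro x hx
    simp only [Set.mem_toFinset, Set.mem_ofPred_eq] at hx
    refine ⟨(x * s * ((w : ZMod q))⁻¹).val, ?_, ?_⟩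
    · simp only [Om, mem_filter, mem_range]
      refine ⟨ZMod.val_lt _, (hmem _).mpr ?_⟩
      rw [ZMod.natCast_val, ZMod.cast_id', id]
      rw [mul_pow, mul_pow, hx]
      push_cast
      field_simp
      ring
    · rw [ZMod.natCast_val, ZMod.cast_id', id]
      field_simp

theorem sgn_int (ρ δ c : ℕ) (hδ : δ % 2 = 1) (hc : c % 2 = 1) : ∃ ε : ℤ, (ε = 1 ∨ ε = -1) ∧
    ∀ q : ℕ, q % 8 = c → jacobiSym (-((2 ^ ρ * δ : ℕ) : ℤ)) q = ε * jacobiSym (q : ℤ) δ := by
  refine ⟨ZMod.χ₄ (c : ZMod 4) * (ZMod.χ₈ (c : ZMod 8)) ^ ρ * (-1) ^ (δ / 2 * (c / 2)), ?_, ?_⟩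
  · have h1 : ZMod.χ₄ (c : ZMod 4) = 1 ∨ ZMod.χ₄ (c : ZMod 4) = -1 := by
      rw [ZMod.χ₄_nat_eq_if_mod_four]
      split_ifs with h1 h2
      · omega
      · left; rfl
      · right; rfl
    have h2 : ZMod.χ₈ (c : ZMod 8) = 1 ∨ ZMod.χ₈ (c : ZMod 8) = -1 := by
      rw [ZMod.χ₈_nat_eq_if_mod_eight]
      split_ifs with h1 h2
      · omega
      · left; rfl
      · right; rfl
    have h3 : (ZMod.χ₈ (c : ZMod 8)) ^ ρ = 1 ∨ (ZMod.χ₈ (c : ZMod 8)) ^ ρ = -1 := by
      rcases h2 with h | h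
      · rw [h]; simp
      · rw [h]; exact neg_one_pow_eq_or ℤ ρ
    have h4 := neg_one_pow_eq_or ℤ (δ / 2 * (c / 2))
    rcases h1 with h1 | h1 <;> rcases h3 with h3 | h3 <;> rcases h4 with h4 | h4 <;>
      rw [h1, h3, h4] <;> norm_num
  · intro q hq
    have hqo : Odd q := Nat.odd_iff.2 (by omega)
    have hδo : Odd δ := Nat.odd_iff.2 hδ
    rw [jacobiSym.neg _ hqo]
    push_cast
    rw [jacobiSym.mul_left, jacobiSym.pow_left, jacobiSym.at_two hqo,
      jacobiSym.quadratic_reciprocity hδo hqo]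
    have e1 : ZMod.χ₄ (q : ZMod 4) = ZMod.χ₄ (c : ZMod 4) := by
      rw [ZMod.χ₄_nat_mod_four q, ZMod.χ₄_nat_mod_four c]
      congr 2
      omega
    have e2 : ZMod.χ₈ (q : ZMod 8) = ZMod.χ₈ (c : ZMod 8) := by
      rw [ZMod.χ₈_nat_mod_eight q, hq]
    have e3 : (-1 : ℤ) ^ (δ / 2 * (q / 2)) = (-1) ^ (δ / 2 * (c / 2)) := by
      have h1 : q / 2 = c / 2 + 2 * (2 * (q / 8)) := by omega
      rw [h1, mul_add, pow_add, mul_left_comm, pow_mul]
      simp
    rw [e1, e2, e3]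
    ring

end QRAux

theorem qr : QRStmt where
  val := by
    intro w q δ
    rcases jacobiSym.trichotomy (-((w * δ : ℕ) : ℤ)) q with h | h | h
    · right; left; simp only [K, h]; simp
    · right; right; simp only [K, h]; simp
    · left; simp only [K, h]; simp
  kill := by
    rintro e w δ N q he hw hq h5 hJ hN hN2 ⟨s, u, hsu⟩
    have hJ' : jacobiSym (-((w * δ : ℕ) : ℤ)) q = -1 := by
      unfold K at hJ
      exact_mod_cast hJ
    by_cases hs : q ∣ s
    · have h1 : q ∣ δ * s ^ 2 := (dvd_pow hs two_ne_zero).mul_left δ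
      have h0 : q ∣ δ * s ^ 2 + w * u ^ 2 := hsu ▸ (hN.mul_left e)
      have h2 : q ∣ w * u ^ 2 := (Nat.dvd_add_right h1).mp h0
      have h3 : q ∣ u := by
        rcases hq.dvd_mul.mp h2 with h | h
        · exact absurd h (hw.not_dvd hq (by omega))
        · exact hq.dvd_of_dvd_pow h
      have h4 : q ^ 2 ∣ e * N := by
        rw [hsu]
        exact dvd_add ((pow_dvd_pow_of_dvd hs 2).mul_left δ)
          ((pow_dvd_pow_of_dvd h3 2).mul_left _)
      have hc : Nat.Coprime (q ^ 2) e := by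
        apply Nat.Coprime.pow_left
        rcases he with rfl | rfl
        · simp
        · rw [Nat.coprime_primes hq Nat.prime_three]
          omega
      exact hN2 (hc.dvd_of_dvd_mul_left h4)
    · have hc := QRAux.om_card w δ s q hw hq h5 hs
      rw [hJ'] at hc
      have hc0 : (Om w δ s q).card = 0 := by
        have : ((Om w δ s q).card : ℤ) = 0 := by rw [hc]; norm_num
        exact_mod_cast this
      have hmem : u % q ∈ Om w δ s q := by
        simp only [Om, mem_filter, mem_range]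
        refine ⟨Nat.mod_lt _ hq.pos, ?_⟩
        have h0 : q ∣ δ * s ^ 2 + w * u ^ 2 := hsu ▸ (hN.mul_left e)
        have h1 : (δ * s ^ 2 + w * (u % q) ^ 2) ≡ (δ * s ^ 2 + w * u ^ 2) [MOD q] :=
          Nat.ModEq.add_left _ (Nat.ModEq.mul_left _ ((Nat.mod_modEq u q).pow 2))
        exact (h1.dvd_iff dvd_rfl).mpr h0
      rw [Finset.card_eq_zero] at hc0
      rw [hc0] at hmem
      exact absurd hmem (Finset.notMem_empty _)
  om_card := by
    intro w δ s q hw hq h5 hs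
    have h := QRAux.om_card w δ s q hw hq h5 hs
    unfold K
    exact_mod_cast h
  om_zero := by
    intro w δ s q hw hq h5 hs
    exact QRAux.om_zero w δ s q hw hq h5 hs
  sgn := by
    rintro w δ c ⟨ρ, rfl⟩ hδ hc
    obtain ⟨ε, h1, h2⟩ := QRAux.sgn_int ρ δ c hδ hc
    refine ⟨ε, ?_, fun q hq => ?_⟩
    · rcases h1 with h | h <;> rw [h] <;> norm_num
    · unfold K J
      rw [h2 q hq]
      push_cast
      ring

end Pool.Agent.H189Z.MP
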