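import Pool.Agent.H189Z.MP.Defs
import Pool.Agent.H307R2.OP.RCH

set_option autoImplicit false

/-!
# Odd values of the multipartition functions: choice of the killing primes (helper358)
-/

namespace Pool.Agent.H189Z.MP

open Finset
open Pool.Agent.H307R2.OP (kap rch_pow)

theorem rch_not_sq_mul {a b : ℕ} (ha : Squarefree a) (hb : Squarefree b) (hne : a ≠ b)
    (ha0 : a ≠ 0) : ¬ IsSquare (a * b) := by
  rintro ⟨k, hk⟩
  have h1 : a ∣ k := by
    have h2 : a ∣ k ^ 2 := ⟨b, by rw [sq, ← hk]⟩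
    exact (ha.dvd_pow_iff_dvd (by norm_num)).1 h2
  obtain ⟨t, rfl⟩ := h1
  have h2 : b = a * (t * t) := by
    have : a * b = a * (a * (t * t)) := by rw [hk]; ring
    exact Nat.eq_of_mul_eq_mul_left (Nat.pos_of_ne_zero ha0) this
  have h3 : t * t ∣ b := ⟨a, by rw [h2]; ring⟩
  have h4 := Nat.isUnit_iff.1 (hb t h3)
  apply hne
  rw [h2, h4]
  ring

/-- if `x * c` and `x * d` are squares (`x ≠ 0`), so is `c * d` -/
theorem rch_sq_of_sq {x c d : ℕ} (hx : x ≠ 0) (h1 : IsSquare (x * c)) (h2 : IsSquare (x * d)) :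
    IsSquare (c * d) := by
  obtain ⟨u, hu⟩ := h1
  obtain ⟨v, hv⟩ := h2
  have h3 : x ^ 2 * (c * d) = (u * v) ^ 2 := by
    calc x ^ 2 * (c * d) = (x * c) * (x * d) := by ring
      _ = (u * v) ^ 2 := by rw [hu, hv]; ring
  have h4 : x ∣ u * v := by
    have : x ^ 2 ∣ (u * v) ^ 2 := ⟨c * d, h3.symm⟩
    exact (Nat.pow_dvd_pow_iff (by norm_num)).1 this
  obtain ⟨t, ht⟩ := h4
  refine ⟨t, ?_⟩
  have h5 : x ^ 2 * (c * d) = x ^ 2 * (t * t) := by
    rw [h3, ht]; ring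
  exact Nat.eq_of_mul_eq_mul_left (by positivity) h5

open Classical in
/-- choice of the killing primes -/
theorem rChoice (h1 : StrongStmt) (h2 : KillPrime) : RChoice := by
  obtain ⟨C1, hC1⟩ := h1
  obtain ⟨C2, hC2⟩ := h2
  intro M hM
  refine ⟨1 + C1 + 8 * C1 + 432 * C2, ?_⟩
  intro y hy I hI1 hI2 w cm hw hcm
  have hy1 : 1 ≤ y := by omega
  set Δ : ℕ := 2 ^ (8 * y ^ (2 * M - 1)) with hΔ
  set i : ℕ := kap M y 0 with hi
  have hi' : i = y ^ (2 * M + 2) := by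
    rw [hi]; unfold kap; simp
  have hCi : C1 ≤ i := by
    rw [hi']
    calc C1 ≤ y := by omega
      _ = y ^ 1 := (pow_one y).symm
      _ ≤ y ^ (2 * M + 2) := Nat.pow_le_pow_right hy1 (by omega)
  have hΔC : Δ ^ C1 ≤ 2 ^ i := by
    rw [hΔ, ← pow_mul]
    apply Nat.pow_le_pow_right (by norm_num)
    rw [hi']
    have := rch_pow C1 8 (2 * M - 1) (2 * M + 2) y (by omega) hy1 (by omega)
    calc 8 * y ^ (2 * M - 1) * C1 = 8 * C1 * y ^ (2 * M - 1) := by ring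
      _ ≤ _ := this
  -- the strong kernels
  set SB : Finset ℕ := (range (Δ + 1)).filter (fun δ => Adm δ ∧ StrongAt w cm i δ) with hSB
  have hSBcard : SB.card ≤ 3 := by
    by_contra hcon
    push Not at hcon
    obtain ⟨d, hd⟩ : SB.Nonempty := Finset.card_pos.1 (by omega)
    have hcon2 : 2 < (SB.erase d).card := by
      rw [Finset.card_erase_of_mem hd]
      omega
    obtain ⟨a, ha, b, hb, c, hc, hab, hac, hbc⟩ := Finset.two_lt_card.mp hcon2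
    obtain ⟨had, ha⟩ := Finset.mem_erase.1 ha
    obtain ⟨hbd, hb⟩ := Finset.mem_erase.1 hb
    obtain ⟨hcd, hc⟩ := Finset.mem_erase.1 hc
    rw [hSB, Finset.mem_filter, Finset.mem_range] at ha hb hc hd
    have ha0 : a ≠ 0 := by
      have := ha.2.1.1.1
      omega
    have hb0 : b ≠ 0 := by
      have := hb.2.1.1.1
      omega
    have hc0 : c ≠ 0 := by
      have := hc.2.1.1.1
      omega
    by_cases hs1 : IsSquare (a * b * c)
    · by_cases hs2 : IsSquare (a * b * d)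
      · exact rch_not_sq_mul hc.2.1.2 hd.2.1.2 hcd hc0
          (rch_sq_of_sq (mul_ne_zero ha0 hb0) hs1 hs2)
      · exact hC1 w cm i Δ a b d hw hcm hCi hΔC ha.2.1 hb.2.1 hd.2.1 (by omega) (by omega)
          (by omega) hab had hbd hs2 ha.2.2 hb.2.2 hd.2.2
    · exact hC1 w cm i Δ a b c hw hcm hCi hΔC ha.2.1 hb.2.1 hc.2.1 (by omega) (by omega)
        (by omega) hab hac hbc hs1 ha.2.2 hb.2.2 hc.2.2
  have hch : ∀ δ : ℕ, ∃ q : ℕ, Adm δ → (q.Prime ∧ 5 ≤ q ∧ q % 8 = cm ∧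
      K w q δ = -1 ∧ q ≤ C2 * δ ^ C2) := by
    intro δ
    by_cases h : Adm δ
    · obtain ⟨q, hq⟩ := hC2 w cm δ hw hcm h
      exact ⟨q, fun _ => hq⟩
    · exact ⟨0, fun h' => absurd h' h⟩
  choose qf hqf using hch
  set R : Finset ℕ := SB.image qf with hR
  have hRcard : R.card ≤ 3 := Finset.card_image_le.trans hSBcard
  have hRmem : ∀ q ∈ R, ∃ δ : ℕ, Adm δ ∧ δ ≤ Δ ∧ qf δ = q := by
    intro q hq
    rw [hR, Finset.mem_image] at hq
    obtain ⟨δ, hδ, hq⟩ := hq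
    rw [hSB, Finset.mem_filter, Finset.mem_range] at hδ
    exact ⟨δ, hδ.2.1, by omega, hq⟩
  have hRpr : ∀ q ∈ R, q.Prime ∧ 5 ≤ q ∧ q % 8 = cm := by
    intro q hq
    obtain ⟨δ, hδ, _, rfl⟩ := hRmem q hq
    obtain ⟨h3, h4, h5, _⟩ := hqf δ hδ
    exact ⟨h3, h4, h5⟩
  have hRle : ∀ q ∈ R, q ≤ 2 ^ (9 * C2 * y ^ (2 * M - 1)) := by
    intro q hq
    obtain ⟨δ, hδ, hδle, rfl⟩ := hRmem q hq
    obtain ⟨_, _, _, _, h5⟩ := hqf δ hδ
    have hyp : 1 ≤ y ^ (2 * M - 1) := Nat.one_le_pow _ _ hy1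
    calc qf δ ≤ C2 * δ ^ C2 := h5
      _ ≤ 2 ^ C2 * Δ ^ C2 :=
        Nat.mul_le_mul (Nat.lt_two_pow_self).le (Nat.pow_le_pow_left hδle C2)
      _ = 2 ^ (C2 + 8 * y ^ (2 * M - 1) * C2) := by rw [hΔ, ← pow_mul, ← pow_add]
      _ ≤ 2 ^ (9 * C2 * y ^ (2 * M - 1)) := by
        apply Nat.pow_le_pow_right (by norm_num)
        nlinarith [Nat.mul_le_mul_left C2 hyp]
  have hRprod : ∏ q ∈ R, q ≤ 2 ^ (I / 16) := by
    have h3 : ∏ q ∈ R, q ≤ (2 ^ (9 * C2 * y ^ (2 * M - 1))) ^ R.card :=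
      Finset.prod_le_pow_card R (fun q => q) _ hRle
    refine h3.trans ?_
    calc (2 ^ (9 * C2 * y ^ (2 * M - 1))) ^ R.card ≤ (2 ^ (9 * C2 * y ^ (2 * M - 1))) ^ 3 :=
          Nat.pow_le_pow_right (by positivity) hRcard
      _ = 2 ^ (9 * C2 * y ^ (2 * M - 1) * 3) := by rw [← pow_mul]
      _ ≤ 2 ^ (I / 16) := by
        apply Nat.pow_le_pow_right (by norm_num)
        rw [Nat.le_div_iff_mul_le (by norm_num)]
        have := rch_pow C2 432 (2 * M - 1) (2 * M + 4) y (by omega) hy1 (by omega)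
        calc 9 * C2 * y ^ (2 * M - 1) * 3 * 16 = 432 * C2 * y ^ (2 * M - 1) := by ring
          _ ≤ y ^ (2 * M + 4) := this
          _ ≤ I := hI1
  have hkills : ∀ δ : ℕ, Adm δ → δ ≤ 2 ^ (8 * y ^ (2 * M - 1)) → StrongAt w cm (kap M y 0) δ →
      ∃ q ∈ R, K w q δ = -1 := by
    intro δ hδ hle hst
    refine ⟨qf δ, ?_, ?_⟩
    · rw [hR, Finset.mem_image]
      refine ⟨δ, ?_, rfl⟩
      rw [hSB, Finset.mem_filter, Finset.mem_range]
      exact ⟨Nat.lt_succ_of_le hle, hδ, hst⟩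
    · exact (hqf δ hδ).2.2.2.1
  exact ⟨R, hRcard, hRpr, hRprod, hkills⟩

end Pool.Agent.H189Z.MP
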