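import Pool.Agent.H189Z.MP.Basic

set_option autoImplicit false

/-!
# Odd values of the partition function: lower bound for the number of tuples
-/

namespace Pool.Agent.H189Z.MP

open Pool.Agent.H307R2.OP (J PB Pr2 BT4 ESStmt SVStmt BadCount kap)

open Finset

theorem t1_two_pow (m : ℕ) (hm : 200 ≤ m) : 80 * m + 60 ≤ 2 ^ m := by
  induction m, hm using Nat.le_induction with
  | base => norm_num
  | succ n hn ih =>
    rw [pow_succ]
    omega

theorem t1_two_pow' (I : ℕ) (hI : 800 ≤ I) : 20 * I ≤ 2 ^ (I / 4) := by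
  have h := t1_two_pow (I / 4) (by omega)
  omega

theorem t1_block_term (S τ : ℝ) (k : ℕ) (hτ : 0 < τ) (hS : 0 ≤ S)
    (h : 2 * (k : ℝ) ^ 2 * τ ≤ S) :
    (k : ℝ) * τ ≤ S ∧ 1 / 2 * (S ^ k / (k.factorial : ℝ)) ≤ (S - k * τ) ^ k / (k.factorial : ℝ) := by
  rcases Nat.eq_zero_or_pos k with hk | hk
  · subst hk
    constructor
    · simpa using hS
    · norm_num
  · have hk1 : (1 : ℝ) ≤ k := by exact_mod_cast hk
    have hkk : (k : ℝ) ≤ 2 * (k : ℝ) ^ 2 := by nlinarith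
    have hSpos : 0 < S := by
      have : 0 < 2 * (k : ℝ) ^ 2 * τ := by positivity
      linarith
    have h1 : (k : ℝ) * τ ≤ S := by
      have : (k : ℝ) * τ ≤ 2 * (k : ℝ) ^ 2 * τ := mul_le_mul_of_nonneg_right hkk hτ.le
      linarith
    refine ⟨h1, ?_⟩
    have hf : (0 : ℝ) < (k.factorial : ℝ) := by exact_mod_cast Nat.factorial_pos k
    rw [← mul_div_assoc]
    apply div_le_div_of_nonneg_right _ hf.le
    have ha : (-2 : ℝ) ≤ -(k * τ / S) := by
      have : k * τ / S ≤ 1 := by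
        rw [div_le_one hSpos]; exact h1
      linarith
    have hb := one_add_mul_le_pow ha k
    have hc : (k : ℝ) * (k * τ / S) ≤ 1 / 2 := by
      rw [← mul_div_assoc, div_le_iff₀ hSpos]
      nlinarith
    have hd : (1 / 2 : ℝ) ≤ (1 + -(k * τ / S)) ^ k := by
      refine le_trans ?_ hb
      nlinarith
    have he : S - k * τ = S * (1 + -(k * τ / S)) := by
      field_simp
      ring
    rw [he, mul_pow]
    have hp : 0 ≤ S ^ k := by positivity
    nlinarith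

theorem t1_mass {M : ℕ} (h2 : ESStmt) (g : Cfg M)
    (hk : ∀ j, 2 * (g.k j : ℝ) ^ 2 ≤ 2 ^ (g.κ j) * g.S j) :
    g.W / 2 ^ M ≤ ∑ A ∈ g.Fam, 1 / (g.Q A : ℝ) := by
  have e1 : ∑ A ∈ g.Fam, 1 / (g.Q A : ℝ) =
      ∏ j, ∑ A ∈ powersetCard (g.k j) (g.Blk j), ∏ q ∈ A, (1 : ℝ) / q := by
    rw [← h2.fam M g.Blk g.k (fun q => (1 : ℝ) / q)]
    unfold Cfg.Fam Cfg.Q
    apply Finset.sum_congr rfl
    intro A _
    push_cast
    simp [Finset.prod_inv_distrib]
  have e2 : g.W / 2 ^ M = ∏ j : Fin M, (1 / 2 * (g.S j ^ g.k j / ((g.k j).factorial : ℝ))) := by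
    unfold Cfg.W
    rw [Finset.prod_mul_distrib]
    simp
    ring
  have hSn : ∀ j, 0 ≤ g.S j := fun j => by
    unfold Cfg.S
    exact Finset.sum_nonneg (fun q _ => by positivity)
  rw [e1, e2]
  apply Finset.prod_le_prod
  · intro j _
    have := hSn j
    positivity
  · intro j _
    have hτ : (0 : ℝ) < 1 / 2 ^ (g.κ j) := by positivity
    have hh : 2 * (g.k j : ℝ) ^ 2 * (1 / 2 ^ (g.κ j)) ≤ g.S j := by
      rw [mul_one_div, div_le_iff₀ (by positivity)]
      have := hk j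
      linarith
    obtain ⟨h3, h4⟩ := t1_block_term (g.S j) (1 / 2 ^ (g.κ j)) (g.k j) hτ (hSn j) hh
    refine le_trans h4 ?_
    have := h2.low (g.Blk j) (fun q => (1 : ℝ) / q) (g.k j) (1 / 2 ^ (g.κ j)) (by positivity) ?_ h3
    · exact this
    · intro q hq
      refine ⟨by positivity, ?_⟩
      unfold Cfg.Blk PB at hq
      rw [Finset.mem_sdiff, Finset.mem_filter, Finset.mem_Ioc] at hq
      have hlt : (2 : ℝ) ^ (g.κ j) ≤ q := by exact_mod_cast hq.1.1.1.le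
      exact one_div_le_one_div_of_le (by positivity) hlt

theorem t1_pr (x0 I c D : ℕ) (hI : 800 ≤ I) (hx : 2 * x0 ≤ I) (hD : 1 ≤ D) (hD8 : D ≤ 2 ^ (I / 8))
    (hlow : ∀ x : ℕ, x0 ≤ x →
      (x : ℝ) / (5 * Real.log x) ≤ (((Icc 1 x).filter (fun p => p.Prime ∧ p % 8 = c)).card : ℝ)) :
    1 / 20 * (2 ^ I / (D * I)) ≤
      (((Ioc (2 ^ (I / 2)) (2 ^ I / D)).filter (fun p => p.Prime ∧ p % 8 = c)).card : ℝ) := by
  set x : ℕ := 2 ^ I / D with hxdef
  have hxI : 2 ^ (I - I / 8) ≤ x := by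
    rw [hxdef, Nat.le_div_iff_mul_le (by omega)]
    calc 2 ^ (I - I / 8) * D ≤ 2 ^ (I - I / 8) * 2 ^ (I / 8) := Nat.mul_le_mul_left _ hD8
      _ = 2 ^ I := by rw [← pow_add]; congr 1; omega
  have hxle : x ≤ 2 ^ I := Nat.div_le_self _ _
  have hbig : I - I / 8 < 2 ^ (I - I / 8) := Nat.lt_two_pow_self
  have hx0 : x0 ≤ x := by omega
  have hx2 : 2 ≤ x := by omega
  have hcard : ((Icc 1 x).filter (fun p => p.Prime ∧ p % 8 = c)).card ≤
      ((Ioc (2 ^ (I / 2)) x).filter (fun p => p.Prime ∧ p % 8 = c)).card + 2 ^ (I / 2) := by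
    have hsub : (Icc 1 x).filter (fun p => p.Prime ∧ p % 8 = c) ⊆
        ((Ioc (2 ^ (I / 2)) x).filter (fun p => p.Prime ∧ p % 8 = c)) ∪ Icc 1 (2 ^ (I / 2)) := by
      intro p hp
      rw [Finset.mem_filter, Finset.mem_Icc] at hp
      rw [Finset.mem_union, Finset.mem_filter, Finset.mem_Ioc, Finset.mem_Icc]
      by_cases h : p ≤ 2 ^ (I / 2)
      · right; exact ⟨hp.1.1, h⟩
      · left; exact ⟨⟨by omega, hp.1.2⟩, hp.2⟩
    refine (Finset.card_le_card hsub).trans ((Finset.card_union_le _ _).trans ?_)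
    rw [Nat.card_Icc, Nat.add_sub_cancel]
  have hcardR : (((Icc 1 x).filter (fun p => p.Prime ∧ p % 8 = c)).card : ℝ) ≤
      (((Ioc (2 ^ (I / 2)) x).filter (fun p => p.Prime ∧ p % 8 = c)).card : ℝ) + 2 ^ (I / 2) := by
    exact_mod_cast hcard
  have hl := hlow x hx0
  have hxR : (2 : ℝ) ≤ x := by exact_mod_cast hx2
  have hlogpos : 0 < Real.log x := Real.log_pos (by linarith)
  have hlogle : Real.log x ≤ I := by
    have h1 : Real.log x ≤ Real.log ((2 : ℝ) ^ I) := by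
      apply Real.log_le_log (by linarith)
      exact_mod_cast hxle
    rw [Real.log_pow] at h1
    have h2 : Real.log 2 ≤ 1 := by
      have := Real.log_two_lt_d9
      linarith
    have h3 : (0 : ℝ) ≤ I := by positivity
    nlinarith
  have hIpos : (0 : ℝ) < I := by
    have : 0 < I := by omega
    exact_mod_cast this
  have hDpos : (0 : ℝ) < D := by
    have : 0 < D := by omega
    exact_mod_cast this
  -- x ≥ 2^I / (2 D)
  have hxlow : (2 : ℝ) ^ I / (2 * D) ≤ x := by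
    have h1 : 2 ^ I < D * (x + 1) := by
      have := Nat.lt_mul_div_succ (2 ^ I) (show 0 < D by omega)
      simpa [hxdef] using this
    have h2 : (2 : ℝ) ^ I < D * (x + 1) := by exact_mod_cast h1
    rw [div_le_iff₀ (by positivity)]
    nlinarith
  have h5 : (2 : ℝ) ^ I / (2 * D) / (5 * I) ≤ (x : ℝ) / (5 * Real.log x) := by
    apply div_le_div₀ (by positivity) hxlow (by positivity)
    linarith
  have h6 : (2 : ℝ) ^ (I / 2) ≤ 1 / 20 * (2 ^ I / (D * I)) := by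
    have h7 : 20 * I * D * 2 ^ (I / 2) ≤ 2 ^ I := by
      calc 20 * I * D * 2 ^ (I / 2) ≤ 2 ^ (I / 4) * 2 ^ (I / 8) * 2 ^ (I / 2) := by
            apply Nat.mul_le_mul_right
            exact Nat.mul_le_mul (t1_two_pow' I hI) hD8
        _ = 2 ^ (I / 4 + I / 8 + I / 2) := by rw [pow_add, pow_add]
        _ ≤ 2 ^ I := Nat.pow_le_pow_right (by norm_num) (by omega)
    have h8 : 20 * (I : ℝ) * D * 2 ^ (I / 2) ≤ 2 ^ I := by exact_mod_cast h7
    rw [one_div, inv_mul_eq_div, div_div, le_div_iff₀ (by positivity)]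
    nlinarith
  have h9 : (2 : ℝ) ^ I / (2 * D) / (5 * I) = 1 / 10 * (2 ^ I / (D * I)) := by
    field_simp
    ring
  rw [h9] at h5
  linarith

/-- lower bound for the number of tuples -/
theorem tupLow (h1 : PCStmt) (h2 : ESStmt) : TupLow := by
  obtain ⟨x0, hx0⟩ := h1.low
  refine ⟨1 / 20, by norm_num, 2 * x0, ?_⟩
  intro M g hg hI hk
  have hmass := t1_mass h2 g hk
  have hRpos : 0 < g.Rp := by
    unfold Cfg.Rp
    exact Finset.prod_pos (fun q hq => (hg.hR q hq).1.pos)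
  have hQpos : ∀ A ∈ g.Fam, 0 < g.Q A := by
    intro A hA
    unfold Cfg.Q
    apply Finset.prod_pos
    intro j _
    apply Finset.prod_pos
    intro q hq
    unfold Cfg.Fam at hA
    rw [Fintype.mem_piFinset] at hA
    have hAj := (Finset.mem_powersetCard.mp (hA j)).1 hq
    unfold Cfg.Blk PB at hAj
    rw [Finset.mem_sdiff, Finset.mem_filter, Finset.mem_Ioc] at hAj
    exact hAj.1.2.1.pos
  have hcard : (g.Tup.card : ℝ) = ∑ A ∈ g.Fam, ((g.Pr A).card : ℝ) := by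
    unfold Cfg.Tup
    rw [Finset.card_sigma]
    push_cast
    rfl
  rw [hcard]
  have hterm : ∀ A ∈ g.Fam, 1 / 20 * (2 ^ g.I / (g.Rp * g.I)) * (1 / (g.Q A : ℝ)) ≤
      ((g.Pr A).card : ℝ) := by
    intro A hA
    have hD : 1 ≤ g.Rp * g.Q A := Nat.mul_pos hRpos (hQpos A hA)
    have h3 := t1_pr x0 g.I g.c (g.Rp * g.Q A) hg.hI hI hD (hg.hRQ A hA)
      (fun x hx => hx0 x hx g.c hg.hc)
    have hRr : (0 : ℝ) < g.Rp := by exact_mod_cast hRpos
    have hQr : (0 : ℝ) < g.Q A := by exact_mod_cast hQpos A hA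
    have hIr : (0 : ℝ) < g.I := by
      have : 0 < g.I := by have := hg.hI; omega
      exact_mod_cast this
    have h4 : 1 / 20 * ((2 : ℝ) ^ g.I / (g.Rp * g.I)) * (1 / (g.Q A : ℝ)) =
        1 / 20 * (2 ^ g.I / (((g.Rp * g.Q A : ℕ) : ℝ) * g.I)) := by
      push_cast
      field_simp
    rw [h4]
    unfold Cfg.Pr
    exact h3
  calc 1 / 20 * (2 ^ g.I / (g.Rp * g.I)) * (g.W / 2 ^ M)
      ≤ 1 / 20 * (2 ^ g.I / (g.Rp * g.I)) * ∑ A ∈ g.Fam, 1 / (g.Q A : ℝ) := by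
        apply mul_le_mul_of_nonneg_left hmass
        positivity
    _ = ∑ A ∈ g.Fam, 1 / 20 * (2 ^ g.I / (g.Rp * g.I)) * (1 / (g.Q A : ℝ)) := by
        rw [Finset.mul_sum]
    _ ≤ ∑ A ∈ g.Fam, ((g.Pr A).card : ℝ) := Finset.sum_le_sum hterm

end Pool.Agent.H189Z.MP
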