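import Pool.Agent.H189Z.MP.Basic

set_option autoImplicit false

/-!
# B-T3: tuples represented by a small kernel
-/

namespace Pool.Agent.H189Z.MP

open Pool.Agent.H307R2.OP (J PB Pr2 BT4 ESStmt SVStmt BadCount kap)

open Finset

theorem t3_blk_prime {M : ℕ} (g : Cfg M) (i : Fin M) {q : ℕ} (hq : q ∈ g.Blk i) : q.Prime := by
  unfold Cfg.Blk PB at hq
  rw [mem_sdiff, mem_filter] at hq
  exact hq.1.2.1

theorem t3_Q_pos {M : ℕ} (g : Cfg M) {A : Fin M → Finset ℕ} (hA : A ∈ g.Fam) : 0 < g.Q A := by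
  unfold Cfg.Fam at hA
  rw [Fintype.mem_piFinset] at hA
  unfold Cfg.Q
  apply Finset.prod_pos
  intro i _
  apply Finset.prod_pos
  intro q hq
  have := hA i
  rw [mem_powersetCard] at this
  exact (t3_blk_prime g i (this.1 hq)).pos

theorem t3_Rp_pos {M : ℕ} (g : Cfg M) (hg : g.Ok) : 0 < g.Rp := by
  unfold Cfg.Rp
  exact Finset.prod_pos (fun q hq => (hg.hR q hq).1.pos)

/-- The number of large primes of a family member. -/
theorem t3_card_Pr {C : ℝ} (hC : 0 < C) (hup : ∀ x : ℕ, 2 ≤ x →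
    (((Icc 1 x).filter Nat.Prime).card : ℝ) ≤ C * x / Real.log x)
    {M : ℕ} (g : Cfg M) (hg : g.Ok) {A : Fin M → Finset ℕ} (hA : A ∈ g.Fam) :
    ((g.Pr A).card : ℝ) ≤ 2 * C * (2 ^ g.I / (g.Rp * g.I)) * (1 / (g.Q A : ℝ)) := by
  have hRQ := hg.hRQ A hA
  have hI := hg.hI
  have hRp0 := t3_Rp_pos g hg
  have hQ0 := t3_Q_pos g hA
  set x : ℕ := 2 ^ g.I / (g.Rp * g.Q A) with hx
  have hxlow : 2 ^ (g.I - g.I / 8) ≤ x := by
    rw [hx, Nat.le_div_iff_mul_le (by positivity)]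
    calc 2 ^ (g.I - g.I / 8) * (g.Rp * g.Q A) ≤ 2 ^ (g.I - g.I / 8) * 2 ^ (g.I / 8) :=
          Nat.mul_le_mul_left _ hRQ
      _ = 2 ^ g.I := by rw [← pow_add]; congr 1; omega
  have hx2 : 2 ≤ x := by
    have h1 : 2 ^ 1 ≤ 2 ^ (g.I - g.I / 8) := Nat.pow_le_pow_right (by norm_num) (by omega)
    omega
  have hcard : ((g.Pr A).card : ℝ) ≤ C * x / Real.log x := by
    refine le_trans ?_ (hup x hx2)
    have h1 : g.Pr A ⊆ (Icc 1 x).filter Nat.Prime := by
      intro p hp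
      unfold Cfg.Pr at hp
      rw [mem_filter, mem_Ioc] at hp
      rw [mem_filter, mem_Icc]
      exact ⟨⟨hp.2.1.one_lt.le, hp.1.2⟩, hp.2.1⟩
    exact_mod_cast Finset.card_le_card h1
  have hlog : (g.I : ℝ) / 2 ≤ Real.log x := by
    have h1 : Real.log ((2:ℝ) ^ (g.I - g.I / 8)) ≤ Real.log x := by
      apply Real.log_le_log (by positivity)
      exact_mod_cast hxlow
    rw [Real.log_pow] at h1
    have h2 : (7:ℝ) * g.I ≤ 8 * ((g.I - g.I / 8 : ℕ) : ℝ) := by
      have : 7 * g.I ≤ 8 * (g.I - g.I / 8) := by omega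
      exact_mod_cast this
    have h3 := Real.log_two_gt_d9
    have h4 : (0:ℝ) ≤ g.I := Nat.cast_nonneg _
    nlinarith
  have hI0 : (0:ℝ) < g.I := by
    have : 0 < g.I := by omega
    exact_mod_cast this
  have hRpR : (0:ℝ) < g.Rp := by exact_mod_cast hRp0
  have hQR : (0:ℝ) < g.Q A := by exact_mod_cast hQ0
  have hxR : (x:ℝ) ≤ 2 ^ g.I / (g.Rp * g.Q A) := by
    have := @Nat.cast_div_le ℝ _ _ _ (2 ^ g.I) (g.Rp * g.Q A)
    rw [← hx] at this
    push_cast at this
    exact this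
  calc ((g.Pr A).card : ℝ) ≤ C * x / Real.log x := hcard
    _ ≤ C * x / ((g.I : ℝ) / 2) := by
        apply div_le_div_of_nonneg_left (by positivity) (by positivity) hlog
    _ ≤ C * (2 ^ g.I / (g.Rp * g.Q A)) / ((g.I : ℝ) / 2) := by
        apply div_le_div_of_nonneg_right _ (by positivity)
        exact mul_le_mul_of_nonneg_left hxR hC.le
    _ = _ := by field_simp

/-- task B-T3 -/
theorem tupSmall (h1 : QRStmt) (h2 : ESStmt) (h3 : TupStmt) (h4 : PCStmt) : TupSmall := by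
  obtain ⟨C, hC, hup⟩ := h4.up
  refine ⟨2 * C, by positivity, ?_⟩
  intro M g hg δ hδ j θ hθ0 hθ1 hblk
  classical
  set B' : Fin M → Finset ℕ := fun i =>
    if i = j then (g.Blk j).filter (fun q => K g.w q δ ≠ -1) else g.Blk i with hB'
  have hB'sub : ∀ i, B' i ⊆ g.Blk i := by
    intro i
    simp only [hB']
    split_ifs with h
    · rw [h]; exact Finset.filter_subset _ _
    · exact Finset.Subset.refl _
  set Fam' : Finset (Fin M → Finset ℕ) :=
    Fintype.piFinset (fun i => powersetCard (g.k i) (B' i)) with hFam'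
  have hFsub : Fam' ⊆ g.Fam := by
    intro A hA
    rw [hFam', Fintype.mem_piFinset] at hA
    unfold Cfg.Fam
    rw [Fintype.mem_piFinset]
    intro i
    have := hA i
    rw [mem_powersetCard] at this ⊢
    exact ⟨this.1.trans (hB'sub i), this.2⟩
  have hsub : g.Tup.filter (fun t => Rep g.e g.w δ (g.N t)) ⊆ Fam'.sigma g.Pr := by
    intro t ht
    rw [mem_filter] at ht
    have ht1 := ht.1
    unfold Cfg.Tup at ht1
    rw [mem_sigma] at ht1 ⊢
    refine ⟨?_, ht1.2⟩
    have hF := ht1.1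
    unfold Cfg.Fam at hF
    rw [Fintype.mem_piFinset] at hF
    rw [hFam', Fintype.mem_piFinset]
    intro i
    have := hF i
    rw [mem_powersetCard] at this ⊢
    refine ⟨?_, this.2⟩
    simp only [hB']
    split_ifs with h
    · intro q hq
      rw [mem_filter]
      subst h
      refine ⟨this.1 hq, ?_⟩
      intro hJ
      obtain ⟨s, s1, s2, s3, s4, s5, s6, s7, s8⟩ := h3 M g hg t ht.1
      have hqs := s6 i hq
      exact h1.kill g.e g.w δ (g.N t) q hg.he hg.pw (s1 q hqs).1 (s1 q hqs).2.1 hJ (s7 q hqs).1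
        (s7 q hqs).2 ht.2
    · exact this.1
  set K : ℝ := 2 * C * (2 ^ g.I / (g.Rp * g.I)) with hK
  have hK0 : 0 ≤ K := by rw [hK]; positivity
  have hinv : ∀ A : Fin M → Finset ℕ, (1 / (g.Q A : ℝ)) = ∏ i, ∏ q ∈ A i, (1 / (q : ℝ)) := by
    intro A
    unfold Cfg.Q
    push_cast
    simp only [one_div, Finset.prod_inv_distrib]
  have hS0 : ∀ i, 0 ≤ g.S i := by
    intro i; unfold Cfg.S; positivity
  have hterm : ∀ i, ∑ A ∈ powersetCard (g.k i) (B' i), ∏ q ∈ A, (1 / (q:ℝ)) ≤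
      (g.S i ^ g.k i / ((g.k i).factorial : ℝ)) * (if i = j then (1 - θ) ^ g.k j else 1) := by
    intro i
    refine (h2.up (B' i) (fun q => 1 / (q:ℝ)) (g.k i) (fun q _ => by positivity)).trans ?_
    by_cases hij : i = j
    · subst hij
      simp only [hB', if_true]
      rw [div_mul_eq_mul_div]
      apply div_le_div_of_nonneg_right _ (by positivity)
      rw [← mul_pow, mul_comm (g.S i)]
      exact pow_le_pow_left₀ (Finset.sum_nonneg (fun q _ => by positivity)) hblk _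
    · simp only [hB', if_neg hij, mul_one]
      apply le_of_eq
      rfl
  have hprod : ∑ A ∈ Fam', (1 / (g.Q A : ℝ)) ≤ g.W * (1 - θ) ^ g.k j := by
    calc ∑ A ∈ Fam', (1 / (g.Q A : ℝ)) = ∑ A ∈ Fam', ∏ i, ∏ q ∈ A i, (1 / (q : ℝ)) :=
          Finset.sum_congr rfl (fun A _ => hinv A)
      _ = ∏ i, ∑ A ∈ powersetCard (g.k i) (B' i), ∏ q ∈ A, (1 / (q:ℝ)) :=
          h2.fam M B' g.k (fun q => 1 / (q:ℝ))
      _ ≤ ∏ i, ((g.S i ^ g.k i / ((g.k i).factorial : ℝ)) *
            (if i = j then (1 - θ) ^ g.k j else 1)) := by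
          apply Finset.prod_le_prod
          · intro i _
            exact Finset.sum_nonneg (fun A _ => Finset.prod_nonneg (fun q _ => by positivity))
          · intro i _
            exact hterm i
      _ = g.W * (1 - θ) ^ g.k j := by
          rw [Finset.prod_mul_distrib, Finset.prod_ite_eq' Finset.univ j, if_pos (Finset.mem_univ j)]
          rfl
  calc ((g.Tup.filter (fun t => Rep g.e g.w δ (g.N t))).card : ℝ)
      ≤ ((Fam'.sigma g.Pr).card : ℝ) := by exact_mod_cast Finset.card_le_card hsub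
    _ = ∑ A ∈ Fam', ((g.Pr A).card : ℝ) := by
        rw [Finset.card_sigma]; push_cast; rfl
    _ ≤ ∑ A ∈ Fam', K * (1 / (g.Q A : ℝ)) :=
        Finset.sum_le_sum (fun A hA => t3_card_Pr hC hup g hg (hFsub hA))
    _ = K * ∑ A ∈ Fam', (1 / (g.Q A : ℝ)) := by rw [Finset.mul_sum]
    _ ≤ K * (g.W * (1 - θ) ^ g.k j) := mul_le_mul_of_nonneg_left hprod hK0
    _ = _ := by ring

end Pool.Agent.H189Z.MP
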